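import Mathlib

/-!
TFA (part A of MP_767178_co): absorbers for coloured cycles of length `m + 2`.
Items are edges (`Sum.inl e`) and pairs vertex-colour (`Sum.inr (v, c)`).
-/

set_option autoImplicit false

namespace TFA

open Finset

/-- items: edges and (vertex, colour) pairs -/
abbrev Item (V C : Type) := Sym2 V ⊕ (V × C)

variable {V C : Type} [DecidableEq V] [DecidableEq C]

/-- items of the coloured cycle `g 0, g 1, ..., g (m+1)` (cyclic) in colour `c` -/
def cy {m : ℕ} (g : Fin (m + 2) → V) (c : C) : Finset (Item V C) :=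
  univ.image (fun j : Fin (m + 2) => (Sum.inl s(g j, g (j + 1)) : Item V C)) ∪
    univ.image (fun j : Fin (m + 2) => (Sum.inr (g j, c) : Item V C))

/-- disjoint union of coloured cycles of length `m + 2` -/
inductive Dc (m : ℕ) : Finset (Item V C) → Prop
  | nil : Dc m ∅
  | cons (S : Finset (Item V C)) (g : Fin (m + 2) → V) (c : C) :
      Dc m S → Function.Injective g → Disjoint (cy g c) S → Dc m (cy g c ∪ S)

/-- all vertices and colours of the item are old -/
def In (W : Finset V) (Γ : Finset C) : Item V C → Prop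
  | Sum.inl e => ∀ x ∈ e, x ∈ W
  | Sum.inr p => p.1 ∈ W ∧ p.2 ∈ Γ

/-- `T` is a set of new items placed between the stages `(W, Γ)` and `(W', Γ')` -/
structure Step (G : SimpleGraph V) (W : Finset V) (Γ : Finset C) (W' : Finset V) (Γ' : Finset C)
    (T : Finset (Item V C)) : Prop where
  hW : W ⊆ W'
  hΓ : Γ ⊆ Γ'
  hin : ∀ i ∈ T, In W' Γ' i
  hnew : ∀ i ∈ T, ¬ In W Γ i
  hG : ∀ e : Sym2 V, Sum.inl e ∈ T → e ∈ G.edgeSet

/-- any 4 vertices have a common neighbour outside any set of fewer than `k` vertices -/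
def Host (G : SimpleGraph V) (k : ℕ) : Prop :=
  ∀ S W : Finset V, S.card ≤ 4 → W.card < k → ∃ v, v ∉ W ∧ ∀ x ∈ S, G.Adj v x

/-- there is a colour outside any set of fewer than `kc` colours -/
def HostC (C : Type) (kc : ℕ) : Prop := ∀ Γ : Finset C, Γ.card < kc → ∃ c, c ∉ Γ

/-- one side of the switch `{r y, s z} <-> {s y, r z}` -/
def sw (C : Type) [DecidableEq C] (r s y z : V) : Finset (Item V C) :=
  {Sum.inl s(r, y), Sum.inl s(s, z)}

/-- balanced set of items -/
def Bal (m : ℕ) (L : Finset (Item V C)) : Prop :=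
  (∀ v, (L.toLeft.filter (fun e => v ∈ e)).card = 2 * (L.toRight.filter (fun p => p.1 = v)).card) ∧
    ∀ c, (m + 2) ∣ (L.toRight.filter (fun p => p.2 = c)).card

/-- edge-shift permutation of the matrix positions: down the columns, `τ` in column `0` -/
def al {m : ℕ} {Q : Type} (τ : Equiv.Perm (Q × Fin (m + 2))) :
    Equiv.Perm (Q × Fin (m + 2) × Fin (m + 2)) where
  toFun o := if o.2.2 = 0 then ((τ (o.1, o.2.1)).1, (τ (o.1, o.2.1)).2, 0) else (o.1, o.2.1 + 1, o.2.2)
  invFun o := if o.2.2 = 0 then ((τ.symm (o.1, o.2.1)).1, (τ.symm (o.1, o.2.1)).2, 0)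
    else (o.1, o.2.1 - 1, o.2.2)
  left_inv o := by
    rcases o with ⟨q, i, j⟩
    by_cases h : j = 0
    · simp [h]
    · simp [h]
  right_inv o := by
    rcases o with ⟨q, i, j⟩
    by_cases h : j = 0
    · simp [h]
    · simp [h]

/-- edge-shift permutation along the rows -/
def be {m : ℕ} {Q : Type} : Equiv.Perm (Q × Fin (m + 2) × Fin (m + 2)) where
  toFun o := (o.1, o.2.1, o.2.2 + 1)
  invFun o := (o.1, o.2.1, o.2.2 - 1)
  left_inv o := by simp
  right_inv o := by simp

/-- the matrix data: `M q i 0` old vertices, `M q i j` (`j ≠ 0`) new distinct vertices -/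
structure Mat {m : ℕ} {Q : Type} (M : Q × Fin (m + 2) × Fin (m + 2) → V) (col : Q → C)
    (τ : Equiv.Perm (Q × Fin (m + 2))) : Prop where
  inj : ∀ o o' : Q × Fin (m + 2) × Fin (m + 2), o.2.2 ≠ 0 → M o = M o' → o = o'
  pairs : Function.Injective (fun κ : Q × Fin (m + 2) => (M (κ.1, κ.2, 0), col κ.1))
  edges : Function.Injective (fun κ : Q × Fin (m + 2) =>
    s(M (κ.1, κ.2, 0), M ((τ κ).1, (τ κ).2, 0)))
  loop : ∀ κ : Q × Fin (m + 2), M (κ.1, κ.2, 0) ≠ M ((τ κ).1, (τ κ).2, 0)

/-- vertices needed for the absorber of one leftover of size at most `b` -/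
def wb (m b : ℕ) : ℕ := b * (m + 1) + 1 + (2 + 18 * m) * (b * (m + 2))

/-- size of the absorber of one leftover of size at most `b` -/
def rb (m b : ℕ) : ℕ := (74 + 36 * m) * (b * (m + 2))

/-- colours needed for the absorber of one leftover of size at most `b` -/
def cb (m b : ℕ) : ℕ := 9 * (b * (m + 2))

end TFA
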