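import Mathlib
import Pool.Agent.TFA.Defs

/-!
TFA/DcU (difficulty 1). Unions of decomposable sets.
`dc_single`: `cons` applied to `nil`, `cy g c ∪ ∅ = cy g c`.
`dc_union`: induction on `hS`; `(cy g c ∪ S) ∪ T = cy g c ∪ (S ∪ T)`.
`dc_biUnion`: `Finset.induction_on I` with `Finset.biUnion_insert`, `Finset.disjoint_biUnion_right`.
-/

set_option autoImplicit false

namespace TFA

open Finset

variable {V C : Type} [DecidableEq V] [DecidableEq C]

theorem dc_single {m : ℕ} (g : Fin (m + 2) → V) (hg : Function.Injective g) (c : C) :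
    Dc m (cy g c) := by
  have h := Dc.cons (∅ : Finset (Item V C)) g c Dc.nil hg (disjoint_empty_right _)
  rwa [union_empty] at h

theorem dc_union {m : ℕ} {S T : Finset (Item V C)} (hS : Dc m S) (hT : Dc m T)
    (h : Disjoint S T) : Dc m (S ∪ T) := by
  induction hS with
  | nil => rwa [empty_union]
  | cons S g c _ hg hd ih =>
    rw [disjoint_union_left] at h
    rw [union_assoc]
    exact Dc.cons _ g c (ih h.2) hg (disjoint_union_right.mpr ⟨hd, h.1⟩)

theorem dc_biUnion {m : ℕ} {ι : Type} [DecidableEq ι] (I : Finset ι) (B : ι → Finset (Item V C))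
    (hB : ∀ i ∈ I, Dc m (B i)) (hd : ∀ i ∈ I, ∀ j ∈ I, i ≠ j → Disjoint (B i) (B j)) :
    Dc m (I.biUnion B) := by
  induction I using Finset.induction_on with
  | empty => rw [biUnion_empty]; exact Dc.nil
  | insert a I ha ih =>
    rw [biUnion_insert]
    apply dc_union (hB a (mem_insert_self _ _))
    · exact ih (fun i hi => hB i (mem_insert_of_mem hi))
        (fun i hi j hj => hd i (mem_insert_of_mem hi) j (mem_insert_of_mem hj))
    · rw [disjoint_biUnion_right]
      intro j hj
      exact hd a (mem_insert_self _ _) j (mem_insert_of_mem hj) (by rintro rfl; exact ha hj)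

end TFA
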