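import Mathlib

/-!
TFA/Grp (difficulty 2). Grouping the pairs of each colour into groups of `l`.
Proof: for every colour `c` let `P_c = P.filter (·.2 = c)`, `n_c := P_c.card / l`, so
`P_c.card = n_c * l`, and there is a bijection `φ_c : Fin n_c × Fin l ≃ P_c` (`Fintype.equivOfCardEq`;
as types `{p // p ∈ P_c}`). `Q := Σ c : {c // c ∈ P.image Prod.snd}, Fin (n_c)` (a fintype; `C` itself
need not be finite), `v ⟨c, i⟩ j := (φ_c (i, j)).1.1`, `col ⟨c, i⟩ := c`. The map
`(q, j) ↦ (v q j, col q) = (φ_c (i, j)).1` is injective (the colour gives `c`, then `φ_c` is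
injective) with image `P`. The cardinality: `Fintype.card (Q × Fin l) = P.card` follows from the
bijection (`Finset.card_image_of_injective`).
-/

set_option autoImplicit false

namespace TFA

open Finset

theorem grp {V C : Type} [DecidableEq V] [DecidableEq C] (P : Finset (V × C)) (l : ℕ)
    (hP : ∀ c, l ∣ (P.filter (fun p => p.2 = c)).card) :
    ∃ (Q : Type) (_ : Fintype Q) (_ : DecidableEq Q) (v : Q → Fin l → V) (col : Q → C),
      Function.Injective (fun κ : Q × Fin l => (v κ.1 κ.2, col κ.1)) ∧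
      univ.image (fun κ : Q × Fin l => (v κ.1 κ.2, col κ.1)) = P ∧
      Fintype.card Q * l = P.card := by
  classical
  choose n hn using hP
  have hφ : ∀ c, Nonempty (Fin (n c) × Fin l ≃ {p // p ∈ P.filter (fun p => p.2 = c)}) := by
    intro c
    apply Fintype.card_eq.mp
    rw [Fintype.card_prod, Fintype.card_fin, Fintype.card_fin, Fintype.card_coe, hn c, mul_comm]
  let φ : ∀ c, Fin (n c) × Fin l ≃ {p // p ∈ P.filter (fun p => p.2 = c)} := fun c => (hφ c).some
  let Q : Type := Σ c : {c // c ∈ P.image Prod.snd}, Fin (n c.1)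
  have hcol : ∀ (c : C) (x : Fin (n c) × Fin l), (φ c x).1.2 = c := by
    intro c x
    exact (mem_filter.mp (φ c x).2).2
  have hmemP : ∀ (c : C) (x : Fin (n c) × Fin l), (φ c x).1 ∈ P := by
    intro c x
    exact (mem_filter.mp (φ c x).2).1
  have hpair : ∀ κ : Q × Fin l, ((φ κ.1.1.1 (κ.1.2, κ.2)).1.1, κ.1.1.1) =
      (φ κ.1.1.1 (κ.1.2, κ.2)).1 := by
    intro κ
    exact Prod.ext rfl (hcol _ _).symm
  have hinj : Function.Injective (fun κ : Q × Fin l =>
      ((φ κ.1.1.1 (κ.1.2, κ.2)).1.1, κ.1.1.1)) := by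
    rintro ⟨⟨⟨c, hc⟩, i⟩, j⟩ ⟨⟨⟨c', hc'⟩, i'⟩, j'⟩ h
    have h2 : c = c' := congrArg Prod.snd h
    subst h2
    have h1 : (φ c (i, j)).1 = (φ c (i', j')).1 := by
      have e1 := hpair ⟨⟨⟨c, hc⟩, i⟩, j⟩
      have e2 := hpair ⟨⟨⟨c, hc'⟩, i'⟩, j'⟩
      simp only at e1 e2 h
      rw [← e1, ← e2]
      exact h
    have h3 := (φ c).injective (Subtype.ext h1)
    rw [Prod.mk.injEq] at h3
    rw [h3.1, h3.2]
  have himg : univ.image (fun κ : Q × Fin l => ((φ κ.1.1.1 (κ.1.2, κ.2)).1.1, κ.1.1.1)) = P := by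
    ext p
    rw [mem_image]
    constructor
    · rintro ⟨κ, _, rfl⟩
      rw [hpair]
      exact hmemP _ _
    · intro hp
      have hc : p.2 ∈ P.image Prod.snd := mem_image_of_mem _ hp
      obtain ⟨x, hx⟩ := (φ p.2).surjective ⟨p, mem_filter.mpr ⟨hp, rfl⟩⟩
      refine ⟨⟨⟨⟨p.2, hc⟩, x.1⟩, x.2⟩, mem_univ _, ?_⟩
      rw [hpair]
      simp only [Prod.mk.eta]
      rw [hx]
  refine ⟨Q, inferInstance, inferInstance, fun q j => (φ q.1.1 (q.2, j)).1.1, fun q => q.1.1,
    hinj, himg, ?_⟩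
  have h1 := congrArg Finset.card himg
  rw [card_image_of_injective _ hinj, card_univ, Fintype.card_prod, Fintype.card_fin] at h1
  exact h1

end TFA
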