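import Mathlib
import Pool.Agent.TFA.Defs

/-!
TFA/Grd (difficulty 2). Greedy embedding with at most 4 back neighbours.
Proof: show by strong induction on `S.card` for finsets `S` of `ι` that are closed
(`∀ i ∈ S, con i ⊆ S`): there is `f : ι → V` with the properties for all `i ∈ S`, injective on `S`
(`Set.InjOn f S`). Step: `S` nonempty, take `i ∈ S` with `rk i` maximal
(`Finset.exists_max_image`), `S' = S.erase i` is closed: for `j ∈ S'` and `l ∈ con j` we have
`l ∈ S` and `l ≠ i` since `rk l < rk j ≤ rk i`. Let `f` be the map for `S'`. Apply `hG` to the set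
`(con i).image f ∪ cW i` (card at most 4, `Finset.card_image_le`) and `W ∪ S'.image f` (card
`≤ W.card + S'.card < W.card + card ι ≤ k`): `v`. The new map is `Function.update f i v`
(for `j ∈ S'` and `l ∈ con j`: `j ≠ i`, `l ≠ i`; `i ∉ con i` as `rk i < rk i` is impossible).
The final case `S = univ`. The base case `S = ∅`: a function `ι → V` is needed: if `ι` is empty take
`isEmptyElim`, else get some `v : V` from `hG ∅ ∅`-style application (`0 < k` since
`card ι ≤ k` and `0 < card ι`), constant map. (Alternatively treat `IsEmpty ι` first.)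
-/

set_option autoImplicit false

namespace TFA

open Finset

variable {V : Type} [DecidableEq V]

lemma greedy_aux {G : SimpleGraph V} {k : ℕ} (hG : Host G k) {ι : Type} [Fintype ι]
    [DecidableEq ι] (rk : ι → ℕ) (con : ι → Finset ι) (hcon : ∀ i, ∀ j ∈ con i, rk j < rk i)
    (cW : ι → Finset V) (hcard : ∀ i, (con i).card + (cW i).card ≤ 4)
    (W : Finset V) (hW : W.card + Fintype.card ι ≤ k) (f0 : ι → V) :
    ∀ n : ℕ, ∀ S : Finset ι, S.card = n → (∀ i ∈ S, con i ⊆ S) →
      ∃ f : ι → V, Set.InjOn f S ∧ (∀ i ∈ S, f i ∉ W) ∧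
        (∀ i ∈ S, ∀ j ∈ con i, G.Adj (f i) (f j)) ∧ (∀ i ∈ S, ∀ x ∈ cW i, G.Adj (f i) x) := by
  intro n
  induction n with
  | zero =>
    intro S hS _
    rw [card_eq_zero] at hS
    subst hS
    exact ⟨f0, by simp, by simp, by simp, by simp⟩
  | succ n ih =>
    intro S hS hcl
    have hne : S.Nonempty := by
      rw [← card_pos]
      omega
    obtain ⟨i, hi, hmax⟩ := exists_max_image S rk hne
    have hcard' : (S.erase i).card = n := by
      rw [card_erase_of_mem hi]
      omega
    have hcl' : ∀ j ∈ S.erase i, con j ⊆ S.erase i := by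
      intro j hj l hl
      rw [mem_erase] at hj ⊢
      refine ⟨?_, hcl j hj.2 hl⟩
      rintro rfl
      have h1 := hcon j l hl
      have h2 := hmax j hj.2
      omega
    obtain ⟨f, hf1, hf2, hf3, hf4⟩ := ih (S.erase i) hcard' hcl'
    have hSc : S.card ≤ Fintype.card ι := card_le_univ _
    obtain ⟨v, hv1, hv2⟩ := hG ((con i).image f ∪ cW i) (W ∪ (S.erase i).image f) (by
      refine (card_union_le _ _).trans ?_
      have h1 : ((con i).image f).card ≤ (con i).card := card_image_le
      have h2 := hcard i
      omega) (by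
      refine (Nat.lt_of_le_of_lt (card_union_le _ _) ?_)
      have h1 : ((S.erase i).image f).card ≤ (S.erase i).card := card_image_le
      omega)
    rw [mem_union, not_or] at hv1
    have hii : i ∉ con i := fun h => absurd (hcon i i h) (lt_irrefl _)
    have hup : ∀ j ∈ S, j ≠ i → Function.update f i v j = f j := by
      intro j _ hj
      rw [Function.update_of_ne hj]
    refine ⟨Function.update f i v, ?_, ?_, ?_, ?_⟩
    · intro a ha b hb hab
      by_cases hai : a = i
      · by_cases hbi : b = i
        · rw [hai, hbi]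
        · exfalso
          rw [hai, Function.update_self, Function.update_of_ne hbi] at hab
          apply hv1.2
          rw [hab]
          exact mem_image_of_mem f (mem_erase.mpr ⟨hbi, hb⟩)
      · by_cases hbi : b = i
        · exfalso
          rw [hbi, Function.update_self, Function.update_of_ne hai] at hab
          apply hv1.2
          rw [← hab]
          exact mem_image_of_mem f (mem_erase.mpr ⟨hai, ha⟩)
        · rw [Function.update_of_ne hai, Function.update_of_ne hbi] at hab
          exact hf1 (mem_coe.mpr (mem_erase.mpr ⟨hai, ha⟩)) (mem_coe.mpr (mem_erase.mpr ⟨hbi, hb⟩)) hab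
    · intro j hj
      by_cases hji : j = i
      · rw [hji, Function.update_self]
        exact hv1.1
      · rw [Function.update_of_ne hji]
        exact hf2 j (mem_erase.mpr ⟨hji, hj⟩)
    · intro j hj l hl
      by_cases hji : j = i
      · subst hji
        have hlj : l ≠ j := by rintro rfl; exact hii hl
        rw [Function.update_self, Function.update_of_ne hlj]
        exact hv2 _ (mem_union_left _ (mem_image_of_mem f hl))
      · have hli : l ≠ i := (mem_erase.mp (hcl' j (mem_erase.mpr ⟨hji, hj⟩) hl)).1
        rw [Function.update_of_ne hji, Function.update_of_ne hli]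
        exact hf3 j (mem_erase.mpr ⟨hji, hj⟩) l hl
    · intro j hj x hx
      by_cases hji : j = i
      · subst hji
        rw [Function.update_self]
        exact hv2 _ (mem_union_right _ hx)
      · rw [Function.update_of_ne hji]
        exact hf4 j (mem_erase.mpr ⟨hji, hj⟩) x hx

theorem greedy {G : SimpleGraph V} {k : ℕ} (hG : Host G k) {ι : Type} [Fintype ι] [DecidableEq ι]
    (rk : ι → ℕ) (con : ι → Finset ι) (hcon : ∀ i, ∀ j ∈ con i, rk j < rk i)
    (cW : ι → Finset V) (hcard : ∀ i, (con i).card + (cW i).card ≤ 4)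
    (W : Finset V) (hW : W.card + Fintype.card ι ≤ k) :
    ∃ f : ι → V, Function.Injective f ∧ (∀ i, f i ∉ W) ∧
      (∀ i, ∀ j ∈ con i, G.Adj (f i) (f j)) ∧ (∀ i, ∀ x ∈ cW i, G.Adj (f i) x) := by
  by_cases he : IsEmpty ι
  · exact ⟨fun i => he.elim i, fun i => he.elim i, fun i => he.elim i, fun i => he.elim i,
      fun i => he.elim i⟩
  · rw [not_isEmpty_iff] at he
    have hpos : 0 < Fintype.card ι := Fintype.card_pos
    obtain ⟨v, _, _⟩ := hG ∅ ∅ (by simp) (by rw [card_empty]; omega)
    obtain ⟨f, h1, h2, h3, h4⟩ := greedy_aux hG rk con hcon cW hcard W hW (fun _ => v)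
      _ univ rfl (fun i _ => subset_univ _)
    exact ⟨f, fun a b hab => h1 (by simp) (by simp) hab, fun i => h2 i (mem_univ _),
      fun i => h3 i (mem_univ _), fun i => h4 i (mem_univ _)⟩

end TFA
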