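import Mathlib
import Pool.Agent.TFA.Defs
import Pool.Agent.TFA.DcU

/-!
TFA/Bk (difficulty 2). A coloured cycle in apex form: apex `r`, path `q 0, ..., q m`.
Proof: `bk m r q c = cy g c` for `g := Fin.cons r (fun t : Fin (m+1) => q t)` (that is `g 0 = r`,
`g (t+1) = q t`), then `dc_single`. The cyclic edges `s(g j, g (j+1))`: `j = 0` gives `s(r, q 0)`,
`j = t + 1` with `t < m` gives `s(q t, q (t+1))`, `j = m + 1` (last) gives `s(q m, r)`
(`Fin.last (m+1) + 1 = 0`). Prove the equality of finsets by `ext` and case distinction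
(`Fin.cases`, `Fin.lastCases`), or two inclusions. Injectivity of `g` from the hypotheses.
-/

set_option autoImplicit false

namespace TFA

open Finset

variable {V C : Type} [DecidableEq V] [DecidableEq C]

/-- coloured cycle with apex `r` and path `q 0, ..., q m` -/
def bk (m : ℕ) (r : V) (q : ℕ → V) (c : C) : Finset (Item V C) :=
  {Sum.inl s(r, q 0), Sum.inl s(r, q m), Sum.inr (r, c)} ∪
    (range m).image (fun t => (Sum.inl s(q t, q (t + 1)) : Item V C)) ∪
    (range (m + 1)).image (fun t => (Sum.inr (q t, c) : Item V C))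

/-- the cycle as a function on `Fin (m + 2)` -/
def bk_g (m : ℕ) (r : V) (q : ℕ → V) : Fin (m + 2) → V :=
  fun j => if j.val = 0 then r else q (j.val - 1)

lemma bk_eq (m : ℕ) (r : V) (q : ℕ → V) (c : C) : bk m r q c = cy (bk_g m r q) c := by
  have hval : ∀ j : Fin (m + 2), (j + 1).val = if j.val = m + 1 then 0 else j.val + 1 := by
    intro j
    rw [Fin.val_add_one]
    by_cases h : j = Fin.last (m + 1)
    · have h1 : j.val = m + 1 := by rw [h]; rfl
      rw [if_pos h, if_pos h1]
    · have h1 : ¬ j.val = m + 1 := fun h1 => h (Fin.ext h1)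
      rw [if_neg h, if_neg h1]
  ext i
  rcases i with e | p
  · simp only [bk, cy, mem_union, mem_insert, mem_singleton, mem_image, mem_range, mem_univ,
      true_and, Sum.inl.injEq, reduceCtorEq, or_false, and_false, exists_false]
    constructor
    · rintro ((h | h) | ⟨t, ht, h⟩)
      · refine ⟨⟨0, by omega⟩, ?_⟩
        rw [h]
        simp [bk_g, hval]
      · refine ⟨⟨m + 1, by omega⟩, ?_⟩
        rw [h]
        simp [bk_g, hval, Sym2.eq_swap]
      · refine ⟨⟨t + 1, by omega⟩, ?_⟩
        rw [← h]
        have h2 : (⟨t + 1, by omega⟩ + 1 : Fin (m + 2)).val = t + 2 := by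
          rw [hval, if_neg (by simp only; omega)]
        have ha : bk_g m r q ⟨t + 1, by omega⟩ = q t := by simp [bk_g]
        have hb : bk_g m r q (⟨t + 1, by omega⟩ + 1) = q (t + 1) := by
          unfold bk_g
          rw [h2]
          simp
        rw [ha, hb]
    · rintro ⟨j, h⟩
      rw [← h]
      by_cases h0 : j.val = 0
      · left; left
        have h1 : ¬ ((0 : ℕ) = m + 1) := by omega
        simp [bk_g, hval, h0]
      · by_cases hl : j.val = m + 1
        · left; right
          simp [bk_g, hval, hl, Sym2.eq_swap]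
        · right
          refine ⟨j.val - 1, by omega, ?_⟩
          have h2 : j.val - 1 + 1 = j.val := by omega
          simp [bk_g, hval, h0, hl, h2]
  · simp only [bk, cy, mem_union, mem_insert, mem_singleton, mem_image, mem_range, mem_univ,
      true_and, Sum.inr.injEq, reduceCtorEq, false_or, and_false, exists_false, or_false]
    constructor
    · rintro (h | ⟨t, ht, h⟩)
      · refine ⟨⟨0, by omega⟩, ?_⟩
        rw [h]
        simp [bk_g]
      · refine ⟨⟨t + 1, by omega⟩, ?_⟩
        rw [← h]
        simp [bk_g]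
    · rintro ⟨j, h⟩
      rw [← h]
      by_cases h0 : j.val = 0
      · left
        simp [bk_g, h0]
      · right
        refine ⟨j.val - 1, by omega, ?_⟩
        simp [bk_g, h0]

theorem dc_bk {m : ℕ} (r : V) (q : ℕ → V) (c : C) (hq : ∀ i ≤ m, ∀ j ≤ m, q i = q j → i = j)
    (hr : ∀ t ≤ m, q t ≠ r) : Dc m (bk m r q c) := by
  rw [bk_eq]
  apply dc_single
  intro i j h
  simp only [bk_g] at h
  have hi := i.isLt
  have hj := j.isLt
  apply Fin.ext
  by_cases h0 : i.val = 0
  · by_cases h1 : j.val = 0
    · omega
    · rw [if_pos h0, if_neg h1] at h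
      exact absurd h.symm (hr _ (by omega))
  · by_cases h1 : j.val = 0
    · rw [if_neg h0, if_pos h1] at h
      exact absurd h (hr _ (by omega))
    · rw [if_neg h0, if_neg h1] at h
      have := hq _ (by omega) _ (by omega) h
      omega

end TFA
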