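import Mathlib
import Pool.Agent.TFA.Defs
import Pool.Agent.TFA.DcU
import Pool.Agent.TFA.Bk

/-!
TFA/PsgA. The switch gadget, pure part.
-/

set_option autoImplicit false

namespace TFA

open Finset

variable {V C : Type} [DecidableEq V] [DecidableEq C]

/-- the common part of the two states of the switch gadget -/
def pT (m : ℕ) (r s : V) (x : ℕ → V) (a : ℕ → C) : Finset (Item V C) :=
  (Icc 1 5).image (fun j => (Sum.inl s(r, x (j * m)) : Item V C)) ∪
    (Icc 1 5).image (fun j => (Sum.inl s(s, x (j * m)) : Item V C)) ∪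
    (range (6 * m)).image (fun t => (Sum.inl s(x t, x (t + 1)) : Item V C)) ∪
    (range 3).image (fun j => (Sum.inr (r, a j) : Item V C)) ∪
    (range 3).image (fun j => (Sum.inr (s, a j) : Item V C)) ∪
    (range 6).biUnion (fun i => (range (m + 1)).image
      (fun t => (Sum.inr (x (i * m + t), a (i % 3)) : Item V C)))

theorem psgA_mem_inl (m : ℕ) (r s : V) (x : ℕ → V) (a : ℕ → C) (e : Sym2 V) :
    (Sum.inl e : Item V C) ∈ pT m r s x a ↔
      (∃ j, 1 ≤ j ∧ j ≤ 5 ∧ e = s(r, x (j * m))) ∨ (∃ j, 1 ≤ j ∧ j ≤ 5 ∧ e = s(s, x (j * m))) ∨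
        ∃ t < 6 * m, e = s(x t, x (t + 1)) := by
  unfold pT
  simp only [mem_union, mem_image, mem_Icc, mem_range, mem_biUnion, Sum.inl.injEq, reduceCtorEq,
    and_false, exists_false, or_false]
  constructor
  · rintro ((⟨j, hj, h⟩ | ⟨j, hj, h⟩) | ⟨t, ht, h⟩)
    · exact Or.inl ⟨j, hj.1, hj.2, h.symm⟩
    · exact Or.inr (Or.inl ⟨j, hj.1, hj.2, h.symm⟩)
    · exact Or.inr (Or.inr ⟨t, ht, h.symm⟩)
  · rintro (⟨j, h1, h2, h⟩ | ⟨j, h1, h2, h⟩ | ⟨t, ht, h⟩)
    · exact Or.inl (Or.inl ⟨j, ⟨h1, h2⟩, h.symm⟩)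
    · exact Or.inl (Or.inr ⟨j, ⟨h1, h2⟩, h.symm⟩)
    · exact Or.inr ⟨t, ht, h.symm⟩

theorem psgA_mem_inr (m : ℕ) (r s : V) (x : ℕ → V) (a : ℕ → C) (p : V × C) :
    (Sum.inr p : Item V C) ∈ pT m r s x a ↔
      (∃ j < 3, p = (r, a j)) ∨ (∃ j < 3, p = (s, a j)) ∨
        ∃ i < 6, ∃ t ≤ m, p = (x (i * m + t), a (i % 3)) := by
  unfold pT
  simp only [mem_union, mem_image, mem_Icc, mem_range, mem_biUnion, Sum.inr.injEq, reduceCtorEq,
    and_false, exists_false, or_false, false_or]
  constructor
  · rintro ((⟨j, hj, h⟩ | ⟨j, hj, h⟩) | ⟨i, hi, t, ht, h⟩)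
    · exact Or.inl ⟨j, hj, h.symm⟩
    · exact Or.inr (Or.inl ⟨j, hj, h.symm⟩)
    · exact Or.inr (Or.inr ⟨i, hi, t, by omega, h.symm⟩)
  · rintro (⟨j, h1, h⟩ | ⟨j, h1, h⟩ | ⟨i, hi, t, ht, h⟩)
    · exact Or.inl (Or.inl ⟨j, h1, h.symm⟩)
    · exact Or.inl (Or.inr ⟨j, h1, h.symm⟩)
    · exact Or.inr ⟨i, hi, t, by omega, h.symm⟩

theorem psgA_bk_inl (m : ℕ) (r : V) (q : ℕ → V) (c : C) (e : Sym2 V) :
    (Sum.inl e : Item V C) ∈ bk m r q c ↔
      e = s(r, q 0) ∨ e = s(r, q m) ∨ ∃ t < m, e = s(q t, q (t + 1)) := by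
  unfold bk
  simp only [mem_union, mem_image, mem_range, Sum.inl.injEq, reduceCtorEq, mem_insert,
    mem_singleton, and_false, exists_false, or_false]
  constructor
  · rintro ((h | h) | ⟨t, ht, h⟩)
    · exact Or.inl h
    · exact Or.inr (Or.inl h)
    · exact Or.inr (Or.inr ⟨t, ht, h.symm⟩)
  · rintro (h | h | ⟨t, ht, h⟩)
    · exact Or.inl (Or.inl h)
    · exact Or.inl (Or.inr h)
    · exact Or.inr ⟨t, ht, h.symm⟩

theorem psgA_bk_inr (m : ℕ) (r : V) (q : ℕ → V) (c : C) (p : V × C) :
    (Sum.inr p : Item V C) ∈ bk m r q c ↔ p = (r, c) ∨ ∃ t ≤ m, p = (q t, c) := by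
  unfold bk
  simp only [mem_union, mem_image, mem_range, Sum.inr.injEq, reduceCtorEq, mem_insert,
    mem_singleton, and_false, exists_false, or_false, false_or]
  constructor
  · rintro (h | ⟨t, ht, h⟩)
    · exact Or.inl h
    · exact Or.inr ⟨t, by omega, h.symm⟩
  · rintro (h | ⟨t, ht, h⟩)
    · exact Or.inl h
    · exact Or.inr ⟨t, by omega, h.symm⟩

theorem pT_comm (m : ℕ) (r s : V) (x : ℕ → V) (a : ℕ → C) : pT m r s x a = pT m s r x a := by
  ext i
  rcases i with e | p
  · rw [psgA_mem_inl, psgA_mem_inl]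
    exact or_left_comm
  · rw [psgA_mem_inr, psgA_mem_inr]
    exact or_left_comm

theorem psgA_union {m : ℕ} (hm : 1 ≤ m) (r s : V) (x : ℕ → V) (a : ℕ → C) :
    sw C r s (x 0) (x (6 * m)) ∪ pT m r s x a = (range 6).biUnion
      (fun i => bk m (if i % 2 = 0 then r else s) (fun t => x (i * m + t)) (a (i % 3))) := by
  ext i
  rcases i with e | p
  · rw [mem_union, psgA_mem_inl, mem_biUnion]
    simp only [psgA_bk_inl, sw, mem_insert, mem_singleton, Sum.inl.injEq, mem_range]
    constructor
    · rintro ((h | h) | ⟨j, h1, h2, h⟩ | ⟨j, h1, h2, h⟩ | ⟨t, ht, h⟩)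
      · exact ⟨0, by omega, Or.inl (by simpa using h)⟩
      · refine ⟨5, by omega, Or.inr (Or.inl ?_)⟩
        rw [h, show 5 * m + m = 6 * m by ring]
        simp
      · rw [h]
        interval_cases j
        · exact ⟨0, by omega, Or.inr (Or.inl (by simp))⟩
        · exact ⟨2, by omega, Or.inl (by simp)⟩
        · exact ⟨2, by omega, Or.inr (Or.inl (by simp [show 2 * m + m = 3 * m by ring]))⟩
        · exact ⟨4, by omega, Or.inl (by simp)⟩
        · exact ⟨4, by omega, Or.inr (Or.inl (by simp [show 4 * m + m = 5 * m by ring]))⟩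
      · rw [h]
        interval_cases j
        · exact ⟨1, by omega, Or.inl (by simp)⟩
        · exact ⟨1, by omega, Or.inr (Or.inl (by simp [show m + m = 2 * m by ring]))⟩
        · exact ⟨3, by omega, Or.inl (by simp)⟩
        · exact ⟨3, by omega, Or.inr (Or.inl (by simp [show 3 * m + m = 4 * m by ring]))⟩
        · exact ⟨5, by omega, Or.inl (by simp)⟩
      · refine ⟨t / m, (Nat.div_lt_iff_lt_mul (by omega)).2 ht, Or.inr (Or.inr ⟨t % m,
          Nat.mod_lt _ (by omega), ?_⟩)⟩
        have h1 : t / m * m + t % m = t := by rw [mul_comm]; exact Nat.div_add_mod t m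
        rw [h, ← add_assoc, h1]
    · rintro ⟨i, hi, h | h | ⟨t, ht, h⟩⟩
      · interval_cases i
        · left; left; simpa using h
        · right; right; left; exact ⟨1, by omega, by omega, by simpa using h⟩
        · right; left; exact ⟨2, by omega, by omega, by simpa using h⟩
        · right; right; left; exact ⟨3, by omega, by omega, by simpa using h⟩
        · right; left; exact ⟨4, by omega, by omega, by simpa using h⟩
        · right; right; left; exact ⟨5, by omega, by omega, by simpa using h⟩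
      · interval_cases i
        · right; left; exact ⟨1, by omega, by omega, by simpa using h⟩
        · right; right; left
          refine ⟨2, by omega, by omega, ?_⟩
          rw [h]; simp [show m + m = 2 * m by ring]
        · right; left
          refine ⟨3, by omega, by omega, ?_⟩
          rw [h]; simp [show 2 * m + m = 3 * m by ring]
        · right; right; left
          refine ⟨4, by omega, by omega, ?_⟩
          rw [h]; simp [show 3 * m + m = 4 * m by ring]
        · right; left
          refine ⟨5, by omega, by omega, ?_⟩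
          rw [h]; simp [show 4 * m + m = 5 * m by ring]
        · left; right
          rw [h]; simp [show 5 * m + m = 6 * m by ring]
      · right; right; right
        refine ⟨i * m + t, ?_, ?_⟩
        · have h1 : (i + 1) * m ≤ 6 * m := Nat.mul_le_mul_right m (by omega)
          have h2 : (i + 1) * m = i * m + m := by ring
          omega
        · rw [h, add_assoc]
  · rw [mem_union, psgA_mem_inr, mem_biUnion]
    simp only [psgA_bk_inr, sw, mem_insert, mem_singleton, reduceCtorEq, or_false, mem_range,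
      false_or]
    constructor
    · rintro (⟨j, hj, h⟩ | ⟨j, hj, h⟩ | ⟨i, hi, t, ht, h⟩)
      · rw [h]
        interval_cases j
        · exact ⟨0, by omega, Or.inl (by simp)⟩
        · exact ⟨4, by omega, Or.inl (by simp)⟩
        · exact ⟨2, by omega, Or.inl (by simp)⟩
      · rw [h]
        interval_cases j
        · exact ⟨3, by omega, Or.inl (by simp)⟩
        · exact ⟨1, by omega, Or.inl (by simp)⟩
        · exact ⟨5, by omega, Or.inl (by simp)⟩
      · exact ⟨i, hi, Or.inr ⟨t, ht, h⟩⟩
    · rintro ⟨i, hi, h | ⟨t, ht, h⟩⟩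
      · have h3 : i % 3 < 3 := Nat.mod_lt _ (by omega)
        by_cases h2 : i % 2 = 0
        · rw [if_pos h2] at h
          exact Or.inl ⟨i % 3, h3, h⟩
        · rw [if_neg h2] at h
          exact Or.inr (Or.inl ⟨i % 3, h3, h⟩)
      · exact Or.inr (Or.inr ⟨i, hi, t, ht, h⟩)

theorem psgA {m : ℕ} (hm : 1 ≤ m) (r s : V) (x : ℕ → V) (a : ℕ → C)
    (hx : ∀ i ≤ 6 * m, ∀ j ≤ 6 * m, x i = x j → i = j) (hxr : ∀ i ≤ 6 * m, x i ≠ r)
    (hxs : ∀ i ≤ 6 * m, x i ≠ s) (hrs : r ≠ s) (ha : ∀ i < 3, ∀ j < 3, a i = a j → i = j) :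
    Dc m (sw C r s (x 0) (x (6 * m)) ∪ pT m r s x a) := by
  rw [psgA_union hm]
  have hb : ∀ i < 6, ∀ t ≤ m, i * m + t ≤ 6 * m := by
    intro i hi t ht
    have h1 : (i + 1) * m ≤ 6 * m := Nat.mul_le_mul_right m (by omega)
    have h2 : (i + 1) * m = i * m + m := by ring
    omega
  have hap : ∀ i : ℕ, ∀ t ≤ 6 * m, x t ≠ (if i % 2 = 0 then r else s) := by
    intro i t ht
    split_ifs
    · exact hxr t ht
    · exact hxs t ht
  have hapij : ∀ i j : ℕ, (if i % 2 = 0 then r else s) = (if j % 2 = 0 then r else s) →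
      i % 2 = j % 2 := by
    intro i j h
    split_ifs at h with h1 h2 h2
    · omega
    · exact absurd h hrs
    · exact absurd h.symm hrs
    · omega
  apply dc_biUnion
  · intro i hi
    rw [mem_range] at hi
    apply dc_bk
    · intro u hu v hv huv
      have := hx _ (hb i hi u hu) _ (hb i hi v hv) huv
      omega
    · intro t ht
      exact hap i _ (hb i hi t ht)
  · intro i hi j hj hij
    rw [mem_range] at hi hj
    rw [Finset.disjoint_left]
    rintro (e | p) h1 h2
    · rw [psgA_bk_inl] at h1 h2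
      -- apex edges
      have key : ∀ u v, (u = 0 ∨ u = m) → (v = 0 ∨ v = m) →
          e = s((if i % 2 = 0 then r else s), x (i * m + u)) →
          e = s((if j % 2 = 0 then r else s), x (j * m + v)) → False := by
        intro u v hu hv he1 he2
        have hu' : u ≤ m := by omega
        have hv' : v ≤ m := by omega
        rw [he1, Sym2.eq_iff] at he2
        rcases he2 with ⟨h3, h4⟩ | ⟨h3, h4⟩
        · have h5 := hx _ (hb i hi u hu') _ (hb j hj v hv') h4
          have h6 := hapij i j h3
          obtain ⟨d, hd, hdu⟩ : ∃ d, d ≤ 1 ∧ u = d * m := by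
            rcases hu with h | h
            · exact ⟨0, by omega, by omega⟩
            · exact ⟨1, by omega, by omega⟩
          obtain ⟨d', hd', hdv⟩ : ∃ d, d ≤ 1 ∧ v = d * m := by
            rcases hv with h | h
            · exact ⟨0, by omega, by omega⟩
            · exact ⟨1, by omega, by omega⟩
          have h7 : (i + d) * m = (j + d') * m := by
            rw [add_mul, add_mul, ← hdu, ← hdv]
            exact h5
          have h8 := Nat.eq_of_mul_eq_mul_right (by omega) h7
          omega
        · exact hap j _ (hb i hi u hu') h4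
      have key2 : ∀ (k l : ℕ) u v t, v ≤ 6 * m → t + 1 ≤ 6 * m → u ≤ 6 * m →
          (s((if k % 2 = 0 then r else s), x u) = s(x t, x (t + 1))) → False := by
        intro k l u v t hv ht hu he
        rw [Sym2.eq_iff] at he
        rcases he with ⟨h3, h4⟩ | ⟨h3, h4⟩
        · exact hap k t (by omega) h3.symm
        · exact hap k (t + 1) (by omega) h3.symm
      rcases h1 with h1 | h1 | ⟨t, ht, h1⟩
      · rcases h2 with h2 | h2 | ⟨t', ht', h2⟩
        · exact key 0 0 (Or.inl rfl) (Or.inl rfl) h1 h2
        · exact key 0 m (Or.inl rfl) (Or.inr rfl) h1 h2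
        · have := hb j hj (t' + 1) (by omega)
          exact key2 i 0 (i * m + 0) 0 (j * m + t') (by omega) (by omega) (hb i hi 0 (by omega))
            (by rw [← h1, h2]; rfl)
      · rcases h2 with h2 | h2 | ⟨t', ht', h2⟩
        · exact key m 0 (Or.inr rfl) (Or.inl rfl) h1 h2
        · exact key m m (Or.inr rfl) (Or.inr rfl) h1 h2
        · have := hb j hj (t' + 1) (by omega)
          exact key2 i 0 (i * m + m) 0 (j * m + t') (by omega) (by omega) (hb i hi m (by omega))
            (by rw [← h1, h2]; rfl)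
      · have ht1 := hb i hi (t + 1) (by omega)
        rcases h2 with h2 | h2 | ⟨t', ht', h2⟩
        · exact key2 j 0 (j * m + 0) 0 (i * m + t) (by omega) (by omega) (hb j hj 0 (by omega))
            (by rw [← h2, h1]; rfl)
        · exact key2 j 0 (j * m + m) 0 (i * m + t) (by omega) (by omega) (hb j hj m (by omega))
            (by rw [← h2, h1]; rfl)
        · have ht2 := hb j hj (t' + 1) (by omega)
          rw [h1, Sym2.eq_iff] at h2
          have h5 : i * m + t = j * m + t' := by
            rcases h2 with ⟨h3, h4⟩ | ⟨h3, h4⟩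
            · exact hx _ (by omega) _ (by omega) h3
            · have h6 := hx _ (by omega) _ (by omega) h3
              have h7 := hx _ (by omega) _ (by omega) h4
              omega
          have h6 : (i * m + t) / m = i := by
            rw [mul_comm, Nat.mul_add_div (by omega), Nat.div_eq_of_lt ht]; omega
          have h7 : (j * m + t') / m = j := by
            rw [mul_comm, Nat.mul_add_div (by omega), Nat.div_eq_of_lt ht']; omega
          rw [h5, h7] at h6
          exact hij h6.symm
    · rw [psgA_bk_inr] at h1 h2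
      rcases h1 with h1 | ⟨t, ht, h1⟩
      · rcases h2 with h2 | ⟨t', ht', h2⟩
        · rw [h1, Prod.mk.injEq] at h2
          have h3 := hapij i j h2.1
          have h4 := ha _ (Nat.mod_lt _ (by omega)) _ (Nat.mod_lt _ (by omega)) h2.2
          omega
        · rw [h1, Prod.mk.injEq] at h2
          exact hap i _ (hb j hj t' ht') h2.1.symm
      · rcases h2 with h2 | ⟨t', ht', h2⟩
        · rw [h1, Prod.mk.injEq] at h2
          exact hap j _ (hb i hi t ht) h2.1
        · rw [h1, Prod.mk.injEq] at h2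
          have h3 := hx _ (hb i hi t ht) _ (hb j hj t' ht') h2.1
          have h4 := ha _ (Nat.mod_lt _ (by omega)) _ (Nat.mod_lt _ (by omega)) h2.2
          have h5 : i = j + 3 ∨ j = i + 3 := by omega
          rcases h5 with rfl | rfl
          · rw [add_mul] at h3; omega
          · rw [add_mul] at h3; omega

end TFA
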