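import Mathlib
import Pool.Agent.TFA.Defs
import Pool.Agent.TFA.PsgA
import Pool.Agent.TFA.Grd

/-!
TFA/Psg (difficulty 3). Existence of the switch gadget in the host.
Proof. Colours: three applications of `hC` give distinct `c0, c1, c2 ∉ Γ` (exclude `Γ`,
`insert c0 Γ`, `insert c1 (insert c0 Γ)`; cards `< Γ.card + 3 ≤ kc`). Put `a 0 = c0, a 1 = c1,
a j = c2` otherwise, `Γ' = Γ ∪ {c0, c1, c2}`.
Vertices: `greedy` with `ι = Fin (6*m - 1)` (`i` stands for the path vertex `x (i+1)`),
`rk i = i`, `con i = {i - 1}` if `i ≥ 1` else `∅`; `cW i` = (`{y}` if `i = 0`) ∪ (`{z}` if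
`i + 1 = 6*m - 1`) ∪ (`{r, s}` if `m ∣ i + 1`). Cards: `con i` at most 1; if `i = 0` it is 0 and
`cW i ⊆ {y, z, r, s}` has at most 4; if `i ≥ 1` then `cW i ⊆ {z, r, s}` has at most 3. (`6*m-1 ≥ 5`,
so `i = 0` is never the last one, but this is not needed.)
Get `f`. Define `x 0 = y`, `x (6m) = z`, `x t = f ⟨t-1, _⟩` for `1 ≤ t ≤ 6m-1` (`x t` arbitrary, say
`y`, above `6m`): as a function `ℕ → V`: `fun t => if h : 1 ≤ t ∧ t ≤ 6*m-1 then f ⟨t-1, _⟩ else
if t = 0 then y else z`. Injective below `6m` (`f` injective, values not in `W`; `y ≠ z`), and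
`≠ r, s`. `G.Adj (x t) (x (t+1))` for `t < 6m`; `G.Adj r (x (j m))`, `G.Adj s (x (j m))` for
`1 ≤ j ≤ 5` (`m ∣ j m`, `1 ≤ j m ≤ 5 m ≤ 6 m - 1`).
`T := pT m r s x a`, `W' := W ∪ univ.image f`: `card ≤ W.card + (6m - 1)`.
`Step`: `hin` clear (`x t ∈ W'` for all `t ≤ 6m`, colours in `Γ'`). `hnew`: every edge of `pT` has an
endpoint `x t` with `1 ≤ t ≤ 6m - 1`, which is not in `W` (path edge `t`: endpoints `t, t+1`, one of
them is in this range as `6m ≥ 6`); every pair of `pT` has a colour not in `Γ`. `hG` from the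
adjacencies. `T.card ≤ 5 + 5 + 6m + 3 + 3 + 6 (m+1)` (`card_union_le`, `card_image_le`,
`card_biUnion_le`). The two `Dc` statements: `psgA` for `(r, s)` and `psgA` for `(s, r)` with `pT_comm`
(`sw C s r (x 0) (x (6m))`).
-/

set_option autoImplicit false

namespace TFA

open Finset

variable {V C : Type} [DecidableEq V] [DecidableEq C]

theorem psg_mem (m : ℕ) (r s : V) (x : ℕ → V) (a : ℕ → C) (i : Item V C) (h : i ∈ pT m r s x a) :
    (∃ j, 1 ≤ j ∧ j ≤ 5 ∧ i = Sum.inl s(r, x (j * m))) ∨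
    (∃ j, 1 ≤ j ∧ j ≤ 5 ∧ i = Sum.inl s(s, x (j * m))) ∨
    (∃ t, t < 6 * m ∧ i = Sum.inl s(x t, x (t + 1))) ∨
    (∃ j, j < 3 ∧ i = Sum.inr (r, a j)) ∨
    (∃ j, j < 3 ∧ i = Sum.inr (s, a j)) ∨
    (∃ j t, j < 6 ∧ t ≤ m ∧ i = Sum.inr (x (j * m + t), a (j % 3))) := by
  unfold pT at h
  simp only [mem_union, mem_image, mem_Icc, mem_range, mem_biUnion] at h
  rcases h with ((((h | h) | h) | h) | h) | h
  · obtain ⟨j, ⟨h1, h2⟩, h3⟩ := h
    exact Or.inl ⟨j, h1, h2, h3.symm⟩
  · obtain ⟨j, ⟨h1, h2⟩, h3⟩ := h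
    exact Or.inr (Or.inl ⟨j, h1, h2, h3.symm⟩)
  · obtain ⟨t, h1, h3⟩ := h
    exact Or.inr (Or.inr (Or.inl ⟨t, h1, h3.symm⟩))
  · obtain ⟨j, h1, h3⟩ := h
    exact Or.inr (Or.inr (Or.inr (Or.inl ⟨j, h1, h3.symm⟩)))
  · obtain ⟨j, h1, h3⟩ := h
    exact Or.inr (Or.inr (Or.inr (Or.inr (Or.inl ⟨j, h1, h3.symm⟩))))
  · obtain ⟨j, h1, t, h2, h3⟩ := h
    exact Or.inr (Or.inr (Or.inr (Or.inr (Or.inr ⟨j, t, h1, by omega, h3.symm⟩))))

theorem psg_card (m : ℕ) (r s : V) (x : ℕ → V) (a : ℕ → C) : (pT m r s x a).card ≤ 22 + 12 * m := by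
  unfold pT
  refine (card_union_le _ _).trans ?_
  have h6 : ((range 6).biUnion (fun i => (range (m + 1)).image
      (fun t => (Sum.inr (x (i * m + t), a (i % 3)) : Item V C)))).card ≤ 6 * (m + 1) := by
    refine card_biUnion_le.trans ?_
    have : ∑ i ∈ range 6, ((range (m + 1)).image
        (fun t => (Sum.inr (x (i * m + t), a (i % 3)) : Item V C))).card ≤
        ∑ _i ∈ range 6, (m + 1) :=
      sum_le_sum fun i _ => card_image_le.trans (by rw [card_range])
    refine this.trans ?_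
    rw [sum_const, card_range, smul_eq_mul]
  have h1 : ((Icc 1 5).image (fun j => (Sum.inl s(r, x (j * m)) : Item V C))).card ≤ 5 :=
    card_image_le.trans (by simp)
  have h2 : ((Icc 1 5).image (fun j => (Sum.inl s(s, x (j * m)) : Item V C))).card ≤ 5 :=
    card_image_le.trans (by simp)
  have h3 : ((range (6 * m)).image (fun t => (Sum.inl s(x t, x (t + 1)) : Item V C))).card ≤ 6 * m :=
    card_image_le.trans (by simp)
  have h4 : ((range 3).image (fun j => (Sum.inr (r, a j) : Item V C))).card ≤ 3 :=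
    card_image_le.trans (by simp)
  have h5 : ((range 3).image (fun j => (Sum.inr (s, a j) : Item V C))).card ≤ 3 :=
    card_image_le.trans (by simp)
  have k1 := card_union_le ((Icc 1 5).image (fun j => (Sum.inl s(r, x (j * m)) : Item V C)))
    ((Icc 1 5).image (fun j => (Sum.inl s(s, x (j * m)) : Item V C)))
  have k2 := card_union_le (((Icc 1 5).image (fun j => (Sum.inl s(r, x (j * m)) : Item V C))) ∪
    ((Icc 1 5).image (fun j => (Sum.inl s(s, x (j * m)) : Item V C))))
    ((range (6 * m)).image (fun t => (Sum.inl s(x t, x (t + 1)) : Item V C)))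
  have k3 := card_union_le (((Icc 1 5).image (fun j => (Sum.inl s(r, x (j * m)) : Item V C))) ∪
    ((Icc 1 5).image (fun j => (Sum.inl s(s, x (j * m)) : Item V C))) ∪
    ((range (6 * m)).image (fun t => (Sum.inl s(x t, x (t + 1)) : Item V C))))
    ((range 3).image (fun j => (Sum.inr (r, a j) : Item V C)))
  have k4 := card_union_le (((Icc 1 5).image (fun j => (Sum.inl s(r, x (j * m)) : Item V C))) ∪
    ((Icc 1 5).image (fun j => (Sum.inl s(s, x (j * m)) : Item V C))) ∪
    ((range (6 * m)).image (fun t => (Sum.inl s(x t, x (t + 1)) : Item V C))) ∪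
    ((range 3).image (fun j => (Sum.inr (r, a j) : Item V C))))
    ((range 3).image (fun j => (Sum.inr (s, a j) : Item V C)))
  omega

theorem psg {G : SimpleGraph V} {k kc m : ℕ} (hG : Host G k) (hC : HostC C kc) (hm : 1 ≤ m)
    (W : Finset V) (Γ : Finset C) (hW : W.card + 6 * m ≤ k) (hΓ : Γ.card + 3 ≤ kc)
    (r s y z : V) (hr : r ∈ W) (hs : s ∈ W) (hy : y ∈ W) (hz : z ∈ W)
    (hrs : r ≠ s) (hry : r ≠ y) (hrz : r ≠ z) (hsy : s ≠ y) (hsz : s ≠ z) (hyz : y ≠ z) :
    ∃ (W' : Finset V) (Γ' : Finset C) (T : Finset (Item V C)), Step G W Γ W' Γ' T ∧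
      W'.card ≤ W.card + 6 * m ∧ Γ'.card ≤ Γ.card + 3 ∧ T.card ≤ 22 + 12 * m ∧
      Dc m (sw C r s y z ∪ T) ∧ Dc m (sw C s r y z ∪ T) := by
  obtain ⟨c0, hc0⟩ := hC Γ (by omega)
  have hg1 := card_insert_le c0 Γ
  obtain ⟨c1, hc1⟩ := hC (insert c0 Γ) (by omega)
  have hg2 := card_insert_le c1 (insert c0 Γ)
  obtain ⟨c2, hc2⟩ := hC (insert c1 (insert c0 Γ)) (by omega)
  have hg3 := card_insert_le c2 (insert c1 (insert c0 Γ))
  simp only [mem_insert, not_or] at hc1 hc2
  let a : ℕ → C := fun j => if j = 0 then c0 else if j = 1 then c1 else c2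
  have a0 : a 0 = c0 := if_pos rfl
  have a1 : a 1 = c1 := by
    show (if 1 = 0 then c0 else if 1 = 1 then c1 else c2) = c1
    rw [if_neg (by norm_num), if_pos rfl]
  have a2 : a 2 = c2 := by
    show (if 2 = 0 then c0 else if 2 = 1 then c1 else c2) = c2
    rw [if_neg (by norm_num), if_neg (by norm_num)]
  have haΓ : ∀ j < 3, a j ∉ Γ ∧ a j ∈ insert c2 (insert c1 (insert c0 Γ)) := by
    intro j hj
    interval_cases j
    · rw [a0]; exact ⟨hc0, by simp⟩
    · rw [a1]; exact ⟨hc1.2, by simp⟩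
    · rw [a2]; exact ⟨hc2.2.2, by simp⟩
  have hainj : ∀ i < 3, ∀ j < 3, a i = a j → i = j := by
    intro i hi j hj
    interval_cases i <;> interval_cases j <;> intro h <;> (try rfl) <;>
      simp only [a0, a1, a2] at h
    · exact absurd h.symm hc1.1
    · exact absurd h.symm hc2.2.1
    · exact absurd h hc1.1
    · exact absurd h.symm hc2.1
    · exact absurd h hc2.2.1
    · exact absurd h hc2.1
  -- the path
  let cW : Fin (6 * m - 1) → Finset V := fun i =>
    (if i.val = 0 then {y} else ∅) ∪ (if i.val + 2 = 6 * m then {z} else ∅) ∪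
      (if m ∣ i.val + 1 then {r, s} else ∅)
  obtain ⟨f, hfinj, hfW, hfcon, hfcW⟩ := greedy (G := G) (k := k) hG (ι := Fin (6 * m - 1))
    (fun i => i.val) (fun i => univ.filter (fun j => j.val + 1 = i.val))
    (fun i j hj => by
      have := (mem_filter.mp hj).2
      show j.val < i.val
      omega) cW
    (fun i => by
      show (univ.filter (fun j : Fin (6 * m - 1) => j.val + 1 = i.val)).card +
        ((if i.val = 0 then {y} else ∅) ∪ (if i.val + 2 = 6 * m then {z} else ∅) ∪
          (if m ∣ i.val + 1 then ({r, s} : Finset V) else ∅)).card ≤ 4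
      have h1 : (univ.filter (fun j : Fin (6 * m - 1) => j.val + 1 = i.val)).card ≤ 1 := by
        rw [card_le_one]
        intro b hb b' hb'
        have e1 := (mem_filter.mp hb).2
        have e2 := (mem_filter.mp hb').2
        exact Fin.ext (by omega)
      have h2 := card_union_le ((if i.val = 0 then {y} else ∅) ∪
        (if i.val + 2 = 6 * m then {z} else ∅)) (if m ∣ i.val + 1 then ({r, s} : Finset V) else ∅)
      have h3 := card_union_le (if i.val = 0 then ({y} : Finset V) else ∅)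
        (if i.val + 2 = 6 * m then {z} else ∅)
      have h4 : (if i.val + 2 = 6 * m then ({z} : Finset V) else ∅).card ≤ 1 := by
        split_ifs <;> simp
      have h5 : (if m ∣ i.val + 1 then ({r, s} : Finset V) else ∅).card ≤ 2 := by
        split_ifs
        · exact card_le_two
        · simp
      by_cases hi : i.val = 0
      · have h6 : (univ.filter (fun j : Fin (6 * m - 1) => j.val + 1 = i.val)).card = 0 := by
          rw [card_eq_zero, filter_eq_empty_iff]
          intro b _ hb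
          omega
        have h7 : (if i.val = 0 then ({y} : Finset V) else ∅).card ≤ 1 := by
          split_ifs <;> simp
        omega
      · have h7 : (if i.val = 0 then ({y} : Finset V) else ∅).card = 0 := by
          rw [if_neg hi]; simp
        omega) W (by rw [Fintype.card_fin]; omega)
  let x : ℕ → V := fun t => if h : 1 ≤ t ∧ t ≤ 6 * m - 1 then f ⟨t - 1, by omega⟩ else
    if t = 0 then y else z
  have x0 : x 0 = y := by
    show (if h : 1 ≤ 0 ∧ 0 ≤ 6 * m - 1 then f ⟨0 - 1, by omega⟩ else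
      if 0 = 0 then y else z) = y
    rw [dif_neg (by omega), if_pos rfl]
  have x6 : x (6 * m) = z := by
    show (if h : 1 ≤ 6 * m ∧ 6 * m ≤ 6 * m - 1 then f ⟨6 * m - 1, by omega⟩ else
      if 6 * m = 0 then y else z) = z
    rw [dif_neg (by omega), if_neg (by omega)]
  have xm : ∀ t (h : 1 ≤ t ∧ t ≤ 6 * m - 1), x t = f ⟨t - 1, by omega⟩ := fun t h => dif_pos h
  have xW : ∀ t, 1 ≤ t → t ≤ 6 * m - 1 → x t ∉ W := fun t h h' => by
    rw [xm t ⟨h, h'⟩]; exact hfW _
  have xin : ∀ t, t ≤ 6 * m → x t ∈ W ∪ univ.image f := by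
    intro t ht
    by_cases h0 : t = 0
    · rw [h0, x0]; exact mem_union_left _ hy
    · by_cases h1 : t = 6 * m
      · rw [h1, x6]; exact mem_union_left _ hz
      · rw [xm t ⟨by omega, by omega⟩]
        exact mem_union_right _ (mem_image_of_mem _ (mem_univ _))
  have hx : ∀ i ≤ 6 * m, ∀ j ≤ 6 * m, x i = x j → i = j := by
    intro i hi j hj hij
    by_cases hi0 : i = 0
    · by_cases hj0 : j = 0
      · omega
      · by_cases hj1 : j = 6 * m
        · rw [hi0, hj1, x0, x6] at hij; exact absurd hij hyz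
        · rw [hi0, x0] at hij
          exact absurd (hij ▸ hy) (xW j (by omega) (by omega))
    · by_cases hi1 : i = 6 * m
      · by_cases hj0 : j = 0
        · rw [hi1, hj0, x0, x6] at hij; exact absurd hij.symm hyz
        · by_cases hj1 : j = 6 * m
          · omega
          · rw [hi1, x6] at hij
            exact absurd (hij ▸ hz) (xW j (by omega) (by omega))
      · by_cases hj0 : j = 0
        · rw [hj0, x0] at hij
          exact absurd (hij.symm ▸ hy) (xW i (by omega) (by omega))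
        · by_cases hj1 : j = 6 * m
          · rw [hj1, x6] at hij
            exact absurd (hij.symm ▸ hz) (xW i (by omega) (by omega))
          · rw [xm i ⟨by omega, by omega⟩, xm j ⟨by omega, by omega⟩] at hij
            have := hfinj hij
            rw [Fin.mk.injEq] at this
            omega
  have hxw : ∀ w ∈ W, w ≠ y → w ≠ z → ∀ i ≤ 6 * m, x i ≠ w := by
    intro w hw hwy hwz i hi hiw
    by_cases hi0 : i = 0
    · rw [hi0, x0] at hiw; exact hwy hiw.symm
    · by_cases hi1 : i = 6 * m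
      · rw [hi1, x6] at hiw; exact hwz hiw.symm
      · exact xW i (by omega) (by omega) (hiw.symm ▸ hw)
  have hxr := hxw r hr hry hrz
  have hxs := hxw s hs hsy hsz
  have hadj : ∀ t < 6 * m, G.Adj (x t) (x (t + 1)) := by
    intro t ht
    by_cases h0 : t = 0
    · rw [h0, x0, xm (0 + 1) ⟨by omega, by omega⟩]
      refine (hfcW _ _ ?_).symm
      refine mem_union_left _ (mem_union_left _ ?_)
      rw [if_pos (by simp)]
      exact mem_singleton_self y
    · by_cases h1 : t + 1 = 6 * m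
      · rw [h1, x6, xm t ⟨by omega, by omega⟩]
        refine hfcW _ _ ?_
        refine mem_union_left _ (mem_union_right _ ?_)
        rw [if_pos (by show t - 1 + 2 = 6 * m; omega)]
        exact mem_singleton_self z
      · rw [xm t ⟨by omega, by omega⟩, xm (t + 1) ⟨by omega, by omega⟩]
        refine (hfcon _ _ ?_).symm
        rw [mem_filter]
        exact ⟨mem_univ _, by show t - 1 + 1 = t + 1 - 1; omega⟩
  have hanc : ∀ j, 1 ≤ j → j ≤ 5 → 1 ≤ j * m ∧ j * m ≤ 6 * m - 1 ∧ G.Adj r (x (j * m)) ∧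
      G.Adj s (x (j * m)) := by
    intro j h1 h5
    have e1 : 1 * m ≤ j * m := Nat.mul_le_mul_right m h1
    have e2 : j * m ≤ 5 * m := Nat.mul_le_mul_right m h5
    have e3 : 1 ≤ j * m := by omega
    have e4 : j * m ≤ 6 * m - 1 := by omega
    refine ⟨e3, e4, ?_, ?_⟩
    · rw [xm (j * m) ⟨e3, e4⟩]
      refine (hfcW _ _ ?_).symm
      refine mem_union_right _ ?_
      rw [if_pos (by
        show m ∣ j * m - 1 + 1
        rw [Nat.sub_add_cancel e3]
        exact Dvd.intro_left j rfl)]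
      simp
    · rw [xm (j * m) ⟨e3, e4⟩]
      refine (hfcW _ _ ?_).symm
      refine mem_union_right _ ?_
      rw [if_pos (by
        show m ∣ j * m - 1 + 1
        rw [Nat.sub_add_cancel e3]
        exact Dvd.intro_left j rfl)]
      simp
  refine ⟨W ∪ univ.image f, insert c2 (insert c1 (insert c0 Γ)), pT m r s x a, ?_, ?_, by omega,
    psg_card m r s x a, ?_, ?_⟩
  · refine ⟨subset_union_left, ?_, ?_, ?_, ?_⟩
    · intro c hc
      simp [hc]
    · intro i hi
      rcases psg_mem m r s x a i hi with ⟨j, h1, h2, rfl⟩ | ⟨j, h1, h2, rfl⟩ | ⟨t, ht, rfl⟩ |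
        ⟨j, hj, rfl⟩ | ⟨j, hj, rfl⟩ | ⟨j, t, hj, ht, rfl⟩
      · intro v hv
        rcases Sym2.mem_iff.mp hv with rfl | rfl
        · exact mem_union_left _ hr
        · exact xin _ (by have := (hanc j h1 h2).2.1; omega)
      · intro v hv
        rcases Sym2.mem_iff.mp hv with rfl | rfl
        · exact mem_union_left _ hs
        · exact xin _ (by have := (hanc j h1 h2).2.1; omega)
      · intro v hv
        rcases Sym2.mem_iff.mp hv with rfl | rfl
        · exact xin _ (by omega)
        · exact xin _ (by omega)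
      · exact ⟨mem_union_left _ hr, (haΓ j hj).2⟩
      · exact ⟨mem_union_left _ hs, (haΓ j hj).2⟩
      · refine ⟨xin _ ?_, (haΓ (j % 3) (by omega)).2⟩
        have : j * m ≤ 5 * m := Nat.mul_le_mul_right m (by omega)
        omega
    · intro i hi
      rcases psg_mem m r s x a i hi with ⟨j, h1, h2, rfl⟩ | ⟨j, h1, h2, rfl⟩ | ⟨t, ht, rfl⟩ |
        ⟨j, hj, rfl⟩ | ⟨j, hj, rfl⟩ | ⟨j, t, hj, ht, rfl⟩
      · intro h
        exact xW _ (hanc j h1 h2).1 (hanc j h1 h2).2.1 (h _ (Sym2.mem_mk_right _ _))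
      · intro h
        exact xW _ (hanc j h1 h2).1 (hanc j h1 h2).2.1 (h _ (Sym2.mem_mk_right _ _))
      · intro h
        by_cases ht0 : t = 0
        · exact xW (t + 1) (by omega) (by omega) (h _ (Sym2.mem_mk_right _ _))
        · exact xW t (by omega) (by omega) (h _ (Sym2.mem_mk_left _ _))
      · intro h
        exact (haΓ j hj).1 h.2
      · intro h
        exact (haΓ j hj).1 h.2
      · intro h
        exact (haΓ (j % 3) (by omega)).1 h.2
    · intro e he
      rcases psg_mem m r s x a _ he with ⟨j, h1, h2, h3⟩ | ⟨j, h1, h2, h3⟩ | ⟨t, ht, h3⟩ |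
        ⟨j, hj, h3⟩ | ⟨j, hj, h3⟩ | ⟨j, t, hj, ht, h3⟩
      · rw [Sum.inl.inj h3]; exact (hanc j h1 h2).2.2.1
      · rw [Sum.inl.inj h3]; exact (hanc j h1 h2).2.2.2
      · rw [Sum.inl.inj h3]; exact hadj t ht
      · exact absurd h3 Sum.inl_ne_inr
      · exact absurd h3 Sum.inl_ne_inr
      · exact absurd h3 Sum.inl_ne_inr
  · refine (card_union_le _ _).trans ?_
    have : (univ.image f).card ≤ 6 * m - 1 := card_image_le.trans (by rw [card_univ, Fintype.card_fin])
    omega
  · have := psgA hm r s x a hx hxr hxs hrs hainj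
    rw [x0, x6] at this
    exact this
  · have := psgA hm s r x a hx hxs hxr hrs.symm hainj
    rw [x0, x6, ← pT_comm] at this
    exact this

end TFA
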