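import Mathlib
import Pool.Agent.TFA.Defs
import Pool.Agent.TFA.DcU
import Pool.Agent.TFA.Psg

/-!
TFA/Fam (difficulty 3). Many switches simultaneously.
Proof: `Finset.induction_on I` (all other data generalised appropriately; `W`, `Γ` fixed). `I = ∅`:
`W' = W`, `Γ' = Γ`, `T = ∅`, `Dc.nil`. Step `insert i I`, `i ∉ I`: the induction hypothesis for `I`
gives `W1, Γ1, T1`; apply `psg` with `(W1, Γ1)` to `(r i, s i, y i, z i)` (in `W ⊆ W1`; cards:
`W1.card + 6m ≤ W.card + 6 m (I.card + 1) ≤ k`): `W', Γ', T2`. Put `T = T1 ∪ T2`. `Step G W Γ W' Γ' T`: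
items of `T1` are `In W1 Γ1`, hence `In W' Γ'` (monotone), not `In W Γ`; items of `T2` are not
`In W1 Γ1`, hence not `In W Γ`. Decomposition:
`(insert i I).biUnion E ∪ (T1 ∪ T2) = (E i ∪ T2) ∪ (I.biUnion E ∪ T1)` and these two are disjoint:
`E i` against `E j` by hypothesis; `E i` is `In W Γ`, `T1` is not; `E j`, `T1` are `In W1 Γ1`, `T2` is
not. (`In` for `sw`: the endpoints are in `W`.) Use `dc_union`.
-/

set_option autoImplicit false

namespace TFA

open Finset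

variable {V C : Type} [DecidableEq V] [DecidableEq C]

theorem fam_mono {W W' : Finset V} {Γ Γ' : Finset C} (hW : W ⊆ W') (hΓ : Γ ⊆ Γ') {i : Item V C}
    (h : In W Γ i) : In W' Γ' i := by
  cases i with
  | inl e => exact fun x hx => hW (h x hx)
  | inr p => exact ⟨hW h.1, hΓ h.2⟩

theorem fam_sw {W : Finset V} (Γ : Finset C) {r s y z : V} (hr : r ∈ W) (hs : s ∈ W) (hy : y ∈ W) (hz : z ∈ W)
    {i : Item V C} (h : i ∈ sw C r s y z) : In W Γ i := by
  unfold sw at h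
  rw [Finset.mem_insert, Finset.mem_singleton] at h
  rcases h with rfl | rfl
  · intro x hx
    rcases Sym2.mem_iff.1 hx with rfl | rfl <;> assumption
  · intro x hx
    rcases Sym2.mem_iff.1 hx with rfl | rfl <;> assumption

/-- one step of the decomposition -/
theorem fam_step {m : ℕ} {ι : Type} [DecidableEq ι] {W W1 : Finset V} {Γ Γ1 : Finset C} {I : Finset ι} {i : ι}
    (hi : i ∉ I) (E : ι → Finset (Item V C)) {T1 T2 : Finset (Item V C)} (hWs : W ⊆ W1) (hΓs : Γ ⊆ Γ1)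
    (hE : ∀ j ∈ insert i I, ∀ x ∈ E j, In W Γ x) (hd : ∀ j ∈ insert i I, ∀ l ∈ insert i I, j ≠ l → Disjoint (E j) (E l))
    (hin : ∀ x ∈ T1, In W1 Γ1 x) (hnew : ∀ x ∈ T1, ¬ In W Γ x) (hnew2 : ∀ x ∈ T2, ¬ In W1 Γ1 x)
    (hD1 : Dc m (I.biUnion E ∪ T1)) (hD2 : Dc m (E i ∪ T2)) :
    Dc m ((insert i I).biUnion E ∪ (T1 ∪ T2)) := by
  have he : (insert i I).biUnion E ∪ (T1 ∪ T2) = (E i ∪ T2) ∪ (I.biUnion E ∪ T1) := by
    rw [Finset.biUnion_insert]
    ext x
    simp only [Finset.mem_union]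
    tauto
  rw [he]
  refine dc_union hD2 hD1 ?_
  rw [Finset.disjoint_left]
  intro x hx hx'
  rw [Finset.mem_union] at hx hx'
  rw [Finset.mem_biUnion] at hx'
  rcases hx with hx | hx
  · rcases hx' with ⟨j, hj, hxj⟩ | hx'
    · have hne : i ≠ j := fun h => hi (h ▸ hj)
      exact Finset.disjoint_left.1 (hd i (Finset.mem_insert_self _ _) j (Finset.mem_insert_of_mem hj) hne) hx hxj
    · exact hnew x hx' (hE i (Finset.mem_insert_self _ _) x hx)
  · rcases hx' with ⟨j, hj, hxj⟩ | hx'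
    · exact hnew2 x hx (fam_mono hWs hΓs (hE j (Finset.mem_insert_of_mem hj) x hxj))
    · exact hnew2 x hx (hin x hx')

theorem fam {G : SimpleGraph V} {k kc m : ℕ} (hG : Host G k) (hC : HostC C kc) (hm : 1 ≤ m)
    (W : Finset V) (Γ : Finset C) {ι : Type} [DecidableEq ι] (I : Finset ι) (r s y z : ι → V)
    (hW : W.card + 6 * m * I.card ≤ k) (hΓ : Γ.card + 3 * I.card ≤ kc)
    (hin : ∀ i ∈ I, r i ∈ W ∧ s i ∈ W ∧ y i ∈ W ∧ z i ∈ W)
    (hne : ∀ i ∈ I, r i ≠ s i ∧ r i ≠ y i ∧ r i ≠ z i ∧ s i ≠ y i ∧ s i ≠ z i ∧ y i ≠ z i)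
    (h1 : ∀ i ∈ I, ∀ j ∈ I, i ≠ j →
      Disjoint (sw C (r i) (s i) (y i) (z i)) (sw C (r j) (s j) (y j) (z j)))
    (h2 : ∀ i ∈ I, ∀ j ∈ I, i ≠ j →
      Disjoint (sw C (s i) (r i) (y i) (z i)) (sw C (s j) (r j) (y j) (z j))) :
    ∃ (W' : Finset V) (Γ' : Finset C) (T : Finset (Item V C)), Step G W Γ W' Γ' T ∧
      W'.card ≤ W.card + 6 * m * I.card ∧ Γ'.card ≤ Γ.card + 3 * I.card ∧
      T.card ≤ (22 + 12 * m) * I.card ∧
      Dc m (I.biUnion (fun i => sw C (r i) (s i) (y i) (z i)) ∪ T) ∧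
      Dc m (I.biUnion (fun i => sw C (s i) (r i) (y i) (z i)) ∪ T) := by
  induction I using Finset.induction_on with
  | empty =>
    refine ⟨W, Γ, ∅, ⟨Finset.Subset.refl _, Finset.Subset.refl _, ?_, ?_, ?_⟩, ?_, ?_, ?_, ?_, ?_⟩
    · intro i hi
      exact absurd hi (Finset.notMem_empty _)
    · intro i hi
      exact absurd hi (Finset.notMem_empty _)
    · intro e he
      exact absurd he (Finset.notMem_empty _)
    · simp
    · simp
    · simp
    · rw [Finset.biUnion_empty, Finset.empty_union]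
      exact Dc.nil
    · rw [Finset.biUnion_empty, Finset.empty_union]
      exact Dc.nil
  | insert i I hi ih =>
    rw [Finset.card_insert_of_notMem hi] at hW hΓ ⊢
    have hm1 : 6 * m * (I.card + 1) = 6 * m * I.card + 6 * m := by ring
    rw [hm1] at hW ⊢
    obtain ⟨W1, Γ1, T1, hS1, hcW1, hcΓ1, hcT1, hD1, hD1'⟩ := ih (by omega) (by omega)
      (fun j hj => hin j (Finset.mem_insert_of_mem hj)) (fun j hj => hne j (Finset.mem_insert_of_mem hj))
      (fun j hj l hl => h1 j (Finset.mem_insert_of_mem hj) l (Finset.mem_insert_of_mem hl))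
      (fun j hj l hl => h2 j (Finset.mem_insert_of_mem hj) l (Finset.mem_insert_of_mem hl))
    obtain ⟨m1, m2, m3, m4⟩ := hin i (Finset.mem_insert_self _ _)
    obtain ⟨n1, n2, n3, n4, n5, n6⟩ := hne i (Finset.mem_insert_self _ _)
    obtain ⟨W2, Γ2, T2, hS2, hcW2, hcΓ2, hcT2, hD2, hD2'⟩ := psg hG hC hm W1 Γ1 (by omega) (by omega)
      (r i) (s i) (y i) (z i) (hS1.hW m1) (hS1.hW m2) (hS1.hW m3) (hS1.hW m4) n1 n2 n3 n4 n5 n6
    refine ⟨W2, Γ2, T1 ∪ T2, ⟨hS1.hW.trans hS2.hW, hS1.hΓ.trans hS2.hΓ, ?_, ?_, ?_⟩, by omega, by omega, ?_, ?_, ?_⟩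
    · intro x hx
      rcases Finset.mem_union.1 hx with hx | hx
      · exact fam_mono hS2.hW hS2.hΓ (hS1.hin x hx)
      · exact hS2.hin x hx
    · intro x hx
      rcases Finset.mem_union.1 hx with hx | hx
      · exact hS1.hnew x hx
      · exact fun h => hS2.hnew x hx (fam_mono hS1.hW hS1.hΓ h)
    · intro e he
      rcases Finset.mem_union.1 he with he | he
      · exact hS1.hG e he
      · exact hS2.hG e he
    · have hu := Finset.card_union_le T1 T2
      have hm2 : (22 + 12 * m) * (I.card + 1) = (22 + 12 * m) * I.card + (22 + 12 * m) := by ring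
      omega
    · exact fam_step (E := fun i => sw C (r i) (s i) (y i) (z i)) hi hS1.hW hS1.hΓ
        (fun j hj x hx => fam_sw Γ (hin j hj).1 (hin j hj).2.1 (hin j hj).2.2.1 (hin j hj).2.2.2 hx) h1
        hS1.hin hS1.hnew hS2.hnew hD1 hD2
    · exact fam_step (E := fun i => sw C (s i) (r i) (y i) (z i)) hi hS1.hW hS1.hΓ
        (fun j hj x hx => fam_sw Γ (hin j hj).2.1 (hin j hj).1 (hin j hj).2.2.1 (hin j hj).2.2.2 hx) h2
        hS1.hin hS1.hnew hS2.hnew hD1' hD2'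

end TFA
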