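import Mathlib
import Pool.Agent.TFA.Defs

/-!
TFA/LtA (difficulty 3). The long switch, pure part. Index set `O × Fin 3`; the `3|O|` switches
`{r y, s z} <-> {s y, r z}` are
 (o,0): `{u_o w_o, Z_o Y_o} <-> {Z_o w_o, u_o Y_o}`,
 (o,1): `{Z_{πo} w_{πo}, u_o Y_o} <-> {u_o w_{πo}, Z_{πo} Y_o}`,
 (o,2): `{Z_{πo} Y_o, p Y_{πo}} <-> {p Y_o, Z_{πo} Y_{πo}}`.
`ltA1`, `ltA2`: unions of the first / second sides (membership; re-index by the bijection `π`:
`{Z_{πo} w_{πo}}` over all `o` is `{Z_o w_o}` over all `o`, etc. (`π.symm o`)).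
`ltA3`, `ltA4`: different switches have disjoint first sides (second sides). Each edge on a first side
has a shape: `u w` (old-old), `Z Y` same index, `Z w`, `u Y`, `Z_{πo} Y_o`, `p Y`; different shapes
are different edges since `u, w` are in `W`, `Y, Z, p` are not, `Y, Z, p` are distinct from each other,
and `Z_{o} Y_{o} = Z_{πo'} Y_{o'}` would give `π o' = o'`, excluded by `hπ`. Same shape: injectivity of
`Y`, `Z`, `π`; for the shape `u w` injectivity `hA` (resp. `hB`). Use `Sym2.eq_iff`, `Prod.ext_iff`,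
`Finset.disjoint_left`, `fin_cases` on the second index. (First sides: shapes `uw, ZY | Zw, uY |
Z_{π}Y, pY`. Second sides: `Zw, uY | u w_{π}, Z_{π} Y | pY, Z_{π}Y_{π}`.)
-/

set_option autoImplicit false

namespace TFA

open Finset

variable {V C : Type} [DecidableEq V] [DecidableEq C]

/-- data of the long switch -/
structure LtH {O : Type} (W : Finset V) (u w Y Z : O → V) (p : V) (π : Equiv.Perm O) : Prop where
  hu : ∀ o, u o ∈ W
  hw : ∀ o, w o ∈ W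
  hY : ∀ o, Y o ∉ W
  hZ : ∀ o, Z o ∉ W
  hp : p ∉ W
  iY : Function.Injective Y
  iZ : Function.Injective Z
  YZ : ∀ o o', Y o ≠ Z o'
  pY : ∀ o, p ≠ Y o
  pZ : ∀ o, p ≠ Z o
  uw : ∀ o, u o ≠ w o
  uwp : ∀ o, u o ≠ w (π o)
  hA : Function.Injective (fun o => s(u o, w o))
  hB : Function.Injective (fun o => s(u o, w (π o)))
  hπ : ∀ o, π o ≠ o

/-- the common edges of the long switch -/
def ltX (C : Type) [DecidableEq C] {O : Type} [Fintype O] [DecidableEq O] (u w Y Z : O → V) (p : V)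
    (π : Equiv.Perm O) : Finset (Item V C) :=
  univ.image (fun o => (Sum.inl s(u o, Y o) : Item V C)) ∪
    univ.image (fun o => (Sum.inl s(Z o, w o) : Item V C)) ∪
    univ.image (fun o => (Sum.inl s(Z o, Y o) : Item V C)) ∪
    univ.image (fun o => (Sum.inl s(Z (π o), Y o) : Item V C)) ∪
    univ.image (fun o => (Sum.inl s(p, Y o) : Item V C))

/-- first vertex of the switch with index `i` -/
def lr {O : Type} (u Z : O → V) (π : Equiv.Perm O) (i : O × Fin 3) : V :=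
  if i.2 = 0 then u i.1 else Z (π i.1)

/-- second vertex -/
def ls {O : Type} (u Z : O → V) (p : V) (i : O × Fin 3) : V :=
  if i.2 = 0 then Z i.1 else if i.2 = 1 then u i.1 else p

/-- third vertex -/
def ly {O : Type} (w Y : O → V) (π : Equiv.Perm O) (i : O × Fin 3) : V :=
  if i.2 = 0 then w i.1 else if i.2 = 1 then w (π i.1) else Y i.1

/-- fourth vertex -/
def lz {O : Type} (Y : O → V) (π : Equiv.Perm O) (i : O × Fin 3) : V :=
  if i.2 = 0 then Y i.1 else if i.2 = 1 then Y i.1 else Y (π i.1)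

theorem lta_f0 {O : Type} (u w Y Z : O → V) (p : V) (π : Equiv.Perm O) (o : O) :
    sw C (lr u Z π (o, 0)) (ls u Z p (o, 0)) (ly w Y π (o, 0)) (lz Y π (o, 0)) =
      {Sum.inl s(u o, w o), Sum.inl s(Z o, Y o)} := rfl

theorem lta_f1 {O : Type} (u w Y Z : O → V) (p : V) (π : Equiv.Perm O) (o : O) :
    sw C (lr u Z π (o, 1)) (ls u Z p (o, 1)) (ly w Y π (o, 1)) (lz Y π (o, 1)) =
      {Sum.inl s(Z (π o), w (π o)), Sum.inl s(u o, Y o)} := rfl

theorem lta_f2 {O : Type} (u w Y Z : O → V) (p : V) (π : Equiv.Perm O) (o : O) :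
    sw C (lr u Z π (o, 2)) (ls u Z p (o, 2)) (ly w Y π (o, 2)) (lz Y π (o, 2)) =
      {Sum.inl s(Z (π o), Y o), Sum.inl s(p, Y (π o))} := rfl

theorem lta_g0 {O : Type} (u w Y Z : O → V) (p : V) (π : Equiv.Perm O) (o : O) :
    sw C (ls u Z p (o, 0)) (lr u Z π (o, 0)) (ly w Y π (o, 0)) (lz Y π (o, 0)) =
      {Sum.inl s(Z o, w o), Sum.inl s(u o, Y o)} := rfl

theorem lta_g1 {O : Type} (u w Y Z : O → V) (p : V) (π : Equiv.Perm O) (o : O) :
    sw C (ls u Z p (o, 1)) (lr u Z π (o, 1)) (ly w Y π (o, 1)) (lz Y π (o, 1)) =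
      {Sum.inl s(u o, w (π o)), Sum.inl s(Z (π o), Y o)} := rfl

theorem lta_g2 {O : Type} (u w Y Z : O → V) (p : V) (π : Equiv.Perm O) (o : O) :
    sw C (ls u Z p (o, 2)) (lr u Z π (o, 2)) (ly w Y π (o, 2)) (lz Y π (o, 2)) =
      {Sum.inl s(p, Y o), Sum.inl s(Z (π o), Y (π o))} := rfl

theorem lta_memX {O : Type} [Fintype O] [DecidableEq O] (u w Y Z : O → V) (p : V)
    (π : Equiv.Perm O) (e : Item V C) : e ∈ ltX C u w Y Z p π ↔
      (∃ o, Sum.inl s(u o, Y o) = e) ∨ (∃ o, Sum.inl s(Z o, w o) = e) ∨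
      (∃ o, Sum.inl s(Z o, Y o) = e) ∨ (∃ o, Sum.inl s(Z (π o), Y o) = e) ∨
      (∃ o, Sum.inl s(p, Y o) = e) := by
  unfold ltX
  simp only [mem_union, mem_image, mem_univ, true_and, or_assoc]

theorem ltA1 {O : Type} [Fintype O] [DecidableEq O] (u w Y Z : O → V) (p : V)
    (π : Equiv.Perm O) :
    (univ : Finset (O × Fin 3)).biUnion (fun i => sw C (lr u Z π i) (ls u Z p i) (ly w Y π i)
      (lz Y π i)) =
    univ.image (fun o => (Sum.inl s(u o, w o) : Item V C)) ∪ ltX C u w Y Z p π := by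
  ext e
  rw [mem_union, lta_memX, mem_biUnion]
  constructor
  · rintro ⟨⟨o, a⟩, -, he⟩
    rcases (by fin_cases a <;> simp : a = 0 ∨ a = 1 ∨ a = 2) with rfl | rfl | rfl
    · rw [lta_f0, mem_insert, mem_singleton] at he
      rcases he with rfl | rfl
      · exact Or.inl (mem_image.mpr ⟨o, mem_univ _, rfl⟩)
      · exact Or.inr (Or.inr (Or.inr (Or.inl ⟨o, rfl⟩)))
    · rw [lta_f1, mem_insert, mem_singleton] at he
      rcases he with rfl | rfl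
      · exact Or.inr (Or.inr (Or.inl ⟨π o, rfl⟩))
      · exact Or.inr (Or.inl ⟨o, rfl⟩)
    · rw [lta_f2, mem_insert, mem_singleton] at he
      rcases he with rfl | rfl
      · exact Or.inr (Or.inr (Or.inr (Or.inr (Or.inl ⟨o, rfl⟩))))
      · exact Or.inr (Or.inr (Or.inr (Or.inr (Or.inr ⟨π o, rfl⟩))))
  · rintro (h | ⟨o, rfl⟩ | ⟨o, rfl⟩ | ⟨o, rfl⟩ | ⟨o, rfl⟩ | ⟨o, rfl⟩)
    · obtain ⟨o, -, rfl⟩ := mem_image.mp h
      exact ⟨(o, 0), mem_univ _, by rw [lta_f0]; simp⟩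
    · exact ⟨(o, 1), mem_univ _, by rw [lta_f1]; simp⟩
    · exact ⟨(π.symm o, 1), mem_univ _, by rw [lta_f1, Equiv.apply_symm_apply]; simp⟩
    · exact ⟨(o, 0), mem_univ _, by rw [lta_f0]; simp⟩
    · exact ⟨(o, 2), mem_univ _, by rw [lta_f2]; simp⟩
    · exact ⟨(π.symm o, 2), mem_univ _, by rw [lta_f2, Equiv.apply_symm_apply]; simp⟩

theorem ltA2 {O : Type} [Fintype O] [DecidableEq O] (u w Y Z : O → V) (p : V)
    (π : Equiv.Perm O) :
    (univ : Finset (O × Fin 3)).biUnion (fun i => sw C (ls u Z p i) (lr u Z π i) (ly w Y π i)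
      (lz Y π i)) =
    univ.image (fun o => (Sum.inl s(u o, w (π o)) : Item V C)) ∪ ltX C u w Y Z p π := by
  ext e
  rw [mem_union, lta_memX, mem_biUnion]
  constructor
  · rintro ⟨⟨o, a⟩, -, he⟩
    rcases (by fin_cases a <;> simp : a = 0 ∨ a = 1 ∨ a = 2) with rfl | rfl | rfl
    · rw [lta_g0, mem_insert, mem_singleton] at he
      rcases he with rfl | rfl
      · exact Or.inr (Or.inr (Or.inl ⟨o, rfl⟩))
      · exact Or.inr (Or.inl ⟨o, rfl⟩)
    · rw [lta_g1, mem_insert, mem_singleton] at he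
      rcases he with rfl | rfl
      · exact Or.inl (mem_image.mpr ⟨o, mem_univ _, rfl⟩)
      · exact Or.inr (Or.inr (Or.inr (Or.inr (Or.inl ⟨o, rfl⟩))))
    · rw [lta_g2, mem_insert, mem_singleton] at he
      rcases he with rfl | rfl
      · exact Or.inr (Or.inr (Or.inr (Or.inr (Or.inr ⟨o, rfl⟩))))
      · exact Or.inr (Or.inr (Or.inr (Or.inl ⟨π o, rfl⟩)))
  · rintro (h | ⟨o, rfl⟩ | ⟨o, rfl⟩ | ⟨o, rfl⟩ | ⟨o, rfl⟩ | ⟨o, rfl⟩)
    · obtain ⟨o, -, rfl⟩ := mem_image.mp h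
      exact ⟨(o, 1), mem_univ _, by rw [lta_g1]; simp⟩
    · exact ⟨(o, 0), mem_univ _, by rw [lta_g0]; simp⟩
    · exact ⟨(o, 0), mem_univ _, by rw [lta_g0]; simp⟩
    · exact ⟨(π.symm o, 2), mem_univ _, by rw [lta_g2, Equiv.apply_symm_apply]; simp⟩
    · exact ⟨(o, 1), mem_univ _, by rw [lta_g1]; simp⟩
    · exact ⟨(o, 2), mem_univ _, by rw [lta_g2]; simp⟩

theorem lta_dis {P Q R S : Sym2 V} (h1 : P ≠ R) (h2 : P ≠ S) (h3 : Q ≠ R) (h4 : Q ≠ S) :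
    Disjoint ({Sum.inl P, Sum.inl Q} : Finset (Item V C)) {Sum.inl R, Sum.inl S} := by
  rw [Finset.disjoint_left]
  intro e he he'
  rw [mem_insert, mem_singleton] at he he'
  rcases he with rfl | rfl <;> rcases he' with h | h
  · exact h1 (Sum.inl.inj h)
  · exact h2 (Sum.inl.inj h)
  · exact h3 (Sum.inl.inj h)
  · exact h4 (Sum.inl.inj h)

theorem ltA3 {O : Type} {W : Finset V} {u w Y Z : O → V} {p : V}
    {π : Equiv.Perm O} (h : LtH W u w Y Z p π) (i j : O × Fin 3) (hij : i ≠ j) :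
    Disjoint (sw C (lr u Z π i) (ls u Z p i) (ly w Y π i) (lz Y π i))
      (sw C (lr u Z π j) (ls u Z p j) (ly w Y π j) (lz Y π j)) := by
  obtain ⟨o, a⟩ := i
  obtain ⟨o', b⟩ := j
  have uY : ∀ o o', u o ≠ Y o' := fun o o' e => h.hY o' (e ▸ h.hu o)
  have uZ : ∀ o o', u o ≠ Z o' := fun o o' e => h.hZ o' (e ▸ h.hu o)
  have up : ∀ o, u o ≠ p := fun o e => h.hp (e ▸ h.hu o)
  have wY : ∀ o o', w o ≠ Y o' := fun o o' e => h.hY o' (e ▸ h.hw o)
  have wZ : ∀ o o', w o ≠ Z o' := fun o o' e => h.hZ o' (e ▸ h.hw o)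
  have wp : ∀ o, w o ≠ p := fun o e => h.hp (e ▸ h.hw o)
  have Yu : ∀ o o', Y o ≠ u o' := fun o o' e => uY o' o e.symm
  have Zu : ∀ o o', Z o ≠ u o' := fun o o' e => uZ o' o e.symm
  have pu : ∀ o, p ≠ u o := fun o e => up o e.symm
  have Yw : ∀ o o', Y o ≠ w o' := fun o o' e => wY o' o e.symm
  have Zw : ∀ o o', Z o ≠ w o' := fun o o' e => wZ o' o e.symm
  have pw : ∀ o, p ≠ w o := fun o e => wp o e.symm
  have YZ := h.YZ
  have ZY : ∀ o o', Z o ≠ Y o' := fun o o' e => h.YZ o' o e.symm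
  have pY := h.pY
  have pZ := h.pZ
  have Yp : ∀ o, Y o ≠ p := fun o e => pY o e.symm
  have Zp : ∀ o, Z o ≠ p := fun o e => pZ o e.symm
  have iY : ∀ o o', Y o = Y o' ↔ o = o' := fun o o' => h.iY.eq_iff
  have iZ : ∀ o o', Z o = Z o' ↔ o = o' := fun o o' => h.iZ.eq_iff
  have hπ := h.hπ
  have hπ' : ∀ o, o ≠ π o := fun o => (h.hπ o).symm
  rcases (by fin_cases a <;> simp : a = 0 ∨ a = 1 ∨ a = 2) with rfl | rfl | rfl <;>
  rcases (by fin_cases b <;> simp : b = 0 ∨ b = 1 ∨ b = 2) with rfl | rfl | rfl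
  · have hoo : o ≠ o' := fun e => hij (by rw [e])
    rw [lta_f0, lta_f0]
    refine lta_dis (fun e => hoo (h.hA e)) ?_ ?_ ?_ <;> rw [Ne, Sym2.eq_iff] <;> simp [*]
  · rw [lta_f0, lta_f1]
    refine lta_dis ?_ ?_ ?_ ?_ <;> rw [Ne, Sym2.eq_iff] <;> simp [*]
  · rw [lta_f0, lta_f2]
    refine lta_dis ?_ ?_ ?_ ?_ <;> rw [Ne, Sym2.eq_iff] <;> simp [*]
    intro e e'
    rw [← e'] at e
    exact hπ _ e.symm
  · rw [lta_f1, lta_f0]
    refine lta_dis ?_ ?_ ?_ ?_ <;> rw [Ne, Sym2.eq_iff] <;> simp [*]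
  · have hoo : o ≠ o' := fun e => hij (by rw [e])
    rw [lta_f1, lta_f1]
    refine lta_dis ?_ ?_ ?_ ?_ <;> rw [Ne, Sym2.eq_iff] <;> simp [*]
  · rw [lta_f1, lta_f2]
    refine lta_dis ?_ ?_ ?_ ?_ <;> rw [Ne, Sym2.eq_iff] <;> simp [*]
  · rw [lta_f2, lta_f0]
    refine lta_dis ?_ ?_ ?_ ?_ <;> rw [Ne, Sym2.eq_iff] <;> simp [*]
    intro e e'
    rw [← e'] at e
    exact hπ _ e
  · rw [lta_f2, lta_f1]
    refine lta_dis ?_ ?_ ?_ ?_ <;> rw [Ne, Sym2.eq_iff] <;> simp [*]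
  · have hoo : o ≠ o' := fun e => hij (by rw [e])
    rw [lta_f2, lta_f2]
    refine lta_dis ?_ ?_ ?_ ?_ <;> rw [Ne, Sym2.eq_iff] <;> simp [*]

theorem ltA4 {O : Type} {W : Finset V} {u w Y Z : O → V} {p : V}
    {π : Equiv.Perm O} (h : LtH W u w Y Z p π) (i j : O × Fin 3) (hij : i ≠ j) :
    Disjoint (sw C (ls u Z p i) (lr u Z π i) (ly w Y π i) (lz Y π i))
      (sw C (ls u Z p j) (lr u Z π j) (ly w Y π j) (lz Y π j)) := by
  obtain ⟨o, a⟩ := i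
  obtain ⟨o', b⟩ := j
  have uY : ∀ o o', u o ≠ Y o' := fun o o' e => h.hY o' (e ▸ h.hu o)
  have uZ : ∀ o o', u o ≠ Z o' := fun o o' e => h.hZ o' (e ▸ h.hu o)
  have up : ∀ o, u o ≠ p := fun o e => h.hp (e ▸ h.hu o)
  have wY : ∀ o o', w o ≠ Y o' := fun o o' e => h.hY o' (e ▸ h.hw o)
  have wZ : ∀ o o', w o ≠ Z o' := fun o o' e => h.hZ o' (e ▸ h.hw o)
  have wp : ∀ o, w o ≠ p := fun o e => h.hp (e ▸ h.hw o)
  have Yu : ∀ o o', Y o ≠ u o' := fun o o' e => uY o' o e.symm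
  have Zu : ∀ o o', Z o ≠ u o' := fun o o' e => uZ o' o e.symm
  have pu : ∀ o, p ≠ u o := fun o e => up o e.symm
  have Yw : ∀ o o', Y o ≠ w o' := fun o o' e => wY o' o e.symm
  have Zw : ∀ o o', Z o ≠ w o' := fun o o' e => wZ o' o e.symm
  have pw : ∀ o, p ≠ w o := fun o e => wp o e.symm
  have YZ := h.YZ
  have ZY : ∀ o o', Z o ≠ Y o' := fun o o' e => h.YZ o' o e.symm
  have pY := h.pY
  have pZ := h.pZ
  have Yp : ∀ o, Y o ≠ p := fun o e => pY o e.symm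
  have Zp : ∀ o, Z o ≠ p := fun o e => pZ o e.symm
  have iY : ∀ o o', Y o = Y o' ↔ o = o' := fun o o' => h.iY.eq_iff
  have iZ : ∀ o o', Z o = Z o' ↔ o = o' := fun o o' => h.iZ.eq_iff
  have hπ := h.hπ
  have hπ' : ∀ o, o ≠ π o := fun o => (h.hπ o).symm
  rcases (by fin_cases a <;> simp : a = 0 ∨ a = 1 ∨ a = 2) with rfl | rfl | rfl <;>
  rcases (by fin_cases b <;> simp : b = 0 ∨ b = 1 ∨ b = 2) with rfl | rfl | rfl
  · have hoo : o ≠ o' := fun e => hij (by rw [e])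
    rw [lta_g0, lta_g0]
    refine lta_dis ?_ ?_ ?_ ?_ <;> rw [Ne, Sym2.eq_iff] <;> simp [*]
  · rw [lta_g0, lta_g1]
    refine lta_dis ?_ ?_ ?_ ?_ <;> rw [Ne, Sym2.eq_iff] <;> simp [*]
  · rw [lta_g0, lta_g2]
    refine lta_dis ?_ ?_ ?_ ?_ <;> rw [Ne, Sym2.eq_iff] <;> simp [*]
  · rw [lta_g1, lta_g0]
    refine lta_dis ?_ ?_ ?_ ?_ <;> rw [Ne, Sym2.eq_iff] <;> simp [*]
  · have hoo : o ≠ o' := fun e => hij (by rw [e])
    rw [lta_g1, lta_g1]
    refine lta_dis (fun e => hoo (h.hB e)) ?_ ?_ ?_ <;> rw [Ne, Sym2.eq_iff] <;> simp [*]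
  · rw [lta_g1, lta_g2]
    refine lta_dis ?_ ?_ ?_ ?_ <;> rw [Ne, Sym2.eq_iff] <;> simp [*]
    intro e e'
    rw [← e] at e'
    exact hπ _ e'.symm
  · rw [lta_g2, lta_g0]
    refine lta_dis ?_ ?_ ?_ ?_ <;> rw [Ne, Sym2.eq_iff] <;> simp [*]
  · rw [lta_g2, lta_g1]
    refine lta_dis ?_ ?_ ?_ ?_ <;> rw [Ne, Sym2.eq_iff] <;> simp [*]
    intro e e'
    rw [← e] at e'
    exact hπ _ e'
  · have hoo : o ≠ o' := fun e => hij (by rw [e])
    rw [lta_g2, lta_g2]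
    refine lta_dis ?_ ?_ ?_ ?_ <;> rw [Ne, Sym2.eq_iff] <;> simp [*]

end TFA
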