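import Mathlib
import Pool.Agent.TFA.Defs
import Pool.Agent.TFA.Grd
import Pool.Agent.TFA.Fam
import Pool.Agent.TFA.LtA

/-!
TFA/Lt (difficulty 3). The long switch `{u_o w_o} <-> {u_o w_{πo}}` in the host.
-/

set_option autoImplicit false

namespace TFA

open Finset

variable {V C : Type} [DecidableEq V] [DecidableEq C]

omit [DecidableEq V] [DecidableEq C] in
theorem lt_in_mono {W W' : Finset V} {Γ Γ' : Finset C} (hW : W ⊆ W') (hΓ : Γ ⊆ Γ')
    (i : Item V C) (h : In W Γ i) : In W' Γ' i := by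
  rcases i with e | p
  · exact fun x hx => hW (h x hx)
  · exact ⟨hW h.1, hΓ h.2⟩

/-- the embedding part -/
theorem lt_emb {G : SimpleGraph V} {k : ℕ} (hG : Host G k) (W : Finset V) {O : Type} [Fintype O]
    [DecidableEq O] (u w : O → V) (π : Equiv.Perm O) (hW : W.card + 1 + 2 * Fintype.card O ≤ k) :
    ∃ (p : V) (Y Z : O → V), p ∉ W ∧ (∀ o, Y o ∉ W) ∧ (∀ o, Z o ∉ W) ∧ Function.Injective Y ∧
      Function.Injective Z ∧ (∀ o o', Y o ≠ Z o') ∧ (∀ o, p ≠ Y o) ∧ (∀ o, p ≠ Z o) ∧
      (∀ o, G.Adj (u o) (Y o)) ∧ (∀ o, G.Adj (Z o) (w o)) ∧ (∀ o, G.Adj (Z o) (Y o)) ∧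
      (∀ o, G.Adj (Z (π o)) (Y o)) ∧ (∀ o, G.Adj p (Y o)) := by
  let ι := Unit ⊕ (O ⊕ O)
  let rk : ι → ℕ := fun i => match i with
    | Sum.inl _ => 0
    | Sum.inr (Sum.inl _) => 1
    | Sum.inr (Sum.inr _) => 2
  let con : ι → Finset ι := fun i => match i with
    | Sum.inl _ => ∅
    | Sum.inr (Sum.inl _) => {Sum.inl ()}
    | Sum.inr (Sum.inr o) => {Sum.inr (Sum.inl o), Sum.inr (Sum.inl (π.symm o))}
  let cW : ι → Finset V := fun i => match i with
    | Sum.inl _ => ∅
    | Sum.inr (Sum.inl o) => {u o}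
    | Sum.inr (Sum.inr o) => {w o}
  obtain ⟨f, hf, hfW, hfc, hfW'⟩ := greedy hG rk con (by
      rintro (i | i | i) j hj
      · simp [con] at hj
      · simp only [con, Finset.mem_singleton] at hj
        subst hj; simp [rk]
      · simp only [con, Finset.mem_insert, Finset.mem_singleton] at hj
        rcases hj with rfl | rfl <;> simp [rk]) cW (by
      rintro (i | i | i)
      · simp [con, cW]
      · simp [con, cW]
      · have := Finset.card_le_two (a := (Sum.inr (Sum.inl i) : ι))
          (b := Sum.inr (Sum.inl (π.symm i)))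
        simp only [con, cW, Finset.card_singleton]
        omega) W (by
      have : Fintype.card ι = 1 + (Fintype.card O + Fintype.card O) := by
        simp [ι]
      omega)
  refine ⟨f (Sum.inl ()), fun o => f (Sum.inr (Sum.inl o)), fun o => f (Sum.inr (Sum.inr o)),
    hfW _, fun o => hfW _, fun o => hfW _, ?_, ?_, ?_, ?_, ?_, ?_, ?_, ?_, ?_, ?_⟩
  · intro o o' h
    exact Sum.inl_injective (Sum.inr_injective (hf h))
  · intro o o' h
    exact Sum.inr_injective (Sum.inr_injective (hf h))
  · intro o o' h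
    exact Sum.inl_ne_inr (Sum.inr_injective (hf h))
  · intro o h
    exact Sum.inl_ne_inr (hf h)
  · intro o h
    exact Sum.inl_ne_inr (hf h)
  · intro o
    exact (hfW' (Sum.inr (Sum.inl o)) (u o) (by simp [cW])).symm
  · intro o
    exact hfW' (Sum.inr (Sum.inr o)) (w o) (by simp [cW])
  · intro o
    exact hfc (Sum.inr (Sum.inr o)) (Sum.inr (Sum.inl o)) (by simp [con])
  · intro o
    exact hfc (Sum.inr (Sum.inr (π o))) (Sum.inr (Sum.inl o)) (by simp [con])
  · intro o
    exact (hfc (Sum.inr (Sum.inl o)) (Sum.inl ()) (by simp [con])).symm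

theorem lt {G : SimpleGraph V} {k kc m : ℕ} (hG : Host G k) (hC : HostC C kc) (hm : 1 ≤ m)
    (W : Finset V) (Γ : Finset C) {O : Type} [Fintype O] [DecidableEq O] (u w : O → V)
    (π : Equiv.Perm O) (hu : ∀ o, u o ∈ W) (hw : ∀ o, w o ∈ W)
    (huw : ∀ o, u o ≠ w o) (huw' : ∀ o, u o ≠ w (π o))
    (hA : Function.Injective (fun o => s(u o, w o)))
    (hB : Function.Injective (fun o => s(u o, w (π o))))
    (hAB : ∀ o o', s(u o, w o) ≠ s(u o', w (π o')))
    (hW : W.card + 1 + (2 + 18 * m) * Fintype.card O ≤ k) (hΓ : Γ.card + 9 * Fintype.card O ≤ kc) :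
    ∃ (W' : Finset V) (Γ' : Finset C) (T : Finset (Item V C)), Step G W Γ W' Γ' T ∧
      W'.card ≤ W.card + 1 + (2 + 18 * m) * Fintype.card O ∧
      Γ'.card ≤ Γ.card + 9 * Fintype.card O ∧ T.card ≤ (71 + 36 * m) * Fintype.card O ∧
      Dc m (univ.image (fun o => (Sum.inl s(u o, w o) : Item V C)) ∪ T) ∧
      Dc m (univ.image (fun o => (Sum.inl s(u o, w (π o)) : Item V C)) ∪ T) := by
  classical
  obtain ⟨p, Y, Z, hpW, hYW, hZW, iY, iZ, YZ, pY, pZ, auY, aZw, aZY, aZY', apY⟩ :=
    lt_emb hG W u w π (by nlinarith)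
  have hπ : ∀ o, π o ≠ o := by
    intro o ho
    apply hAB o o
    rw [ho]
  have H : LtH W u w Y Z p π := ⟨hu, hw, hYW, hZW, hpW, iY, iZ, YZ, pY, pZ, huw, huw', hA, hB, hπ⟩
  let W1 : Finset V := W ∪ ({p} ∪ (univ.image Y ∪ univ.image Z))
  have hWW1 : W ⊆ W1 := Finset.subset_union_left
  have hYW1 : ∀ o, Y o ∈ W1 := fun o => by simp [W1]
  have hZW1 : ∀ o, Z o ∈ W1 := fun o => by simp [W1]
  have hpW1 : p ∈ W1 := by simp [W1]
  have hW1c : W1.card ≤ W.card + 1 + 2 * Fintype.card O := by
    have h1 := Finset.card_union_le W ({p} ∪ (univ.image Y ∪ univ.image Z))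
    have h2 := Finset.card_union_le ({p} : Finset V) (univ.image Y ∪ univ.image Z)
    have h3 := Finset.card_union_le (univ.image Y) (univ.image Z)
    have h4 : (univ.image Y).card ≤ Fintype.card O := Finset.card_image_le.trans (by simp)
    have h5 : (univ.image Z).card ≤ Fintype.card O := Finset.card_image_le.trans (by simp)
    have h6 : ({p} : Finset V).card = 1 := by simp
    show (W ∪ ({p} ∪ (univ.image Y ∪ univ.image Z))).card ≤ _
    omega
  have hIc : (univ : Finset (O × Fin 3)).card = Fintype.card O * 3 := by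
    simp
  obtain ⟨W', Γ', T1, hS, hW', hΓ', hT1, hD1, hD2⟩ := fam hG hC hm W1 Γ
    (univ : Finset (O × Fin 3)) (lr u Z π) (ls u Z p) (ly w Y π) (lz Y π) (by
      rw [hIc]; nlinarith) (by rw [hIc]; omega) (by
      rintro ⟨o, i⟩ -
      fin_cases i
      · simp [lr, ls, ly, lz, hWW1 (hu o), hWW1 (hw o), hYW1, hZW1]
      · simp [lr, ls, ly, lz, hWW1 (hu o), hWW1 (hw (π o)), hYW1, hZW1]
      · simp [lr, ls, ly, lz, hYW1, hZW1, hpW1]) (by
      rintro ⟨o, i⟩ -
      have a1 : ∀ o o', u o ≠ Z o' := fun o o' h => hZW o' (h ▸ hu o)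
      have a2 : ∀ o o', u o ≠ Y o' := fun o o' h => hYW o' (h ▸ hu o)
      have a3 : ∀ o o', w o ≠ Z o' := fun o o' h => hZW o' (h ▸ hw o)
      have a4 : ∀ o o', w o ≠ Y o' := fun o o' h => hYW o' (h ▸ hw o)
      fin_cases i
      · simp only [lr, ls, ly, lz]
        exact ⟨a1 _ _, huw _, a2 _ _, (a3 _ _).symm, (YZ _ _).symm, a4 _ _⟩
      · simp only [lr, ls, ly, lz]
        exact ⟨(a1 _ _).symm, (a3 _ _).symm, (YZ _ _).symm, huw' _, a2 _ _, a4 _ _⟩
      · simp only [lr, ls, ly, lz]
        exact ⟨(pZ _).symm, (YZ _ _).symm, (YZ _ _).symm, pY _, pY _,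
          fun h => hπ o (iY h).symm⟩) (fun i _ j _ hij => ltA3 H i j hij)
      (fun i _ j _ hij => ltA4 H i j hij)
  rw [ltA1, Finset.union_assoc] at hD1
  rw [ltA2, Finset.union_assoc] at hD2
  refine ⟨W', Γ', ltX C u w Y Z p π ∪ T1, ?_, ?_, ?_, ?_, hD1, hD2⟩
  · have hW1W' : W1 ⊆ W' := hS.hW
    refine ⟨hWW1.trans hW1W', hS.hΓ, ?_, ?_, ?_⟩
    · intro i hi
      rcases Finset.mem_union.mp hi with hi | hi
      · apply lt_in_mono hW1W' hS.hΓ
        simp only [ltX, Finset.mem_union, Finset.mem_image, Finset.mem_univ, true_and] at hi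
        rcases hi with (((⟨o, rfl⟩ | ⟨o, rfl⟩) | ⟨o, rfl⟩) | ⟨o, rfl⟩) | ⟨o, rfl⟩ <;>
          · intro x hx
            rw [Sym2.mem_iff] at hx
            rcases hx with rfl | rfl <;>
              first
                | exact hWW1 (hu _)
                | exact hWW1 (hw _)
                | exact hYW1 _
                | exact hZW1 _
                | exact hpW1
      · exact hS.hin i hi
    · intro i hi hin
      rcases Finset.mem_union.mp hi with hi | hi
      · simp only [ltX, Finset.mem_union, Finset.mem_image, Finset.mem_univ, true_and] at hi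
        rcases hi with (((⟨o, rfl⟩ | ⟨o, rfl⟩) | ⟨o, rfl⟩) | ⟨o, rfl⟩) | ⟨o, rfl⟩
        · exact hYW o (hin _ (Sym2.mem_mk_right _ _))
        · exact hZW o (hin _ (Sym2.mem_mk_left _ _))
        · exact hYW o (hin _ (Sym2.mem_mk_right _ _))
        · exact hYW o (hin _ (Sym2.mem_mk_right _ _))
        · exact hYW o (hin _ (Sym2.mem_mk_right _ _))
      · exact hS.hnew i hi (lt_in_mono hWW1 (Finset.Subset.refl _) i hin)
    · intro e he
      rcases Finset.mem_union.mp he with he | he
      · simp only [ltX, Finset.mem_union, Finset.mem_image, Finset.mem_univ, true_and,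
          Sum.inl.injEq] at he
        rcases he with (((⟨o, rfl⟩ | ⟨o, rfl⟩) | ⟨o, rfl⟩) | ⟨o, rfl⟩) | ⟨o, rfl⟩
        · exact auY o
        · exact aZw o
        · exact aZY o
        · exact aZY' o
        · exact apY o
      · exact hS.hG e he
  · rw [hIc] at hW'
    nlinarith
  · rw [hIc] at hΓ'
    omega
  · have hX : (ltX C u w Y Z p π).card ≤ 5 * Fintype.card O := by
      unfold ltX
      have c1 : ∀ g : O → Item V C, (univ.image g).card ≤ Fintype.card O := fun g =>
        Finset.card_image_le.trans (by simp)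
      refine (Finset.card_union_le _ _).trans ?_
      have h1 := c1 (fun o => (Sum.inl s(p, Y o) : Item V C))
      have h2 : (univ.image (fun o => (Sum.inl s(u o, Y o) : Item V C)) ∪
          univ.image (fun o => (Sum.inl s(Z o, w o) : Item V C)) ∪
          univ.image (fun o => (Sum.inl s(Z o, Y o) : Item V C)) ∪
          univ.image (fun o => (Sum.inl s(Z (π o), Y o) : Item V C))).card ≤
          4 * Fintype.card O := by
        refine (Finset.card_union_le _ _).trans ?_
        have h3 := c1 (fun o => (Sum.inl s(Z (π o), Y o) : Item V C))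
        have h4 : (univ.image (fun o => (Sum.inl s(u o, Y o) : Item V C)) ∪
            univ.image (fun o => (Sum.inl s(Z o, w o) : Item V C)) ∪
            univ.image (fun o => (Sum.inl s(Z o, Y o) : Item V C))).card ≤
            3 * Fintype.card O := by
          refine (Finset.card_union_le _ _).trans ?_
          have h5 := c1 (fun o => (Sum.inl s(Z o, Y o) : Item V C))
          have h6 := Finset.card_union_le (univ.image (fun o => (Sum.inl s(u o, Y o) : Item V C)))
            (univ.image (fun o => (Sum.inl s(Z o, w o) : Item V C)))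
          have h7 := c1 (fun o => (Sum.inl s(u o, Y o) : Item V C))
          have h8 := c1 (fun o => (Sum.inl s(Z o, w o) : Item V C))
          omega
        omega
      omega
    have h9 := Finset.card_union_le (ltX C u w Y Z p π) T1
    rw [hIc] at hT1
    nlinarith

end TFA
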