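import Mathlib
import Pool.Agent.TFA.Defs

/-!
TFA/MatA (difficulty 3). Facts on the matrix of positions `(q, i, j)`, `i, j : Fin (m+2)`, `m ≥ 1`.
Entries with `j ≠ 0` are new and pairwise distinct (`h.inj`: if `o.2.2 ≠ 0` and `M o = M o'` then
`o = o'`; so an entry with `j ≠ 0` is never equal to an entry with `j = 0`).
`al τ (q,i,j) = (q,i+1,j)` for `j ≠ 0`, `= (τ(q,i), 0)` for `j = 0`; `be (q,i,j) = (q,i,j+1)`.
`matA1`: column edges `s(M o, M (al τ o))` injective. If `o.2.2 ≠ 0`: both ends are new entries in the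
 column `j = o.2.2`, so the other edge `s(M o', M (al τ o'))` has a new end, so `o'.2.2 ≠ 0` as well
 (if `o'.2.2 = 0` both `M o'` and `M (al τ o')` have column index 0), `al` positions are determined,
 `o = o'` or (`o = al τ o'` and `al τ o = o'`, i.e. `i = i' + 1`, `i' = i + 1` in `Fin (m+2)`, so `2 = 0`
 in `Fin (m+2)`, impossible as `m + 2 ≥ 3`). If both column indices are 0: `h.edges`.
`matA2`: row edges `s(M o, M (be o))` injective: at least one of `o.2.2, o.2.2 + 1` is `≠ 0`, so one end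
 is new and determines `q, i`; `s(M(q,i,j), M(q,i,j+1)) = s(M(q,i,j'), M(q,i,j'+1))`: the entries of
 one row are pairwise distinct (`h.inj`), so `j = j'` or (`j = j'+1`, `j' = j+1`: `2 = 0`, impossible).
`matA3`: a column edge has both ends in the same column or both in column 0; a row edge has its ends in
 different columns `j, j+1`: compare positions using `h.inj` (if `o'.2.2 ≠ 0` or `o'.2.2 + 1 ≠ 0`,
 always at least one new end; that end must be one of the positions `o`, `al τ o` so `o.2.2 ≠ 0`,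
 then both ends are new and `o', be o'` both have column `o.2.2`: contradiction `j = j + 1`).
`matA4`: `M o ≠ M (al τ o)`: `i ≠ i+1` if `j ≠ 0`, `h.loop` if `j = 0`. `matA5`: `M o ≠ M (be o)`.
-/

set_option autoImplicit false

namespace TFA

open Finset

variable {V C : Type} [DecidableEq V] [DecidableEq C]

theorem matA_one {m : ℕ} (_hm : 1 ≤ m) (i : Fin (m + 2)) : i + 1 ≠ i := by
  intro h
  have h1 : (1 : Fin (m + 2)) = 0 := by simpa using h
  exact absurd h1 (by simp)

theorem matA_two {m : ℕ} (hm : 1 ≤ m) (i : Fin (m + 2)) : i + 1 + 1 ≠ i := by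
  intro h
  have h1 : (1 : Fin (m + 2)) + 1 = 0 := by
    rw [add_assoc] at h
    simpa using h
  have h2 := congrArg Fin.val h1
  rw [Fin.val_add] at h2
  have h3 : ((1 : Fin (m + 2)) : ℕ) = 1 := by simp
  rw [h3] at h2
  have h4 : (1 + 1) % (m + 2) = 1 + 1 := Nat.mod_eq_of_lt (by omega)
  rw [h4] at h2
  simp at h2

theorem matA_al {m : ℕ} {Q : Type} (τ : Equiv.Perm (Q × Fin (m + 2)))
    (o : Q × Fin (m + 2) × Fin (m + 2)) : (al τ o).2.2 = o.2.2 := by
  by_cases h : o.2.2 = 0
  · simp [al, h]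
  · simp [al, h]

theorem matA_al' {m : ℕ} {Q : Type} (τ : Equiv.Perm (Q × Fin (m + 2)))
    (o : Q × Fin (m + 2) × Fin (m + 2)) (h : o.2.2 ≠ 0) : al τ o = (o.1, o.2.1 + 1, o.2.2) := by
  simp [al, h]

theorem matA_al0 {m : ℕ} {Q : Type} (τ : Equiv.Perm (Q × Fin (m + 2)))
    (q : Q) (i : Fin (m + 2)) : al τ (q, i, 0) = ((τ (q, i)).1, (τ (q, i)).2, 0) := by
  simp [al]

theorem matA_be {m : ℕ} {Q : Type} (o : Q × Fin (m + 2) × Fin (m + 2)) :
    (be o).2.2 = o.2.2 + 1 := rfl

theorem matA_be1 {m : ℕ} {Q : Type} (o : Q × Fin (m + 2) × Fin (m + 2)) (h : o.2.2 = 0) :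
    (be o).2.2 ≠ 0 := by
  rw [matA_be, h]
  simp

theorem matA_bebe {m : ℕ} (hm : 1 ≤ m) {Q : Type} (o : Q × Fin (m + 2) × Fin (m + 2)) :
    be (be o) ≠ o := by
  intro h
  have := congrArg (fun p => p.2.2) h
  simp only [matA_be] at this
  exact matA_two hm _ this

theorem matA1 {m : ℕ} (hm : 1 ≤ m) {Q : Type} {M : Q × Fin (m + 2) × Fin (m + 2) → V}
    {col : Q → C} {τ : Equiv.Perm (Q × Fin (m + 2))} (h : Mat M col τ) :
    Function.Injective (fun o => s(M o, M (al τ o))) := by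
  intro o o' hoo
  simp only at hoo
  rw [Sym2.eq_iff] at hoo
  by_cases h0 : o.2.2 = 0
  · by_cases h0' : o'.2.2 = 0
    · obtain ⟨q, i, j⟩ := o
      obtain ⟨q', i', j'⟩ := o'
      simp only at h0 h0'
      subst h0
      subst h0'
      rw [matA_al0, matA_al0, ← Sym2.eq_iff] at hoo
      have := h.edges (a₁ := (q, i)) (a₂ := (q', i')) hoo
      rw [Prod.mk.injEq] at this
      rw [this.1, this.2]
    · rcases hoo with ⟨h1, _⟩ | ⟨_, h2⟩
      · exact (h.inj o' o h0' h1.symm).symm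
      · have h3 := h.inj o' (al τ o) h0' h2.symm
        exact absurd (by rw [h3, matA_al, h0]) h0'
  · rcases hoo with ⟨h1, _⟩ | ⟨h1, h2⟩
    · exact h.inj o o' h0 h1
    · have h3 := h.inj o (al τ o') h0 h1
      have h4 := h.inj (al τ o) o' (by rw [matA_al]; exact h0) h2
      rw [← h4] at h3
      have h5 : (al τ o).2.2 ≠ 0 := by rw [matA_al]; exact h0
      rw [matA_al' τ (al τ o) h5] at h3
      have h6 := congrArg (fun p => p.2.1) h3
      simp only at h6
      rw [matA_al' τ o h0] at h6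
      simp only at h6
      exact absurd h6.symm (matA_two hm _)

theorem matA2 {m : ℕ} (hm : 1 ≤ m) {Q : Type} {M : Q × Fin (m + 2) × Fin (m + 2) → V}
    {col : Q → C} {τ : Equiv.Perm (Q × Fin (m + 2))} (h : Mat M col τ) :
    Function.Injective (fun o => s(M o, M (be o))) := by
  intro o o' hoo
  simp only at hoo
  rw [Sym2.eq_iff] at hoo
  rcases hoo with ⟨h1, h2⟩ | ⟨h1, h2⟩
  · by_cases h0 : o.2.2 = 0
    · exact be.injective (h.inj _ _ (matA_be1 o h0) h2)
    · exact h.inj _ _ h0 h1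
  · by_cases h0 : o.2.2 = 0
    · have h3 := h.inj _ _ (matA_be1 o h0) h2
      have h4 : (be o').2.2 ≠ 0 := by
        rw [← h3]
        rw [matA_be, matA_be, h0]
        exact matA_two hm 0
      have h5 := h.inj _ _ h4 h1.symm
      rw [← h3] at h5
      exact absurd h5 (matA_bebe hm o)
    · have h3 := h.inj _ _ h0 h1
      by_cases h0' : o'.2.2 = 0
      · have h4 : (be o).2.2 ≠ 0 := by
          rw [h3]
          rw [matA_be, matA_be, h0']
          exact matA_two hm 0
        have h5 := h.inj _ _ h4 h2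
        rw [← h5] at h3
        exact absurd h3.symm (matA_bebe hm o)
      · have h5 := h.inj _ _ h0' h2.symm
        rw [h5] at h3
        exact absurd h3.symm (matA_bebe hm o)

theorem matA3 {m : ℕ} (hm : 1 ≤ m) {Q : Type} {M : Q × Fin (m + 2) × Fin (m + 2) → V}
    {col : Q → C} {τ : Equiv.Perm (Q × Fin (m + 2))} (h : Mat M col τ)
    (o o' : Q × Fin (m + 2) × Fin (m + 2)) : s(M o, M (al τ o)) ≠ s(M o', M (be o')) := by
  intro hoo
  have key : ∀ x y : Q × Fin (m + 2) × Fin (m + 2), x.2.2 ≠ 0 → x.2.2 ≠ y.2.2 → M x ≠ M y := by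
    intro x y hx hxy he
    exact hxy (by rw [h.inj x y hx he])
  have h01 : o'.2.2 ≠ (be o').2.2 := by
    rw [matA_be]
    exact fun hh => matA_one hm _ hh.symm
  rw [Sym2.eq_iff] at hoo
  have key2 : ∀ x y : Q × Fin (m + 2) × Fin (m + 2), x.2.2 = y.2.2 →
      ¬ (M x = M o' ∧ M y = M (be o')) := by
    rintro x y hxy ⟨h1, h2⟩
    by_cases h0 : o'.2.2 = 0
    · have h3 := h.inj _ _ (matA_be1 o' h0) h2.symm
      have h4 : x.2.2 ≠ 0 := by
        rw [hxy, ← h3]
        exact matA_be1 o' h0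
      exact key x o' h4 (by rw [hxy, ← h3]; exact h01.symm) h1
    · have h3 := h.inj _ _ h0 h1.symm
      have h4 : y.2.2 ≠ 0 := by
        rw [← hxy, ← h3]
        exact h0
      exact key y (be o') h4 (by rw [← hxy, ← h3]; exact h01) h2
  rcases hoo with h1 | ⟨h1, h2⟩
  · exact key2 o (al τ o) (matA_al τ o).symm h1
  · exact key2 (al τ o) o (matA_al τ o) ⟨h2, h1⟩

theorem matA4 {m : ℕ} (hm : 1 ≤ m) {Q : Type} {M : Q × Fin (m + 2) × Fin (m + 2) → V}
    {col : Q → C} {τ : Equiv.Perm (Q × Fin (m + 2))} (h : Mat M col τ)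
    (o : Q × Fin (m + 2) × Fin (m + 2)) : M o ≠ M (al τ o) := by
  intro ho
  by_cases h0 : o.2.2 = 0
  · obtain ⟨q, i, j⟩ := o
    simp only at h0
    subst h0
    rw [matA_al0] at ho
    exact h.loop (q, i) ho
  · have h1 := h.inj _ _ h0 ho
    rw [matA_al' τ o h0] at h1
    have h2 := congrArg (fun p => p.2.1) h1
    simp only at h2
    exact matA_one hm _ h2.symm

theorem matA5 {m : ℕ} (hm : 1 ≤ m) {Q : Type} {M : Q × Fin (m + 2) × Fin (m + 2) → V}
    {col : Q → C} {τ : Equiv.Perm (Q × Fin (m + 2))} (h : Mat M col τ)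
    (o : Q × Fin (m + 2) × Fin (m + 2)) : M o ≠ M (be o) := by
  intro ho
  have key : be o ≠ o := by
    intro hh
    have h2 := congrArg (fun p => p.2.2) hh
    simp only [matA_be] at h2
    exact matA_one hm _ h2
  by_cases h0 : o.2.2 = 0
  · exact key (h.inj _ _ (matA_be1 o h0) ho.symm)
  · exact key (h.inj _ _ h0 ho).symm

end TFA
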