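import Mathlib
import Pool.Agent.TFA.Defs
import Pool.Agent.TFA.DcU
import Pool.Agent.TFA.MatA

/-!
TFA/MatB (difficulty 3). Rows and columns of the matrix as disjoint unions of coloured cycles.
`rowI M col` = row edges, pairs of column 0 and pairs of new entries = union over `κ = (q,i)` of
`cy (fun j => M (q,i,j)) (col q)`. `colI M col` = edges of the columns `j ≠ 0` and pairs of new entries
= union over `(q,j)`, `j ≠ 0`, of `cy (fun i => M (q,i,j)) (col q)`.
Proof of `matB1`: `rowI M col = univ.biUnion (fun κ : Q × Fin (m+2) => cy (fun j => M (κ.1,κ.2,j)) (col κ.1))`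
(by `ext`, membership), each `Dc` by `dc_single` (entries of a row are distinct: `h.inj` if one of
`j, j'` is nonzero), pairwise disjoint: edges by `matA2`; pairs: `(M o, col o.1) = (M o', col o'.1)` with
`o.2.2 ≠ 0` (or `o'.2.2 ≠ 0`) gives `o = o'` by `h.inj`; both `0`: `h.pairs`. Then `dc_biUnion`.
Proof of `matB2`: the same with index set `univ.filter (fun κ : Q × Fin (m+2) => κ.2 ≠ 0)` (`κ = (q,j)`);
edges by `matA1` (for `j ≠ 0`, `al τ (q,i,j) = (q,i+1,j)`) or directly from `h.inj`.
-/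

set_option autoImplicit false

namespace TFA

open Finset

variable {V C : Type} [DecidableEq V] [DecidableEq C]

/-- pairs of the old column -/
def oldP {m : ℕ} {Q : Type} [Fintype Q] (M : Q × Fin (m + 2) × Fin (m + 2) → V)
    (col : Q → C) : Finset (Item V C) :=
  univ.image (fun κ : Q × Fin (m + 2) => (Sum.inr (M (κ.1, κ.2, 0), col κ.1) : Item V C))

/-- pairs of the new entries -/
def newP {m : ℕ} {Q : Type} [Fintype Q] (M : Q × Fin (m + 2) × Fin (m + 2) → V)
    (col : Q → C) : Finset (Item V C) :=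
  (univ.filter (fun o : Q × Fin (m + 2) × Fin (m + 2) => o.2.2 ≠ 0)).image
    (fun o => (Sum.inr (M o, col o.1) : Item V C))

/-- row edges -/
def rowE (C : Type) [DecidableEq C] {m : ℕ} {Q : Type} [Fintype Q]
    (M : Q × Fin (m + 2) × Fin (m + 2) → V) : Finset (Item V C) :=
  univ.image (fun o => (Sum.inl s(M o, M (be o)) : Item V C))

/-- edges of the new columns -/
def colE (C : Type) [DecidableEq C] {m : ℕ} {Q : Type} [Fintype Q]
    (M : Q × Fin (m + 2) × Fin (m + 2) → V) : Finset (Item V C) :=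
  (univ.filter (fun o : Q × Fin (m + 2) × Fin (m + 2) => o.2.2 ≠ 0)).image
    (fun o => (Sum.inl s(M o, M (o.1, o.2.1 + 1, o.2.2)) : Item V C))

/-- edges of the old column, given by `τ` -/
def oldE (C : Type) [DecidableEq C] {m : ℕ} {Q : Type} [Fintype Q]
    (M : Q × Fin (m + 2) × Fin (m + 2) → V) (τ : Equiv.Perm (Q × Fin (m + 2))) :
    Finset (Item V C) :=
  univ.image (fun κ : Q × Fin (m + 2) =>
    (Sum.inl s(M (κ.1, κ.2, 0), M ((τ κ).1, (τ κ).2, 0)) : Item V C))

lemma matB_al_ne {m : ℕ} {Q : Type} (τ : Equiv.Perm (Q × Fin (m + 2)))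
    (o : Q × Fin (m + 2) × Fin (m + 2)) (h : o.2.2 ≠ 0) :
    al τ o = (o.1, o.2.1 + 1, o.2.2) := if_neg h

lemma matB_al_eq {m : ℕ} {Q : Type} (τ : Equiv.Perm (Q × Fin (m + 2)))
    (o : Q × Fin (m + 2) × Fin (m + 2)) (h : o.2.2 = 0) :
    al τ o = ((τ (o.1, o.2.1)).1, (τ (o.1, o.2.1)).2, 0) := if_pos h

theorem matB1 {m : ℕ} (hm : 1 ≤ m) {Q : Type} [Fintype Q] [DecidableEq Q]
    {M : Q × Fin (m + 2) × Fin (m + 2) → V}
    {col : Q → C} {τ : Equiv.Perm (Q × Fin (m + 2))} (h : Mat M col τ) :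
    Dc m (rowE C M ∪ oldP M col ∪ newP M col) := by
  classical
  have heq : (rowE C M ∪ oldP M col ∪ newP M col : Finset (Item V C)) =
      (univ : Finset (Q × Fin (m + 2))).biUnion
        (fun κ => cy (fun j => M (κ.1, κ.2, j)) (col κ.1)) := by
    ext i
    rcases i with e | p
    · simp only [rowE, oldP, newP, cy, mem_union, mem_image, mem_biUnion, mem_univ, true_and,
        mem_filter, Sum.inl.injEq, reduceCtorEq, and_false, exists_false, or_false]
      constructor
      · rintro ⟨o, rfl⟩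
        exact ⟨(o.1, o.2.1), o.2.2, rfl⟩
      · rintro ⟨κ, j, rfl⟩
        exact ⟨(κ.1, κ.2, j), rfl⟩
    · simp only [rowE, oldP, newP, cy, mem_union, mem_image, mem_biUnion, mem_univ, true_and,
        mem_filter, Sum.inr.injEq, reduceCtorEq, and_false, exists_false, false_or]
      constructor
      · rintro (⟨κ, rfl⟩ | ⟨o, _, rfl⟩)
        · exact ⟨κ, 0, rfl⟩
        · exact ⟨(o.1, o.2.1), o.2.2, rfl⟩
      · rintro ⟨κ, j, rfl⟩
        by_cases hj : j = 0
        · left
          exact ⟨κ, by rw [hj]⟩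
        · right
          exact ⟨(κ.1, κ.2, j), hj, rfl⟩
  rw [heq]
  apply dc_biUnion
  · intro κ _
    apply dc_single
    intro j j' hjj
    simp only at hjj
    by_cases hj : j = 0
    · by_cases hj' : j' = 0
      · rw [hj, hj']
      · have h1 := h.inj (κ.1, κ.2, j') (κ.1, κ.2, j) hj' hjj.symm
        simp only [Prod.mk.injEq, true_and] at h1
        exact h1.symm
    · have h1 := h.inj (κ.1, κ.2, j) (κ.1, κ.2, j') hj hjj
      simp only [Prod.mk.injEq, true_and] at h1
      exact h1
  · intro κ _ κ' _ hne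
    rw [disjoint_left]
    intro i hi hi'
    apply hne
    simp only [cy, mem_union, mem_image, mem_univ, true_and] at hi hi'
    rcases hi with ⟨j, rfl⟩ | ⟨j, rfl⟩
    · rcases hi' with ⟨j', h'⟩ | ⟨j', h'⟩
      · have h1 : (fun o => s(M o, M (be o))) (κ'.1, κ'.2, j') =
            (fun o => s(M o, M (be o))) (κ.1, κ.2, j) := Sum.inl.inj h'
        have h2 := matA2 hm h h1
        simp only [Prod.mk.injEq] at h2
        exact Prod.ext h2.1.symm h2.2.1.symm
      · exact absurd h' (by simp)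
    · rcases hi' with ⟨j', h'⟩ | ⟨j', h'⟩
      · exact absurd h' (by simp)
      · have h1 := Sum.inr.inj h'
        rw [Prod.mk.injEq] at h1
        by_cases hj : j = 0
        · by_cases hj' : j' = 0
          · subst hj
            subst hj'
            exact (h.pairs (Prod.ext h1.1 h1.2)).symm
          · have h2 := h.inj (κ'.1, κ'.2, j') (κ.1, κ.2, j) hj' h1.1
            simp only [Prod.mk.injEq] at h2
            exact Prod.ext h2.1.symm h2.2.1.symm
        · have h2 := h.inj (κ.1, κ.2, j) (κ'.1, κ'.2, j') hj h1.1.symm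
          simp only [Prod.mk.injEq] at h2
          exact Prod.ext h2.1 h2.2.1

theorem matB2 {m : ℕ} (hm : 1 ≤ m) {Q : Type} [Fintype Q] [DecidableEq Q]
    {M : Q × Fin (m + 2) × Fin (m + 2) → V}
    {col : Q → C} {τ : Equiv.Perm (Q × Fin (m + 2))} (h : Mat M col τ) :
    Dc m (colE C M ∪ newP M col) := by
  classical
  have heq : (colE C M ∪ newP M col : Finset (Item V C)) =
      ((univ : Finset (Q × Fin (m + 2))).filter (fun κ => κ.2 ≠ 0)).biUnion
        (fun κ => cy (fun i => M (κ.1, i, κ.2)) (col κ.1)) := by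
    ext i
    rcases i with e | p
    · simp only [colE, newP, cy, mem_union, mem_image, mem_biUnion, mem_univ, true_and,
        mem_filter, Sum.inl.injEq, reduceCtorEq, and_false, exists_false, or_false]
      constructor
      · rintro ⟨o, ho, rfl⟩
        exact ⟨(o.1, o.2.2), ho, o.2.1, rfl⟩
      · rintro ⟨κ, hκ, j, rfl⟩
        exact ⟨(κ.1, j, κ.2), hκ, rfl⟩
    · simp only [colE, newP, cy, mem_union, mem_image, mem_biUnion, mem_univ, true_and,
        mem_filter, Sum.inr.injEq, reduceCtorEq, and_false, exists_false, false_or]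
      constructor
      · rintro ⟨o, ho, rfl⟩
        exact ⟨(o.1, o.2.2), ho, o.2.1, rfl⟩
      · rintro ⟨κ, hκ, j, rfl⟩
        exact ⟨(κ.1, j, κ.2), hκ, rfl⟩
  rw [heq]
  apply dc_biUnion
  · intro κ hκ
    rw [mem_filter] at hκ
    apply dc_single
    intro j j' hjj
    simp only at hjj
    have h1 := h.inj (κ.1, j, κ.2) (κ.1, j', κ.2) hκ.2 hjj
    simp only [Prod.mk.injEq, true_and, and_true] at h1
    exact h1
  · intro κ hκ κ' hκ' hne
    rw [mem_filter] at hκ hκ'
    rw [disjoint_left]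
    intro i hi hi'
    apply hne
    simp only [cy, mem_union, mem_image, mem_univ, true_and] at hi hi'
    rcases hi with ⟨j, rfl⟩ | ⟨j, rfl⟩
    · rcases hi' with ⟨j', h'⟩ | ⟨j', h'⟩
      · have h1 : (fun o => s(M o, M (al τ o))) (κ'.1, j', κ'.2) =
            (fun o => s(M o, M (al τ o))) (κ.1, j, κ.2) := by
          simp only
          rw [matB_al_ne τ (κ'.1, j', κ'.2) hκ'.2, matB_al_ne τ (κ.1, j, κ.2) hκ.2]
          exact Sum.inl.inj h'
        have h2 := matA1 hm h h1
        simp only [Prod.mk.injEq] at h2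
        exact Prod.ext h2.1.symm h2.2.2.symm
      · exact absurd h' (by simp)
    · rcases hi' with ⟨j', h'⟩ | ⟨j', h'⟩
      · exact absurd h' (by simp)
      · have h1 := Sum.inr.inj h'
        rw [Prod.mk.injEq] at h1
        have h2 := h.inj (κ.1, j, κ.2) (κ'.1, j', κ'.2) hκ.2 h1.1.symm
        simp only [Prod.mk.injEq] at h2
        exact Prod.ext h2.1 h2.2.2

theorem matB3 {m : ℕ} {Q : Type} [Fintype Q] [DecidableEq Q]
    (M : Q × Fin (m + 2) × Fin (m + 2) → V) (τ : Equiv.Perm (Q × Fin (m + 2))) :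
    univ.image (fun o => (Sum.inl s(M o, M (al τ o)) : Item V C)) = oldE C M τ ∪ colE C M := by
  ext i
  simp only [oldE, colE, mem_union, mem_image, mem_univ, true_and, mem_filter]
  constructor
  · rintro ⟨o, rfl⟩
    by_cases h : o.2.2 = 0
    · left
      refine ⟨(o.1, o.2.1), ?_⟩
      rw [matB_al_eq τ o h]
      have h1 : o = (o.1, o.2.1, 0) := by rw [← h]
      rw [← h1]
    · right
      exact ⟨o, h, by rw [matB_al_ne τ o h]⟩
  · rintro (⟨κ, rfl⟩ | ⟨o, h, rfl⟩)
    · exact ⟨(κ.1, κ.2, 0), by rw [matB_al_eq τ (κ.1, κ.2, 0) rfl]⟩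
    · exact ⟨o, by rw [matB_al_ne τ o h]⟩

end TFA
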