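import Mathlib
import Pool.Agent.TFA.Defs
import Pool.Agent.TFA.DcU
import Pool.Agent.TFA.MatA
import Pool.Agent.TFA.MatB

/-!
TFA/MatC (difficulty 2). From the long switch to the absorber (pure part).
`L = oldE ∪ oldP`, `X = rowE ∪ colE ∪ newP`, `R = T ∪ X`.
`L ∪ R = (image al ∪ T) ∪ (rowE ∪ oldP ∪ newP)` where `image al = oldE ∪ colE` (`matB3`), and
`R = (rowE ∪ T) ∪ (colE ∪ newP)`. Both unions are disjoint: `T` is disjoint from `L ∪ X` (`hT`);
`image al` against `rowE`: `matA3`; edges against pairs: different constructors of the sum;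
`rowE` against `colE`: `colE ⊆ image al` and `matA3`. Then `dc_union` with `hA, hB, matB1, matB2`.
-/

set_option autoImplicit false

namespace TFA

open Finset

variable {V C : Type} [DecidableEq V] [DecidableEq C]

theorem matC {m : ℕ} (hm : 1 ≤ m) {Q : Type} [Fintype Q] [DecidableEq Q]
    {M : Q × Fin (m + 2) × Fin (m + 2) → V}
    {col : Q → C} {τ : Equiv.Perm (Q × Fin (m + 2))} (h : Mat M col τ) (T : Finset (Item V C))
    (hT : Disjoint T (oldE C M τ ∪ oldP M col ∪ (rowE C M ∪ colE C M ∪ newP M col)))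
    (hA : Dc m (univ.image (fun o => (Sum.inl s(M o, M (al τ o)) : Item V C)) ∪ T))
    (hB : Dc m (univ.image (fun o => (Sum.inl s(M o, M (be o)) : Item V C)) ∪ T)) :
    Dc m (T ∪ (rowE C M ∪ colE C M ∪ newP M col)) ∧
      Dc m ((oldE C M τ ∪ oldP M col) ∪ (T ∪ (rowE C M ∪ colE C M ∪ newP M col))) := by
  classical
  rw [matB3] at hA
  have hB' : Dc m (rowE C M ∪ T) := hB
  simp only [disjoint_union_right] at hT
  obtain ⟨⟨hT1, hT2⟩, ⟨hT3, hT4⟩, hT5⟩ := hT
  -- edges against pairs
  have hRO : Disjoint (rowE C M) (oldP M col) := by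
    rw [disjoint_left]
    intro i hi hi'
    simp only [rowE, oldP, mem_image, mem_univ, true_and] at hi hi'
    obtain ⟨o, rfl⟩ := hi
    obtain ⟨κ, hκ⟩ := hi'
    exact absurd hκ (by simp)
  have hRN : Disjoint (rowE C M) (newP M col) := by
    rw [disjoint_left]
    intro i hi hi'
    simp only [rowE, newP, mem_image, mem_univ, true_and] at hi hi'
    obtain ⟨o, rfl⟩ := hi
    obtain ⟨κ, _, hκ⟩ := hi'
    exact absurd hκ (by simp)
  have hCN : Disjoint (colE C M) (newP M col) := by
    rw [disjoint_left]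
    intro i hi hi'
    simp only [colE, newP, mem_image] at hi hi'
    obtain ⟨o, _, rfl⟩ := hi
    obtain ⟨κ, _, hκ⟩ := hi'
    exact absurd hκ (by simp)
  have hCO : Disjoint (colE C M) (oldP M col) := by
    rw [disjoint_left]
    intro i hi hi'
    simp only [colE, oldP, mem_image] at hi hi'
    obtain ⟨o, _, rfl⟩ := hi
    obtain ⟨κ, _, hκ⟩ := hi'
    exact absurd hκ (by simp)
  have hEN : Disjoint (oldE C M τ) (newP M col) := by
    rw [disjoint_left]
    intro i hi hi'
    simp only [oldE, newP, mem_image] at hi hi'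
    obtain ⟨o, _, rfl⟩ := hi
    obtain ⟨κ, _, hκ⟩ := hi'
    exact absurd hκ (by simp)
  have hEO : Disjoint (oldE C M τ) (oldP M col) := by
    rw [disjoint_left]
    intro i hi hi'
    simp only [oldE, oldP, mem_image] at hi hi'
    obtain ⟨o, _, rfl⟩ := hi
    obtain ⟨κ, _, hκ⟩ := hi'
    exact absurd hκ (by simp)
  have hAR : Disjoint (oldE C M τ ∪ colE C M) (rowE C M) := by
    rw [← matB3, disjoint_left]
    intro i hi hi'
    simp only [rowE, mem_image, mem_univ, true_and] at hi hi'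
    obtain ⟨o, rfl⟩ := hi
    obtain ⟨o', ho'⟩ := hi'
    exact matA3 hm h o o' (Sum.inl.inj ho').symm
  rw [disjoint_union_left] at hAR
  have e1 : (T ∪ (rowE C M ∪ colE C M ∪ newP M col) : Finset (Item V C)) =
      (rowE C M ∪ T) ∪ (colE C M ∪ newP M col) := by
    ext i
    simp only [mem_union]
    tauto
  have e2 : ((oldE C M τ ∪ oldP M col) ∪ (T ∪ (rowE C M ∪ colE C M ∪ newP M col)) :
      Finset (Item V C)) =
      (oldE C M τ ∪ colE C M ∪ T) ∪ (rowE C M ∪ oldP M col ∪ newP M col) := by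
    ext i
    simp only [mem_union]
    tauto
  rw [e2, e1]
  constructor
  · apply dc_union hB' (matB2 hm h)
    simp only [disjoint_union_left, disjoint_union_right]
    exact ⟨⟨hAR.2.symm, hT4⟩, hRN, hT5⟩
  · apply dc_union hA (matB1 hm h)
    simp only [disjoint_union_left, disjoint_union_right]
    exact ⟨⟨⟨⟨hAR.1, hAR.2⟩, hT3⟩, ⟨hEO, hCO⟩, hT2⟩, ⟨hEN, hCN⟩, hT5⟩

end TFA
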