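import Mathlib
import Pool.Agent.TFA.Defs
import Pool.Agent.TFA.Grd

/-!
TFA/MatG (difficulty 3). The new entries of the matrix in the host.
Proof: `greedy` with `ι := Q × Fin (m+2) × Fin (m+1)`; the index `(q,i,j)` stands for the matrix
position `(q, i, j.succ)`. Rank `rk (q,i,j) = j * (m+2) + i`.
`con (q,i,j)` = (`{(q, i-1, j)}` if `i ≠ 0`) ∪ (`{(q, 0, j)}` if `i = last (m+1)`) ∪
 (`{(q, i, j-1)}` if `j ≠ 0`) (as values: `⟨i.val - 1, _⟩` etc.), all of smaller rank (`last ≥ 2 > 0`);
`cW (q,i,j)` = `{v q i}` if `j = 0` or `j = last m`, else `∅`.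
Cards: if `j = 0`: `con` has at most 2 elements and `cW` one; otherwise `con` at most 3, `cW` at most 1.
Result `f`; `M (q,i,j) := if j = 0 then v q i else f (q, i, j.pred _)`; (or with `Fin.cases`.)
`M (q,i,0) = v q i`: `rfl`/`simp`. `inj`: `f` injective and its values are not in `W` while
`v q i ∈ W`. New entries not in `W`. Column edges for `j ≠ 0`: `M(q,i,j) ~ M(q,i+1,j)`: if
`i ≠ last`, it is the first constraint of `i + 1`; if `i = last` then `i + 1 = 0` and it is the second
constraint of `last`. Row edges `M(q,i,j) ~ M(q,i,j+1)` for all `j : Fin (m+2)`: `j = 0`: `M(q,i,1)` has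
`cW ∋ v q i`; `1 ≤ j < m+1`: third constraint of `j+1`; `j = m+1 = last`: `j + 1 = 0` and `M(q,i,last)`
(index `last m`) has `cW ∋ v q i`. (`G.Adj` is symmetric.)
-/

set_option autoImplicit false

namespace TFA

open Finset

variable {V : Type} [DecidableEq V]

/-- old positions in the conditions at the new position `(q, i, j)` -/
def matGcon {m : ℕ} {Q : Type} [DecidableEq Q] (x : Q × Fin (m + 2) × Fin (m + 1)) :
    Finset (Q × Fin (m + 2) × Fin (m + 1)) :=
  (if x.2.1 = 0 then ∅ else {(x.1, x.2.1 - 1, x.2.2)}) ∪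
    (if x.2.1 + 1 = 0 then {(x.1, 0, x.2.2)} else ∅) ∪
    (if x.2.2 = 0 then ∅ else {(x.1, x.2.1, x.2.2 - 1)})

/-- the matrix -/
def matGM {m : ℕ} {Q : Type} (v : Q → Fin (m + 2) → V) (f : Q × Fin (m + 2) × Fin (m + 1) → V)
    (o : Q × Fin (m + 2) × Fin (m + 2)) : V :=
  Fin.cases (motive := fun _ => V) (v o.1 o.2.1) (fun j => f (o.1, o.2.1, j)) o.2.2

theorem matG {G : SimpleGraph V} {k m : ℕ} (hG : Host G k) (hm : 1 ≤ m) {Q : Type} [Fintype Q]
    [DecidableEq Q] (W : Finset V) (v : Q → Fin (m + 2) → V) (hv : ∀ q i, v q i ∈ W)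
    (hW : W.card + Fintype.card Q * (m + 2) * (m + 1) ≤ k) :
    ∃ M : Q × Fin (m + 2) × Fin (m + 2) → V, (∀ q i, M (q, i, 0) = v q i) ∧
      (∀ o o' : Q × Fin (m + 2) × Fin (m + 2), o.2.2 ≠ 0 → M o = M o' → o = o') ∧
      (∀ o : Q × Fin (m + 2) × Fin (m + 2), o.2.2 ≠ 0 → M o ∉ W) ∧
      (∀ o : Q × Fin (m + 2) × Fin (m + 2), o.2.2 ≠ 0 → G.Adj (M o) (M (o.1, o.2.1 + 1, o.2.2))) ∧
      (∀ o : Q × Fin (m + 2) × Fin (m + 2), G.Adj (M o) (M (o.1, o.2.1, o.2.2 + 1))) := by
  have hcon : ∀ x : Q × Fin (m + 2) × Fin (m + 1), ∀ y ∈ matGcon x,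
      (y.2.2 : ℕ) * (m + 2) + (y.2.1 : ℕ) < (x.2.2 : ℕ) * (m + 2) + (x.2.1 : ℕ) := by
    rintro ⟨q, i, j⟩ y hy
    simp only [matGcon, mem_union] at hy
    rcases hy with (hy | hy) | hy
    · by_cases h0 : i = 0
      · simp [h0] at hy
      · rw [if_neg h0, mem_singleton] at hy
        subst hy
        simp only
        have h1 : (i - 1).val = i.val - 1 := Fin.val_sub_one_of_ne_zero h0
        have h2 : i.val ≠ 0 := fun h => h0 (Fin.ext h)
        rw [h1]
        omega
    · by_cases h0 : i + 1 = 0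
      · rw [if_pos h0, mem_singleton] at hy
        subst hy
        simp only
        have h2 : i.val ≠ 0 := by
          intro h
          have h3 : i = 0 := Fin.ext h
          rw [h3] at h0
          simp at h0
        have h3 : ((0 : Fin (m + 2)) : ℕ) = 0 := rfl
        rw [h3]
        omega
      · rw [if_neg h0] at hy
        simp at hy
    · by_cases h0 : j = 0
      · simp [h0] at hy
      · rw [if_neg h0, mem_singleton] at hy
        subst hy
        simp only
        have h1 : (j - 1).val = j.val - 1 := Fin.val_sub_one_of_ne_zero h0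
        have h2 : j.val ≠ 0 := fun h => h0 (Fin.ext h)
        rw [h1]
        obtain ⟨t, ht⟩ : ∃ t, j.val = t + 1 := ⟨j.val - 1, by omega⟩
        rw [ht]
        have : (t + 1 - 1) * (m + 2) + (m + 2) = (t + 1) * (m + 2) := by
          rw [Nat.add_sub_cancel]
          ring
        omega
  have hcard : ∀ x : Q × Fin (m + 2) × Fin (m + 1), (matGcon x).card +
      (if x.2.2 = 0 ∨ x.2.2 = Fin.last m then ({v x.1 x.2.1} : Finset V) else ∅).card ≤ 4 := by
    rintro ⟨q, i, j⟩
    have hA : (if i = 0 then (∅ : Finset (Q × Fin (m + 2) × Fin (m + 1)))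
        else {(q, i - 1, j)}).card ≤ 1 := by
      split_ifs <;> simp
    have hB : (if i + 1 = 0 then ({(q, 0, j)} : Finset (Q × Fin (m + 2) × Fin (m + 1)))
        else ∅).card ≤ 1 := by
      split_ifs <;> simp
    have hC : (if j = 0 then (∅ : Finset (Q × Fin (m + 2) × Fin (m + 1)))
        else {(q, i, j - 1)}).card ≤ 1 := by
      split_ifs <;> simp
    have hD : (if j = 0 ∨ j = Fin.last m then ({v q i} : Finset V) else ∅).card ≤ 1 := by
      split_ifs <;> simp
    have hU : (matGcon (q, i, j)).card ≤ 3 := by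
      unfold matGcon
      refine (card_union_le _ _).trans ?_
      have := card_union_le (if i = 0 then (∅ : Finset (Q × Fin (m + 2) × Fin (m + 1)))
        else {(q, i - 1, j)}) (if i + 1 = 0 then ({(q, 0, j)} : Finset (Q × Fin (m + 2) × Fin (m + 1)))
        else ∅)
      simp only
      omega
    simp only
    omega
  obtain ⟨f, finj, fW, fcon, fc⟩ := greedy hG (ι := Q × Fin (m + 2) × Fin (m + 1))
    (fun x => (x.2.2 : ℕ) * (m + 2) + (x.2.1 : ℕ)) matGcon hcon
    (fun x => if x.2.2 = 0 ∨ x.2.2 = Fin.last m then {v x.1 x.2.1} else ∅) hcard W (by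
      rw [Fintype.card_prod, Fintype.card_prod, Fintype.card_fin, Fintype.card_fin, ← mul_assoc]
      exact hW)
  have hMs : ∀ (q : Q) (i : Fin (m + 2)) (j : Fin (m + 1)),
      matGM v f (q, i, j.succ) = f (q, i, j) := fun q i j => rfl
  have hM0 : ∀ (q : Q) (i : Fin (m + 2)), matGM v f (q, i, 0) = v q i := fun q i => rfl
  refine ⟨matGM v f, hM0, ?_, ?_, ?_, ?_⟩
  · rintro ⟨q, i, j⟩ ⟨q', i', j'⟩ h0 he
    obtain ⟨j, rfl⟩ := Fin.exists_succ_eq.2 h0
    by_cases h1 : j' = 0
    · subst h1
      rw [hMs, hM0] at he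
      exact absurd (by rw [he]; exact hv _ _) (fW (q, i, j))
    · obtain ⟨j', rfl⟩ := Fin.exists_succ_eq.2 h1
      rw [hMs, hMs] at he
      have h2 := finj he
      rw [Prod.mk.injEq, Prod.mk.injEq] at h2
      rw [h2.1, h2.2.1, h2.2.2]
  · rintro ⟨q, i, j⟩ h0
    obtain ⟨j, rfl⟩ := Fin.exists_succ_eq.2 h0
    rw [hMs]
    exact fW _
  · rintro ⟨q, i, j⟩ h0
    obtain ⟨j, rfl⟩ := Fin.exists_succ_eq.2 h0
    simp only
    rw [hMs, hMs]
    by_cases h1 : i + 1 = 0
    · rw [h1]
      refine fcon (q, i, j) (q, 0, j) ?_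
      simp only [matGcon, mem_union]
      left; right
      rw [if_pos h1]
      exact mem_singleton_self _
    · refine (fcon (q, i + 1, j) (q, i, j) ?_).symm
      simp only [matGcon, mem_union]
      left; left
      rw [if_neg h1, add_sub_cancel_right]
      exact mem_singleton_self _
  · rintro ⟨q, i, j⟩
    simp only
    by_cases h0 : j = 0
    · subst h0
      have h1 : (0 : Fin (m + 2)) + 1 = (0 : Fin (m + 1)).succ := by
        rw [zero_add]; rfl
      rw [h1, hMs, hM0]
      refine (fc (q, i, 0) (v q i) ?_).symm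
      simp
    · obtain ⟨j, rfl⟩ := Fin.exists_succ_eq.2 h0
      by_cases h1 : j = Fin.last m
      · subst h1
        have h2 : (Fin.last m).succ + 1 = (0 : Fin (m + 2)) := by
          rw [Fin.succ_last]
          exact Fin.last_add_one _
        rw [h2, hMs, hM0]
        refine fc (q, i, Fin.last m) (v q i) ?_
        simp
      · have h3 : j.val < m := by
          have := j.isLt
          have h4 : j.val ≠ m := fun h => h1 (Fin.ext h)
          omega
        have h5 : (j + 1).val = j.val + 1 := Fin.val_add_one_of_lt (by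
          rw [Fin.lt_def]; exact h3)
        have h2 : j.succ + 1 = (j + 1).succ := by
          apply Fin.ext
          rw [Fin.val_succ, h5, Fin.val_add_one_of_lt, Fin.val_succ]
          rw [Fin.lt_def, Fin.val_succ, Fin.val_last]
          omega
        rw [h2, hMs, hMs]
        refine (fcon (q, i, j + 1) (q, i, j) ?_).symm
        simp only [matGcon, mem_union]
        right
        have h6 : j + 1 ≠ 0 := by
          intro h
          have := congrArg Fin.val h
          rw [h5] at this
          simp at this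
        rw [if_neg h6, add_sub_cancel_right]
        exact mem_singleton_self _

end TFA
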