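import Mathlib

/-!
TFA/Inv (difficulty 3). Two fixed point free involutions of a finite set have a common proper
2-colouring.
-/

set_option autoImplicit false

namespace TFA

theorem inv2_lin {Q : Type} [Finite Q] (φ : Q → Q) (h : Function.Involutive φ)
    (h' : ∀ q, φ q ≠ q) : ∃ f : Q → Bool, ∀ q, f (φ q) = !f q := by
  classical
  obtain ⟨n, ⟨e⟩⟩ := Finite.exists_equiv_fin Q
  refine ⟨fun q => decide (e q < e (φ q)), fun q => ?_⟩
  have h1 : e (φ q) ≠ e q := fun hh => h' q (e.injective hh)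
  simp only [h q]
  by_cases hlt : e q < e (φ q)
  · have : ¬ e (φ q) < e q := not_lt.mpr hlt.le
    simp [hlt, this]
  · have : e (φ q) < e q := lt_of_le_of_ne (not_lt.mp hlt) h1
    simp [hlt, this]

theorem inv2 {K : Type} [Fintype K] [DecidableEq K] (a b : K → K) (ha : Function.Involutive a)
    (hb : Function.Involutive b) (ha' : ∀ k, a k ≠ k) (hb' : ∀ k, b k ≠ k) :
    ∃ f : K → Bool, (∀ k, f (a k) = !f k) ∧ (∀ k, f (b k) = !f k) := by
  classical
  obtain ⟨A, hA⟩ : ∃ A : Equiv.Perm K, ∀ k, A k = a k := ⟨ha.toPerm, fun k => rfl⟩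
  obtain ⟨B, hB⟩ : ∃ B : Equiv.Perm K, ∀ k, B k = b k := ⟨hb.toPerm, fun k => rfl⟩
  have hAA : A * A = 1 := by
    ext k; simp [hA, ha k]
  have hBB : B * B = 1 := by
    ext k; simp [hB, hb k]
  have hAi : A⁻¹ = A := inv_eq_of_mul_eq_one_left hAA
  have hBi : B⁻¹ = B := inv_eq_of_mul_eq_one_left hBB
  set τ : Equiv.Perm K := A * B with hτ
  have hτk : ∀ k, τ k = a (b k) := fun k => by simp [hτ, hA, hB]
  have hτi : τ⁻¹ = B * A := by rw [hτ, mul_inv_rev, hAi, hBi]
  have hconj : ∀ i : ℤ, A * τ ^ i = τ ^ (-i) * A := by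
    intro i
    have h1 : A * τ * A⁻¹ = τ⁻¹ := by
      rw [hτi, hτ, hAi, ← mul_assoc, hAA, one_mul]
    have h2 : A * τ ^ i * A⁻¹ = τ ^ (-i) := by
      rw [← conj_zpow, h1, inv_zpow, zpow_neg]
    rw [← h2, inv_mul_cancel_right]
  have hconj' : ∀ (i : ℤ) k, a ((τ ^ i) k) = (τ ^ (-i)) (a k) := by
    intro i k
    have := congrArg (fun P : Equiv.Perm K => P k) (hconj i)
    simpa [hA] using this
  -- claim
  have hclaim : ∀ k, ¬ τ.SameCycle k (a k) := by
    rintro k ⟨i, hi⟩
    rcases Int.even_or_odd' i with ⟨j, rfl | rfl⟩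
    · apply ha' ((τ ^ j) k)
      rw [hconj', ← hi, ← Equiv.Perm.mul_apply, ← zpow_add]
      congr 2
      ring
    · apply hb' ((τ ^ j) k)
      have h3 : ∀ x, b x = a (τ x) := fun x => by rw [hτk, ha]
      rw [h3]
      have h4 : τ ((τ ^ j) k) = (τ ^ (j + 1)) k := by
        rw [← Equiv.Perm.mul_apply, ← zpow_one_add, add_comm]
      rw [h4, hconj', ← hi, ← Equiv.Perm.mul_apply, ← zpow_add]
      congr 2
      ring
  have hmap : ∀ k l, τ.SameCycle k l → τ.SameCycle (a k) (a l) := by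
    rintro k l ⟨i, rfl⟩
    exact ⟨-i, by rw [hconj']⟩
  have hba : ∀ k, τ.SameCycle (b k) (a k) := by
    intro k
    refine ⟨1, ?_⟩
    rw [zpow_one, hτk, hb]
  let S : Setoid K := Equiv.Perm.SameCycle.setoid τ
  let Q := Quotient S
  have : Finite Q := Quotient.finite S
  let φ : Q → Q := Quotient.map a (fun k l h => hmap k l h)
  obtain ⟨f, hf⟩ := inv2_lin φ (by
    intro q
    induction q using Quotient.inductionOn with
    | h k =>
      show φ (φ (Quotient.mk S k)) = Quotient.mk S k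
      show Quotient.mk S (a (a k)) = Quotient.mk S k
      rw [ha]) (by
    intro q
    induction q using Quotient.inductionOn with
    | h k =>
      intro h
      have h2 : Quotient.mk S (a k) = Quotient.mk S k := h
      have h3 : τ.SameCycle (a k) k := Quotient.exact h2
      exact hclaim k h3.symm)
  refine ⟨fun k => f (Quotient.mk S k), fun k => hf (Quotient.mk S k), fun k => ?_⟩
  have h5 : Quotient.mk S (b k) = Quotient.mk S (a k) := Quotient.sound (hba k)
  show f (Quotient.mk S (b k)) = !f (Quotient.mk S k)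
  rw [h5]
  exact hf (Quotient.mk S k)

end TFA
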