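import Mathlib
import Pool.Agent.TFA.Inv

/-!
TFA/Tau (difficulty 4). Closed trails without trails: an edge set `H` in which the degree of every
vertex `x` is twice the number of `k : K` with `v k = x` is `{v(k) v(τ k) : k ∈ K}` for a permutation
`τ` of `K`, bijectively.
Proof: `D := {d : V × Sym2 V // d.2 ∈ H ∧ d.1 ∈ d.2}` (darts, finite as `V` is a fintype). Flip
`a d := (other end, d.2)` (`Sym2.Mem.other'`), a fixed point free involution (no loops, `hloop`), for
which `d.2` stays and the two ends of the edge are `d.1` and `(a d).1`: `d.2 = s(d.1, (a d).1)`.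
For every `x` the number of darts with `d.1 = x` is `#{e ∈ H : x ∈ e} = 2 #{k : v k = x} =
#{κ : K × Bool : v κ.1 = x}`. Hence there is a bijection `φ : D ≃ K × Bool` with
`v (φ d).1 = d.1` (fibrewise: `Equiv.sigmaFiberEquiv` on both sides with `Equiv.sigmaCongrRight` and
`Fintype.equivOfCardEq` of the fibres; a general lemma: for `f : A → X`, `g : B → X`, `A, B` fintypes,
with equal fibre cards there is `φ : A ≃ B` with `g (φ a) = f a`). On `K × Bool` let
`a' := φ ∘ a ∘ φ⁻¹` and `b (k, t) := (k, !t)`. `inv2 a' b` gives `f : K × Bool → Bool`.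
For every `k` exactly one of `(k, true), (k, false)` has `f = true`: call it `out k := (k, t)`
(`t` with `f (k, t) = true`), and the other one `(k, !t)` has `f = false`. Define
`τ k := (a' (out k)).1`. `f (a' (out k)) = false`, so `a' (out k)` is the `f = false` element of its
fibre; hence `τ` is injective: `τ k = τ k'` gives `a' (out k) = a' (out k')` (both are the
`f = false` element over the same point), so `out k = out k'`, `k = k'`. Finite, so bijective.
Edge: let `d = φ⁻¹ (out k)`; `d.1 = v k`, `(a d).1 = v (τ k)`, so `d.2 = s(v k, v (τ k)) ∈ H`.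
Injectivity of `k ↦ s(v k, v (τ k)) = (φ⁻¹ (out k)).2`: two darts with the same edge are equal or
flips of each other; `φ⁻¹(out k') = a (φ⁻¹ (out k))` is impossible as `f (out k') = true` but
`f (a' (out k)) = false`. Surjectivity onto `H`: `e ∈ H`, pick `x ∈ e`, dart `d = (x, e)`; one of
`d, a d` has `f (φ ·) = true`; it is `φ⁻¹ (out k)` for `k = (φ ·).1`, and its edge is `e`.
-/

set_option autoImplicit false

namespace TFA

open Finset

lemma tau_fib {A B X : Type} [Fintype A] [Fintype B] [DecidableEq X] (f : A → X) (g : B → X)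
    (h : ∀ x, (univ.filter (fun a => f a = x)).card = (univ.filter (fun b => g b = x)).card) :
    ∃ φ : A ≃ B, ∀ a, g (φ a) = f a := by
  classical
  have e : ∀ x, Nonempty ({a // f a = x} ≃ {b // g b = x}) := by
    intro x
    apply Fintype.card_eq.mp
    rw [Fintype.card_subtype, Fintype.card_subtype]
    exact h x
  let e' : ∀ x, {a // f a = x} ≃ {b // g b = x} := fun x => (e x).some
  refine ⟨(Equiv.sigmaFiberEquiv f).symm.trans ((Equiv.sigmaCongrRight e').trans
    (Equiv.sigmaFiberEquiv g)), fun a => ?_⟩
  exact (e' (f a) ⟨a, rfl⟩).2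

theorem tau {V : Type} [Fintype V] [DecidableEq V] (H : Finset (Sym2 V))
    (hloop : ∀ e ∈ H, ¬ e.IsDiag) {K : Type} [Fintype K] [DecidableEq K] (v : K → V)
    (hdeg : ∀ x, (H.filter (fun e => x ∈ e)).card = 2 * (univ.filter (fun k => v k = x)).card) :
    ∃ τ : Equiv.Perm K, Function.Injective (fun k => s(v k, v (τ k))) ∧
      univ.image (fun k => s(v k, v (τ k))) = H := by
  classical
  let D : Type := {d : V × Sym2 V // d.2 ∈ H ∧ d.1 ∈ d.2}
  let a : D → D := fun d => ⟨(Sym2.Mem.other d.2.2, d.1.2), d.2.1, Sym2.other_mem _⟩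
  have ha : Function.Involutive a := by
    rintro ⟨⟨x, e⟩, h1, h2⟩
    apply Subtype.ext
    apply Prod.ext
    · exact Sym2.other_invol h2 _
    · rfl
  have haspec : ∀ d : D, s(d.1.1, (a d).1.1) = d.1.2 := fun d => Sym2.other_spec d.2.2
  have ha2 : ∀ d : D, (a d).1.2 = d.1.2 := fun d => rfl
  have hane : ∀ d : D, a d ≠ d := by
    intro d hd
    exact Sym2.other_ne (hloop _ d.2.1) d.2.2 (congrArg (fun d : D => d.1.1) hd)
  -- darts with the same edge
  have hsame : ∀ d d' : D, d.1.2 = d'.1.2 → d = d' ∨ d' = a d := by
    intro d d' h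
    have h1 : d'.1.1 ∈ s(d.1.1, (a d).1.1) := by
      rw [haspec d, h]; exact d'.2.2
    rw [Sym2.mem_iff] at h1
    rcases h1 with h1 | h1
    · left; apply Subtype.ext; exact Prod.ext h1.symm h
    · right; apply Subtype.ext; exact Prod.ext h1 (by rw [ha2 d]; exact h.symm)
  have hfib : ∀ x, (univ.filter (fun d : D => d.1.1 = x)).card =
      (univ.filter (fun κ : K × Bool => v κ.1 = x)).card := by
    intro x
    have h1 : (univ.filter (fun d : D => d.1.1 = x)).card = (H.filter (fun e => x ∈ e)).card := by
      apply Finset.card_bij (fun d _ => d.1.2)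
      · intro d hd
        rw [mem_filter] at hd ⊢
        refine ⟨d.2.1, ?_⟩
        have := d.2.2
        rw [hd.2] at this
        exact this
      · intro d hd d' hd' h
        rw [mem_filter] at hd hd'
        apply Subtype.ext
        exact Prod.ext (hd.2.trans hd'.2.symm) h
      · intro e he
        rw [mem_filter] at he
        exact ⟨⟨(x, e), he.1, he.2⟩, by simp, rfl⟩
    have h2 : (univ.filter (fun κ : K × Bool => v κ.1 = x)) =
        (univ.filter (fun k => v k = x)) ×ˢ (univ : Finset Bool) := by
      ext ⟨k, t⟩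
      simp
    rw [h1, hdeg x, h2, card_product]
    simp [mul_comm]
  obtain ⟨φ, hφ⟩ := tau_fib (fun d : D => d.1.1) (fun κ : K × Bool => v κ.1) hfib
  let a' : K × Bool → K × Bool := fun κ => φ (a (φ.symm κ))
  let b : K × Bool → K × Bool := fun κ => (κ.1, !κ.2)
  have ha' : Function.Involutive a' := by
    intro κ
    simp only [a', Equiv.symm_apply_apply, ha (φ.symm κ), Equiv.apply_symm_apply]
  have hb : Function.Involutive b := by
    rintro ⟨k, t⟩
    simp [b]
  have ha'ne : ∀ κ, a' κ ≠ κ := by
    intro κ h
    apply hane (φ.symm κ)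
    apply φ.injective
    rw [Equiv.apply_symm_apply]
    exact h
  have hbne : ∀ κ, b κ ≠ κ := by
    rintro ⟨k, t⟩ h
    simp [b] at h
  obtain ⟨f, hfa, hfb⟩ := inv2 a' b ha' hb ha'ne hbne
  have hout : ∀ k : K, ∃ t, f (k, t) = true ∧ f (k, !t) = false := by
    intro k
    have h1 := hfb (k, true)
    simp only [b, Bool.not_true] at h1
    cases h : f (k, true) with
    | true => exact ⟨true, h, by rw [h] at h1; simpa using h1⟩
    | false => exact ⟨false, by rw [h] at h1; simpa using h1, by simpa using h⟩
  choose t ht1 ht2 using hout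
  let out : K → K × Bool := fun k => (k, t k)
  have hfout : ∀ k, f (out k) = true := ht1
  -- element with f = true over k is out k
  have huniq1 : ∀ κ : K × Bool, f κ = true → κ = out κ.1 := by
    rintro ⟨k, s⟩ hs
    by_cases h : s = t k
    · simp [out, h]
    · have : s = !(t k) := by
        cases s <;> cases h' : t k <;> simp_all
      subst this
      rw [ht2 k] at hs
      exact absurd hs (by simp)
  have huniq0 : ∀ κ κ' : K × Bool, f κ = false → f κ' = false → κ.1 = κ'.1 → κ = κ' := by
    rintro ⟨k, s⟩ ⟨k', s'⟩ hs hs' hk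
    simp only at hk
    subst hk
    have h1 : s ≠ t k := by
      rintro rfl
      rw [ht1 k] at hs
      exact absurd hs (by simp)
    have h2 : s' ≠ t k := by
      rintro rfl
      rw [ht1 k] at hs'
      exact absurd hs' (by simp)
    have : s = s' := by
      cases s <;> cases s' <;> cases h' : t k <;> simp_all
    rw [this]
  let τ0 : K → K := fun k => (a' (out k)).1
  have hfa' : ∀ k, f (a' (out k)) = false := by
    intro k
    rw [hfa, hfout]
    rfl
  have hinj : Function.Injective τ0 := by
    intro k k' h
    have h1 : a' (out k) = a' (out k') := huniq0 _ _ (hfa' k) (hfa' k') h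
    have h2 : out k = out k' := ha'.injective h1
    exact congrArg Prod.fst h2
  let τ : Equiv.Perm K := Equiv.ofBijective τ0 (Finite.injective_iff_bijective.mp hinj)
  have hv : ∀ κ : K × Bool, v κ.1 = (φ.symm κ).1.1 := by
    intro κ
    have := hφ (φ.symm κ)
    rw [Equiv.apply_symm_apply] at this
    exact this
  have hedge : ∀ k, s(v k, v (τ k)) = (φ.symm (out k)).1.2 := by
    intro k
    have h1 : v k = (φ.symm (out k)).1.1 := hv (out k)
    have h2 : v (τ k) = (a (φ.symm (out k))).1.1 := by
      have h3 : v (τ k) = v (a' (out k)).1 := rfl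
      rw [h3, hv (a' (out k))]
      simp only [a', Equiv.symm_apply_apply]
    rw [h1, h2]
    exact haspec _
  refine ⟨τ, ?_, ?_⟩
  · intro k k' h
    simp only at h
    rw [hedge k, hedge k'] at h
    rcases hsame _ _ h with h1 | h1
    · have h2 := φ.symm.injective h1
      exact congrArg Prod.fst h2
    · exfalso
      have h2 : out k' = a' (out k) := by
        have h3 := congrArg φ h1
        rw [Equiv.apply_symm_apply] at h3
        exact h3
      have h3 := hfout k'
      rw [h2, hfa' k] at h3
      exact absurd h3 (by simp)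
  · ext e
    rw [mem_image]
    constructor
    · rintro ⟨k, _, rfl⟩
      rw [hedge k]
      exact (φ.symm (out k)).2.1
    · intro he
      obtain ⟨x, hx⟩ : ∃ x, x ∈ e := by
        induction e with
        | _ x y => exact ⟨x, by simp⟩
      let d : D := ⟨(x, e), he, hx⟩
      cases h : f (φ d) with
      | true =>
        refine ⟨(φ d).1, mem_univ _, ?_⟩
        rw [hedge, ← huniq1 _ h, Equiv.symm_apply_apply]
      | false =>
        have h1 : f (φ (a d)) = true := by
          have h2 : a' (φ d) = φ (a d) := by simp only [a', Equiv.symm_apply_apply]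
          rw [← h2, hfa, h]
          rfl
        refine ⟨(φ (a d)).1, mem_univ _, ?_⟩
        rw [hedge, ← huniq1 _ h1, Equiv.symm_apply_apply]

end TFA
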