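import Mathlib
import Pool.Agent.TFA.Defs
import Pool.Agent.TFA.DcU
import Pool.Agent.TFA.Lt
import Pool.Agent.TFA.Tau
import Pool.Agent.TFA.Grp
import Pool.Agent.TFA.MatA
import Pool.Agent.TFA.MatB
import Pool.Agent.TFA.MatC
import Pool.Agent.TFA.MatG

/-!
TFA/AbsOne (difficulty 4). Absorber of one balanced leftover `L`.
Proof. (1) `grp L.toRight (m+2)` (second half of `Bal`): `Q, v, col` with
`Function.Injective (κ ↦ (v κ.1 κ.2, col κ.1))`, image `L.toRight`, `card Q * (m+2) = L.toRight.card ≤ b`.
(2) `tau L.toLeft` with `K = Q × Fin (m+2)` and `κ ↦ v κ.1 κ.2`: no loops because the edges of `L` are in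
`G.edgeSet`; degrees: `#{e ∈ L.toLeft : x ∈ e} = 2 #{p ∈ L.toRight : p.1 = x}` (`Bal`) and
`#{p ∈ L.toRight : p.1 = x} = #{κ : v κ.1 κ.2 = x}` by the bijection of (1). Get `τ`.
(3) `matG` with `W` (all `v q i ∈ W` since `L` is `In W Γ`), `card Q * (m+2) * (m+1) ≤ b (m+1)`: `M`.
`Mat M col τ`: `inj` from `matG`, `pairs`, `edges` from (1), (2), `loop`: no loops.
(4) `W1 := W ∪ univ.image M` has `card ≤ W.card + b (m+1)`: (new entries are indexed by
`Q × Fin (m+2) × Fin (m+1)`; write `W1 := W ∪ (univ.filter (·.2.2 ≠ 0)).image M` and bound the card of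
the filter by `card Q * (m+2) * (m+1)`). `N := card O`, `O = Q × Fin (m+2) × Fin (m+2)`,
`N = card Q * (m+2) * (m+2) ≤ b (m+2)`.
(5) `lt` with `(W1, Γ)`, `u = M`, `w = M ∘ al τ`, `π = be.trans (al τ).symm`
(so `w (π o) = M (be o)`), hypotheses from `matA1 .. matA5`. Get `W', Γ', T`.
(6) `R := T ∪ (rowE C M ∪ colE C M ∪ newP M col)`. `L = oldE C M τ ∪ oldP M col` (from the images in
(1), (2), `Finset.toLeft/toRight` membership). `matC`: `T` is disjoint from the items listed, as those
are `In W1 Γ` (`col q ∈ Γ` because `L` is `In W Γ`) and the items of `T` are not.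
(7) `Step G W Γ W' Γ' R`: `T`: `In W' Γ'`, not `In W1 Γ`, so not `In W Γ`; row edges have a new entry
(`j` or `j+1` is nonzero), column edges and new pairs as well; they are edges of `G` by `matG`.
Cards: `W'.card ≤ W.card + b (m+1) + 1 + (2 + 18 m) b (m+2) = W.card + wb m b`, `Γ'.card ≤ Γ.card + cb m b`
(the conclusions of `lt` are with `N ≤ b (m+2)`; its hypotheses too).
`R.card ≤ (71 + 36 m) N + N + N + N = (74 + 36 m) N ≤ rb m b`.
-/

set_option autoImplicit false

namespace TFA

open Finset

variable {V C : Type} [Fintype V] [DecidableEq V] [DecidableEq C]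

lemma absOne_card {m : ℕ} {Q : Type} [Fintype Q] [DecidableEq Q] :
    (univ.filter (fun o : Q × Fin (m + 2) × Fin (m + 2) => o.2.2 ≠ 0)).card =
      Fintype.card Q * (m + 2) * (m + 1) := by
  have h : (univ.filter (fun o : Q × Fin (m + 2) × Fin (m + 2) => o.2.2 ≠ 0)) =
      (univ : Finset Q) ×ˢ ((univ : Finset (Fin (m + 2))) ×ˢ
        ((univ : Finset (Fin (m + 2))).erase 0)) := by
    ext ⟨q, i, j⟩
    simp
  rw [h, card_product, card_product, card_erase_of_mem (mem_univ _), card_univ, card_univ,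
    Fintype.card_fin]
  have : m + 2 - 1 = m + 1 := by omega
  rw [this, mul_assoc]

lemma absOne_old {m : ℕ} {Q : Type} [Fintype Q] [DecidableEq Q]
    (M : Q × Fin (m + 2) × Fin (m + 2) → V) (col : Q → C) (v : Q → Fin (m + 2) → V)
    (τ : Equiv.Perm (Q × Fin (m + 2))) (L : Finset (Item V C))
    (hM0 : ∀ q i, M (q, i, 0) = v q i)
    (himg : univ.image (fun κ : Q × Fin (m + 2) => (v κ.1 κ.2, col κ.1)) = L.toRight)
    (himgE : univ.image (fun κ : Q × Fin (m + 2) => s(v κ.1 κ.2, v (τ κ).1 (τ κ).2)) = L.toLeft) :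
    L = oldE C M τ ∪ oldP M col := by
  ext i
  rcases i with e | p
  · rw [← mem_toLeft, ← himgE, mem_union]
    constructor
    · intro h
      rw [mem_image] at h
      obtain ⟨κ, _, rfl⟩ := h
      left
      rw [oldE, mem_image]
      exact ⟨κ, mem_univ _, by rw [hM0, hM0]⟩
    · rintro (h | h)
      · rw [oldE, mem_image] at h
        obtain ⟨κ, _, h⟩ := h
        rw [mem_image]
        refine ⟨κ, mem_univ _, ?_⟩
        have h1 := Sum.inl.inj h
        rw [hM0, hM0] at h1
        exact h1
      · rw [oldP, mem_image] at h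
        obtain ⟨κ, _, h⟩ := h
        exact absurd h (by simp)
  · rw [← mem_toRight, ← himg, mem_union]
    constructor
    · intro h
      rw [mem_image] at h
      obtain ⟨κ, _, rfl⟩ := h
      right
      rw [oldP, mem_image]
      exact ⟨κ, mem_univ _, by rw [hM0]⟩
    · rintro (h | h)
      · rw [oldE, mem_image] at h
        obtain ⟨κ, _, h⟩ := h
        exact absurd h (by simp)
      · rw [oldP, mem_image] at h
        obtain ⟨κ, _, h⟩ := h
        rw [mem_image]
        refine ⟨κ, mem_univ _, ?_⟩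
        have h1 := Sum.inr.inj h
        rw [hM0] at h1
        exact h1

theorem absOne {G : SimpleGraph V} {k kc m b : ℕ} (hG : Host G k) (hC : HostC C kc) (hm : 1 ≤ m)
    (W : Finset V) (Γ : Finset C) (L : Finset (Item V C)) (hL : ∀ i ∈ L, In W Γ i)
    (hLG : ∀ e : Sym2 V, Sum.inl e ∈ L → e ∈ G.edgeSet) (hbal : Bal m L) (hb : L.card ≤ b)
    (hW : W.card + wb m b ≤ k) (hΓ : Γ.card + cb m b ≤ kc) :
    ∃ (W' : Finset V) (Γ' : Finset C) (R : Finset (Item V C)), Step G W Γ W' Γ' R ∧
      W'.card ≤ W.card + wb m b ∧ Γ'.card ≤ Γ.card + cb m b ∧ R.card ≤ rb m b ∧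
      Dc m R ∧ Dc m (L ∪ R) := by
  classical
  obtain ⟨Q, iQ, dQ, v, col, hinj, himg, hcard⟩ := grp L.toRight (m + 2) hbal.2
  have hcardb : Fintype.card Q * (m + 2) ≤ b := by
    rw [hcard]
    refine le_trans ?_ hb
    rw [← card_toLeft_add_card_toRight]
    exact Nat.le_add_left _ _
  have hnd : ∀ e ∈ L.toLeft, ¬ e.IsDiag := by
    intro e he
    exact G.not_isDiag_of_mem_edgeSet (hLG e (mem_toLeft.mp he))
  obtain ⟨τ, hτinj, hτimg⟩ := tau L.toLeft hnd (K := Q × Fin (m + 2)) (fun κ => v κ.1 κ.2) (by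
    intro x
    have h1 : (L.toRight.filter (fun p => p.1 = x)) =
        (univ.filter (fun κ : Q × Fin (m + 2) => v κ.1 κ.2 = x)).image
          (fun κ : Q × Fin (m + 2) => (v κ.1 κ.2, col κ.1)) := by
      rw [← himg]
      ext p
      simp only [mem_filter, mem_image, mem_univ, true_and]
      constructor
      · rintro ⟨⟨κ, rfl⟩, h⟩
        exact ⟨κ, h, rfl⟩
      · rintro ⟨κ, h, rfl⟩
        exact ⟨⟨κ, rfl⟩, h⟩
    rw [hbal.1 x, h1, card_image_of_injective _ hinj])
  have hvW : ∀ q i, v q i ∈ W := by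
    intro q i
    have h1 : (v q i, col q) ∈ L.toRight := by
      rw [← himg]
      exact mem_image.mpr ⟨(q, i), mem_univ _, rfl⟩
    exact (hL _ (mem_toRight.mp h1)).1
  have hm2pos : 0 < m + 2 := by omega
  have hcolΓ : ∀ q, col q ∈ Γ := by
    intro q
    have h1 : (v q 0, col q) ∈ L.toRight := by
      rw [← himg]
      exact mem_image.mpr ⟨(q, 0), mem_univ _, rfl⟩
    exact (hL _ (mem_toRight.mp h1)).2
  have hnew : Fintype.card Q * (m + 2) * (m + 1) ≤ b * (m + 1) := Nat.mul_le_mul_right _ hcardb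
  have hwb : wb m b = b * (m + 1) + 1 + (2 + 18 * m) * (b * (m + 2)) := rfl
  obtain ⟨M, hM0, hMinj, hMW, hMcol, hMrow⟩ := matG hG hm W v hvW (by
    rw [hwb] at hW
    omega)
  have hL' : L = oldE C M τ ∪ oldP M col :=
    absOne_old M col v τ L hM0 himg hτimg
  have hMat : Mat M col τ := by
    refine ⟨hMinj, ?_, ?_, ?_⟩
    · intro κ κ' h
      simp only [hM0] at h
      exact hinj h
    · intro κ κ' h
      simp only [hM0] at h
      exact hτinj h
    · intro κ h
      rw [hM0, hM0] at h
      have h1 : s(v κ.1 κ.2, v (τ κ).1 (τ κ).2) ∈ L.toLeft := by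
        rw [← hτimg]
        exact mem_image.mpr ⟨κ, mem_univ _, rfl⟩
      apply hnd _ h1
      rw [Sym2.mk_isDiag_iff]
      exact h
  set W1 : Finset V := W ∪ (univ.filter
    (fun o : Q × Fin (m + 2) × Fin (m + 2) => o.2.2 ≠ 0)).image M with hW1
  have hW1card : W1.card ≤ W.card + b * (m + 1) := by
    refine (card_union_le _ _).trans ?_
    have h1 : ((univ.filter (fun o : Q × Fin (m + 2) × Fin (m + 2) => o.2.2 ≠ 0)).image M).card ≤
        Fintype.card Q * (m + 2) * (m + 1) := by
      rw [← absOne_card]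
      exact card_image_le
    omega
  have hMW1 : ∀ o, M o ∈ W1 := by
    intro o
    by_cases h : o.2.2 = 0
    · rw [hW1, mem_union]
      left
      have h1 : o = (o.1, o.2.1, 0) := by
        rw [← h]
      rw [h1, hM0]
      exact hvW _ _
    · rw [hW1, mem_union]
      right
      exact mem_image.mpr ⟨o, by simp [h], rfl⟩
  have hWW1 : W ⊆ W1 := subset_union_left
  have hcardO : Fintype.card (Q × Fin (m + 2) × Fin (m + 2)) ≤ b * (m + 2) := by
    rw [Fintype.card_prod, Fintype.card_prod, Fintype.card_fin, ← mul_assoc]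
    exact Nat.mul_le_mul_right _ hcardb
  have hcardO2 : (2 + 18 * m) * Fintype.card (Q × Fin (m + 2) × Fin (m + 2)) ≤
      (2 + 18 * m) * (b * (m + 2)) := Nat.mul_le_mul_left _ hcardO
  have hcardO9 : 9 * Fintype.card (Q × Fin (m + 2) × Fin (m + 2)) ≤ 9 * (b * (m + 2)) :=
    Nat.mul_le_mul_left _ hcardO
  have hπ : ∀ o, (al τ) ((be.trans (al τ).symm : Equiv.Perm (Q × Fin (m + 2) × Fin (m + 2))) o) =
      be o := by
    intro o
    rw [Equiv.trans_apply, Equiv.apply_symm_apply]
  have hcb : cb m b = 9 * (b * (m + 2)) := rfl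
  obtain ⟨W', Γ', T, hStep, hW'c, hΓ'c, hTc, hDA, hDB⟩ := lt hG hC hm W1 Γ
    (fun o => M o) (fun o => M (al τ o)) (be.trans (al τ).symm) hMW1 (fun o => hMW1 _)
    (fun o => matA4 hm hMat o) (fun o => by
      show M o ≠ M (al τ _)
      rw [hπ]
      exact matA5 hm hMat o)
    (matA1 hm hMat) (by
      intro o o' h
      simp only [hπ] at h
      exact matA2 hm hMat h) (by
      intro o o'
      simp only [hπ]
      exact matA3 hm hMat o o') (by
      rw [hwb] at hW
      omega) (by
      rw [hcb] at hΓ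
      omega)
  simp only [hπ] at hDB
  -- the new explicit items
  have hX : ∀ i ∈ (rowE C M ∪ colE C M ∪ newP M col : Finset (Item V C)),
      In W1 Γ i ∧ ¬ In W Γ i ∧ (∀ e : Sym2 V, i = Sum.inl e → e ∈ G.edgeSet) := by
    intro i hi
    rw [mem_union, mem_union] at hi
    rcases hi with (hi | hi) | hi
    · rw [rowE, mem_image] at hi
      obtain ⟨o, _, rfl⟩ := hi
      refine ⟨?_, ?_, ?_⟩
      · intro x hx
        rw [Sym2.mem_iff] at hx
        rcases hx with rfl | rfl
        · exact hMW1 _
        · exact hMW1 _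
      · intro h
        by_cases h0 : o.2.2 = 0
        · have h1 : (be o).2.2 ≠ 0 := by
            show o.2.2 + 1 ≠ 0
            rw [h0]
            intro h2
            have h3 := congrArg Fin.val h2
            simp at h3
          exact hMW _ h1 (h _ (Sym2.mem_mk_right _ _))
        · exact hMW _ h0 (h _ (Sym2.mem_mk_left _ _))
      · intro e he
        have h1 := Sum.inl.inj he
        rw [← h1]
        exact hMrow o
    · rw [colE, mem_image] at hi
      obtain ⟨o, ho, rfl⟩ := hi
      rw [mem_filter] at ho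
      refine ⟨?_, ?_, ?_⟩
      · intro x hx
        rw [Sym2.mem_iff] at hx
        rcases hx with rfl | rfl
        · exact hMW1 _
        · exact hMW1 _
      · intro h
        exact hMW _ ho.2 (h _ (Sym2.mem_mk_left _ _))
      · intro e he
        have h1 := Sum.inl.inj he
        rw [← h1]
        exact hMcol o ho.2
    · rw [newP, mem_image] at hi
      obtain ⟨o, ho, rfl⟩ := hi
      rw [mem_filter] at ho
      refine ⟨⟨hMW1 _, hcolΓ _⟩, ?_, ?_⟩
      · intro h
        exact hMW _ ho.2 h.1
      · intro e he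
        exact absurd he (by simp)
  have hInmono : ∀ i : Item V C, In W1 Γ i → In W' Γ' i := by
    intro i hi
    rcases i with e | p
    · exact fun x hx => hStep.hW (hi x hx)
    · exact ⟨hStep.hW hi.1, hStep.hΓ hi.2⟩
  have hInmono0 : ∀ i : Item V C, In W Γ i → In W1 Γ i := by
    intro i hi
    rcases i with e | p
    · exact fun x hx => hWW1 (hi x hx)
    · exact ⟨hWW1 hi.1, hi.2⟩
  have hT : Disjoint T (oldE C M τ ∪ oldP M col ∪ (rowE C M ∪ colE C M ∪ newP M col)) := by
    rw [disjoint_left]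
    intro i hiT hi
    apply hStep.hnew i hiT
    rw [mem_union] at hi
    rcases hi with hi | hi
    · rw [← hL'] at hi
      exact hInmono0 i (hL i hi)
    · exact (hX i hi).1
  obtain ⟨hD1, hD2⟩ := matC hm hMat T hT hDA hDB
  refine ⟨W', Γ', T ∪ (rowE C M ∪ colE C M ∪ newP M col), ?_, ?_, ?_, ?_, hD1, ?_⟩
  · refine ⟨hWW1.trans hStep.hW, hStep.hΓ, ?_, ?_, ?_⟩
    · intro i hi
      rw [mem_union] at hi
      rcases hi with hi | hi
      · exact hStep.hin i hi
      · exact hInmono i (hX i hi).1
    · intro i hi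
      rw [mem_union] at hi
      rcases hi with hi | hi
      · intro h
        exact hStep.hnew i hi (hInmono0 i h)
      · exact (hX i hi).2.1
    · intro e he
      rw [mem_union] at he
      rcases he with he | he
      · exact hStep.hG e he
      · exact (hX _ he).2.2 e rfl
  · rw [hwb]
    omega
  · rw [hcb]
    omega
  · have h1 : (rowE C M).card ≤ Fintype.card (Q × Fin (m + 2) × Fin (m + 2)) := by
      rw [rowE]
      exact card_image_le
    have h2 : (colE C M).card ≤ Fintype.card (Q × Fin (m + 2) × Fin (m + 2)) := by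
      rw [colE]
      refine card_image_le.trans ?_
      exact card_le_univ _
    have h3 : (newP M col).card ≤ Fintype.card (Q × Fin (m + 2) × Fin (m + 2)) := by
      rw [newP]
      refine card_image_le.trans ?_
      exact card_le_univ _
    have h4 : (T ∪ (rowE C M ∪ colE C M ∪ newP M col)).card ≤
        T.card + ((rowE C M).card + (colE C M).card + (newP M col).card) := by
      refine (card_union_le _ _).trans ?_
      refine Nat.add_le_add_left ?_ _
      refine (card_union_le _ _).trans ?_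
      exact Nat.add_le_add_right (card_union_le _ _) _
    have h5 : rb m b = (74 + 36 * m) * (b * (m + 2)) := rfl
    have h6 : (74 + 36 * m) * Fintype.card (Q × Fin (m + 2) × Fin (m + 2)) ≤
        (74 + 36 * m) * (b * (m + 2)) := Nat.mul_le_mul_left _ hcardO
    have h7 : (74 + 36 * m) * Fintype.card (Q × Fin (m + 2) × Fin (m + 2)) =
        (71 + 36 * m) * Fintype.card (Q × Fin (m + 2) × Fin (m + 2)) +
          3 * Fintype.card (Q × Fin (m + 2) × Fin (m + 2)) := by ring
    rw [h5]
    omega
  · rw [hL']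
    exact hD2

end TFA
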