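import Mathlib
import Pool.Agent.TFA.Defs
import Pool.Agent.TFA.DcU
import Pool.Agent.TFA.AbsOne

/-!
TFA/AllAbs (difficulty 3). One absorber for a finite family of leftovers.
Proof: `Finset.induction_on LL`, statement for fixed `W, Γ`. `LL = ∅`: `R = ∅`, `Dc.nil`.
Step `insert L0 LL`: the induction hypothesis gives `W1, Γ1, R1` (cards `≤ W.card + LL.card * wb m b`);
apply `absOne` with `(W1, Γ1)` to `L0` (`In W1 Γ1` by monotonicity of `In`): `W', Γ', R0`.
`R := R1 ∪ R0`. `Step` composes (as in TFA/Fam): items of `R0` are not `In W1 Γ1`, so not `In W Γ` and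
not in `R1`. `Dc m R = dc_union`. For `L ∈ LL`: `L ∪ R = (L ∪ R1) ∪ R0`, disjoint because `L ∪ R1` is
`In W1 Γ1`. For `L0`: `L0 ∪ R = (L0 ∪ R0) ∪ R1`: `L0` is `In W Γ`, `R1` is not; `R0` is not `In W1 Γ1`,
`R1` is.
-/

set_option autoImplicit false

namespace TFA

open Finset

variable {V C : Type} [Fintype V] [DecidableEq V] [DecidableEq C]

theorem allabs_mono {V C : Type} {W W' : Finset V} {Γ Γ' : Finset C} (hW : W ⊆ W') (hΓ : Γ ⊆ Γ')
    {i : Item V C} (h : In W Γ i) : In W' Γ' i := by
  rcases i with e | p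
  · intro x hx
    exact hW (h x hx)
  · exact ⟨hW h.1, hΓ h.2⟩

theorem allAbs {G : SimpleGraph V} {k kc m b : ℕ} (hG : Host G k) (hC : HostC C kc) (hm : 1 ≤ m)
    (W : Finset V) (Γ : Finset C) (LL : Finset (Finset (Item V C)))
    (hL : ∀ L ∈ LL, (∀ i ∈ L, In W Γ i) ∧ (∀ e : Sym2 V, Sum.inl e ∈ L → e ∈ G.edgeSet) ∧
      Bal m L ∧ L.card ≤ b)
    (hW : W.card + LL.card * wb m b ≤ k) (hΓ : Γ.card + LL.card * cb m b ≤ kc) :
    ∃ (W' : Finset V) (Γ' : Finset C) (R : Finset (Item V C)), Step G W Γ W' Γ' R ∧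
      W'.card ≤ W.card + LL.card * wb m b ∧ Γ'.card ≤ Γ.card + LL.card * cb m b ∧
      R.card ≤ LL.card * rb m b ∧
      Dc m R ∧ ∀ L ∈ LL, Dc m (L ∪ R) := by
  induction LL using Finset.induction_on with
  | empty =>
    refine ⟨W, Γ, ∅, ⟨Subset.refl _, Subset.refl _, ?_, ?_, ?_⟩, ?_, ?_, ?_, Dc.nil, ?_⟩
    · intro i hi
      exact absurd hi (notMem_empty i)
    · intro i hi
      exact absurd hi (notMem_empty i)
    · intro e he
      exact absurd he (notMem_empty _)
    · simp
    · simp
    · simp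
    · intro L hL'
      exact absurd hL' (notMem_empty L)
  | insert L0 LL hL0 ih =>
    have hcard : (insert L0 LL).card = LL.card + 1 := card_insert_of_notMem hL0
    rw [hcard] at hW hΓ
    have hW1 : W.card + (LL.card * wb m b + wb m b) ≤ k := by
      have : (LL.card + 1) * wb m b = LL.card * wb m b + wb m b := by ring
      rw [← this]; exact hW
    have hΓ1 : Γ.card + (LL.card * cb m b + cb m b) ≤ kc := by
      have : (LL.card + 1) * cb m b = LL.card * cb m b + cb m b := by ring
      rw [← this]; exact hΓ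
    obtain ⟨W1, Γ1, R1, hS1, hWc1, hΓc1, hRc1, hD1, hA1⟩ := ih
      (fun L hL' => hL L (mem_insert_of_mem hL')) (by omega) (by omega)
    obtain ⟨hL0a, hL0b, hL0c, hL0d⟩ := hL L0 (mem_insert_self _ _)
    obtain ⟨W', Γ', R0, hS0, hWc0, hΓc0, hRc0, hD0, hA0⟩ := absOne hG hC hm W1 Γ1 L0
      (fun i hi => allabs_mono hS1.hW hS1.hΓ (hL0a i hi)) hL0b hL0c hL0d (by omega) (by omega)
    have hdisj : Disjoint R1 R0 := by
      rw [disjoint_left]
      intro i hi hi'
      exact hS0.hnew i hi' (hS1.hin i hi)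
    refine ⟨W', Γ', R1 ∪ R0, ⟨hS1.hW.trans hS0.hW, hS1.hΓ.trans hS0.hΓ, ?_, ?_, ?_⟩, ?_, ?_, ?_,
      dc_union hD1 hD0 hdisj, ?_⟩
    · intro i hi
      rcases mem_union.1 hi with h | h
      · exact allabs_mono hS0.hW hS0.hΓ (hS1.hin i h)
      · exact hS0.hin i h
    · intro i hi hin
      rcases mem_union.1 hi with h | h
      · exact hS1.hnew i h hin
      · exact hS0.hnew i h (allabs_mono hS1.hW hS1.hΓ hin)
    · intro e he
      rcases mem_union.1 he with h | h
      · exact hS1.hG e h
      · exact hS0.hG e h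
    · rw [hcard]
      have : (LL.card + 1) * wb m b = LL.card * wb m b + wb m b := by ring
      omega
    · rw [hcard]
      have : (LL.card + 1) * cb m b = LL.card * cb m b + cb m b := by ring
      omega
    · rw [hcard]
      have : (LL.card + 1) * rb m b = LL.card * rb m b + rb m b := by ring
      have h2 := card_union_le R1 R0
      omega
    · intro L hL'
      rcases mem_insert.1 hL' with h | h
      · subst h
        have e1 : L ∪ (R1 ∪ R0) = (L ∪ R0) ∪ R1 := by
          rw [union_comm R1 R0, union_assoc]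
        rw [e1]
        apply dc_union hA0 hD1
        rw [disjoint_left]
        intro i hi hi'
        rcases mem_union.1 hi with h3 | h3
        · exact hS1.hnew i hi' (hL0a i h3)
        · exact hS0.hnew i h3 (hS1.hin i hi')
      · have e1 : L ∪ (R1 ∪ R0) = (L ∪ R1) ∪ R0 := by rw [union_assoc]
        rw [e1]
        apply dc_union (hA1 L h) hD0
        rw [disjoint_left]
        intro i hi hi'
        rcases mem_union.1 hi with h3 | h3
        · exact hS0.hnew i hi' (allabs_mono hS1.hW hS1.hΓ ((hL L (mem_insert_of_mem h)).1 i h3))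
        · exact hS0.hnew i hi' (hS1.hin i h3)


end TFA
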