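import Mathlib
import Pool.Agent.TFA.Defs
import Pool.Agent.TFA.AllAbs

/-!
TFA/PartA (difficulty 3). The absorber theorem for graphs of minimum degree `(3/4 + ε) n`.
Constants: `b := 2 M^2`, `t := 2^b`. `B := t * rb m b`, `n0` so large that `t * wb m b ≤ ε n0` and
`t * cb m b ≤ n0 / 4` (with `3 ε n ≥ t * wb m b` being enough).
Proof. `n = card V`, `k := ⌈4 ε n⌉₊`... : `Host G k`: for `S.card ≤ 4` the number of common neighbours of
`S` is at least `n - 4 (1/4 - ε) n = 4 ε n` (complement: a vertex not adjacent to some `x ∈ S`; at most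
`n - deg x ≤ (1/4 - ε) n` for each `x`), so it is `≥ k` (an integer `≥ 4 ε n`), and a set `W` with
`W.card < k` does not contain all of them. `HostC C kc` with `kc := card C`: a colour outside `Γ` exists
if `Γ.card < card C`.
`I0 := univ.filter (In U CJ)` (classical) has at most `|U|^2 + |U| |CJ| ≤ 2 M^2 = b` elements (the edges
with both ends in `U` are in the image of `U ×ˢ U` under `Sym2.mk`; the pairs are `U ×ˢ CJ`).
`LL := I0.powerset.filter (fun L => (∀ e, Sum.inl e ∈ L → e ∈ G.edgeSet) ∧ Bal m L)`, `card ≤ 2^b = t`.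
`allAbs` with `W = U1`, `Γ = C1` (`In U CJ → In U1 C1` by monotonicity):
`U1.card + LL.card * wb m b ≤ ε n + ε n ≤ 4 ε n ≤ k`, and `C1.card + LL.card * cb m b ≤ card C` since
`card C - C1.card = (C1ᶜ).card ≥ n / 4`. Result `R`: `R.card ≤ t * rb m b = B`. An edge of `R` is in `G`
and not `In U1 C1`, so has a vertex outside `U1`; a pair of `R` is not `In U1 C1`. Every admissible `L` is
in `LL` (all its items are `In U CJ`).
-/

set_option autoImplicit false

namespace TFA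

open Finset

theorem PartA_host {V : Type} [Fintype V] [DecidableEq V] (G : SimpleGraph V) [DecidableRel G.Adj] {ε : ℝ}
    (hd : ∀ v, (3 / 4 + ε) * (Fintype.card V : ℝ) ≤ (G.degree v : ℝ)) :
    Host G ⌈4 * ε * (Fintype.card V : ℝ)⌉₊ := by
  intro S W hS hW
  rw [Nat.lt_ceil] at hW
  have hn : 0 ≤ (1 / 4 - ε) * (Fintype.card V : ℝ) := by
    rcases isEmpty_or_nonempty V with h | ⟨⟨v⟩⟩
    · simp
    · have h1 := hd v
      have h2 : (G.degree v : ℝ) ≤ Fintype.card V := by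
        exact_mod_cast (G.degree_lt_card_verts v).le
      nlinarith
  let N : Finset V := univ.filter (fun v => ∀ x ∈ S, G.Adj v x)
  have h1 : (((Nᶜ : Finset V).card : ℕ) : ℝ) ≤ 4 * ((1 / 4 - ε) * (Fintype.card V : ℝ)) := by
    have h2 : Nᶜ ⊆ S.biUnion (fun x => univ.filter (fun v => ¬ G.Adj x v)) := by
      intro v hv
      simp only [N, mem_compl, mem_filter, mem_univ, true_and] at hv
      push Not at hv
      obtain ⟨x, hx, hvx⟩ := hv
      exact mem_biUnion.2 ⟨x, hx, by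
        simp only [mem_filter, mem_univ, true_and]
        exact fun h => hvx h.symm⟩
    have h3 : ∀ x : V, (((univ.filter (fun v => ¬ G.Adj x v)).card : ℕ) : ℝ) ≤ (1 / 4 - ε) * (Fintype.card V : ℝ) := by
      intro x
      have h4 : (univ.filter (fun v => G.Adj x v)).card + (univ.filter (fun v => ¬ G.Adj x v)).card = Fintype.card V := by
        rw [Finset.card_filter_add_card_filter_not]
        rfl
      have h5 : (univ.filter (fun v => G.Adj x v)).card = G.degree x := by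
        rw [← SimpleGraph.card_neighborFinset_eq_degree, SimpleGraph.neighborFinset_eq_filter]
      rw [h5] at h4
      have h6 : (G.degree x : ℝ) + ((univ.filter (fun v => ¬ G.Adj x v)).card : ℝ) = Fintype.card V := by
        exact_mod_cast h4
      have := hd x
      nlinarith
    have h7 : ((Nᶜ : Finset V).card : ℝ) ≤ ∑ x ∈ S, ((univ.filter (fun v => ¬ G.Adj x v)).card : ℝ) := by
      have h8 := (card_le_card h2).trans card_biUnion_le
      exact_mod_cast h8
    refine h7.trans ((Finset.sum_le_card_nsmul _ _ _ (fun x _ => h3 x)).trans ?_)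
    rw [nsmul_eq_mul]
    apply mul_le_mul_of_nonneg_right _ hn
    exact_mod_cast hS
  have h9 : (W.card : ℝ) < N.card := by
    have h10 : (N.card : ℝ) + ((Nᶜ : Finset V).card : ℝ) = Fintype.card V := by
      exact_mod_cast Finset.card_add_card_compl N
    linarith
  obtain ⟨v, hv1, hv2⟩ := Finset.exists_mem_notMem_of_card_lt_card (by exact_mod_cast h9 : W.card < N.card)
  exact ⟨v, hv2, (mem_filter.1 hv1).2⟩

theorem PartA_mono {V C : Type} {U U1 : Finset V} {CJ C1 : Finset C} (hU : U ⊆ U1) (hC : CJ ⊆ C1)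
    (i : Item V C) (h : In U CJ i) : In U1 C1 i := by
  rcases i with e | p
  · exact fun x hx => hU (h x hx)
  · exact ⟨hU h.1, hC h.2⟩

theorem PartA_card {V C : Type} [DecidableEq V] [DecidableEq C] {U : Finset V} {CJ : Finset C}
    {M : ℕ} (hU : U.card ≤ M) (hC : CJ.card ≤ M) (I : Finset (Item V C)) (hI : ∀ i ∈ I, In U CJ i) :
    I.card ≤ 2 * M ^ 2 := by
  have h1 : I ⊆ (U ×ˢ U).image (fun p => (Sum.inl s(p.1, p.2) : Item V C)) ∪ (U ×ˢ CJ).image (fun p => (Sum.inr p : Item V C)) := by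
    intro i hi
    have h2 := hI i hi
    rcases i with e | p
    · induction e using Sym2.ind with
      | _ a b =>
        refine mem_union_left _ (mem_image.2 ⟨(a, b), mem_product.2 ⟨h2 a (by simp), h2 b (by simp)⟩, rfl⟩)
    · exact mem_union_right _ (mem_image.2 ⟨p, mem_product.2 ⟨h2.1, h2.2⟩, rfl⟩)
  have h2 := card_le_card h1
  have h3 := card_union_le ((U ×ˢ U).image (fun p => (Sum.inl s(p.1, p.2) : Item V C))) ((U ×ˢ CJ).image (fun p => (Sum.inr p : Item V C)))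
  have h4 : ((U ×ˢ U).image (fun p => (Sum.inl s(p.1, p.2) : Item V C))).card ≤ M * M :=
    card_image_le.trans (by rw [card_product]; exact Nat.mul_le_mul hU hU)
  have h5 : ((U ×ˢ CJ).image (fun p => (Sum.inr p : Item V C))).card ≤ M * M :=
    card_image_le.trans (by rw [card_product]; exact Nat.mul_le_mul hU hC)
  nlinarith

theorem partA (ε : ℝ) (hε : 0 < ε) (m : ℕ) (hm : 1 ≤ m) (M : ℕ) :
    ∃ n0 B : ℕ, ∀ (V C : Type) [Fintype V] [DecidableEq V] [Fintype C] [DecidableEq C],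
      n0 ≤ Fintype.card V → ∀ (G : SimpleGraph V) [DecidableRel G.Adj],
      (∀ v, (3 / 4 + ε) * (Fintype.card V : ℝ) ≤ (G.degree v : ℝ)) →
      ∀ (U U1 : Finset V) (CJ C1 : Finset C), U ⊆ U1 → U.card ≤ M →
      (U1.card : ℝ) ≤ ε * (Fintype.card V : ℝ) → CJ ⊆ C1 → CJ.card ≤ M →
      (Fintype.card V : ℝ) / 4 ≤ ((C1ᶜ).card : ℝ) →
      ∃ R : Finset (Item V C), R.card ≤ B ∧
        (∀ e : Sym2 V, Sum.inl e ∈ R → e ∈ G.edgeSet ∧ ∃ x ∈ e, x ∉ U1) ∧
        (∀ p : V × C, Sum.inr p ∈ R → p.1 ∉ U1 ∨ p.2 ∉ C1) ∧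
        ∀ L : Finset (Item V C), (∀ i ∈ L, In U CJ i) →
          (∀ e : Sym2 V, Sum.inl e ∈ L → e ∈ G.edgeSet) → Bal m L → Dc m (L ∪ R) := by
  classical
  obtain ⟨n1, hn1⟩ := exists_nat_ge (((2 ^ (2 * M ^ 2) * wb m (2 * M ^ 2) : ℕ) : ℝ) / ε)
  refine ⟨n1 + 4 * (2 ^ (2 * M ^ 2) * cb m (2 * M ^ 2)), 2 ^ (2 * M ^ 2) * rb m (2 * M ^ 2), ?_⟩
  intro V C _ _ _ _ hn G _ hd U U1 CJ C1 hU hUM hU1 hCJ hCM hC1
  let I0 : Finset (Item V C) := univ.filter (fun i => In U CJ i)
  have hI0 : I0.card ≤ 2 * M ^ 2 := PartA_card hUM hCM I0 (fun i hi => (mem_filter.1 hi).2)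
  let LL : Finset (Finset (Item V C)) :=
    I0.powerset.filter (fun L => (∀ e : Sym2 V, Sum.inl e ∈ L → e ∈ G.edgeSet) ∧ Bal m L)
  have hLL : LL.card ≤ 2 ^ (2 * M ^ 2) := by
    refine (card_filter_le _ _).trans ?_
    rw [card_powerset]
    exact Nat.pow_le_pow_right (by norm_num) hI0
  have hnn : ((n1 + 4 * (2 ^ (2 * M ^ 2) * cb m (2 * M ^ 2)) : ℕ) : ℝ) ≤ Fintype.card V := by exact_mod_cast hn
  push_cast at hnn
  have hcb : 0 ≤ (4 : ℝ) * (2 ^ (2 * M ^ 2) * (cb m (2 * M ^ 2) : ℝ)) := by positivity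
  have hn1' : (n1 : ℝ) ≤ Fintype.card V := by linarith
  have hw1 : ((2 ^ (2 * M ^ 2) * wb m (2 * M ^ 2) : ℕ) : ℝ) ≤ ε * Fintype.card V := by
    rw [div_le_iff₀ hε] at hn1
    nlinarith
  have hLw : ((LL.card * wb m (2 * M ^ 2) : ℕ) : ℝ) ≤ ε * Fintype.card V := by
    refine le_trans ?_ hw1
    exact_mod_cast Nat.mul_le_mul_right _ hLL
  have hLc : ((LL.card * cb m (2 * M ^ 2) : ℕ) : ℝ) ≤ (Fintype.card V : ℝ) / 4 := by
    have h1 : ((LL.card * cb m (2 * M ^ 2) : ℕ) : ℝ) ≤ ((2 ^ (2 * M ^ 2) * cb m (2 * M ^ 2) : ℕ) : ℝ) := by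
      exact_mod_cast Nat.mul_le_mul_right _ hLL
    push_cast at h1 ⊢
    have h2 : (0 : ℝ) ≤ n1 := Nat.cast_nonneg _
    linarith
  have hεn : 0 ≤ ε * (Fintype.card V : ℝ) := by positivity
  obtain ⟨W', Γ', R, hS, _, _, hR, _, hD⟩ := allAbs (k := ⌈4 * ε * (Fintype.card V : ℝ)⌉₊) (kc := Fintype.card C)
    (m := m) (b := 2 * M ^ 2) (PartA_host G hd)
    (by
      intro Γ hΓ
      obtain ⟨c, _, hc⟩ := Finset.exists_mem_notMem_of_card_lt_card (by rwa [Finset.card_univ] : Γ.card < (univ : Finset C).card)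
      exact ⟨c, hc⟩) hm U1 C1 LL
    (by
      intro L hL
      obtain ⟨hL1, hL2, hL3⟩ := mem_filter.1 hL
      rw [mem_powerset] at hL1
      exact ⟨fun i hi => PartA_mono hU hCJ i (mem_filter.1 (hL1 hi)).2, hL2, hL3, (card_le_card hL1).trans hI0⟩)
    (by
      have h1 : ((U1.card + LL.card * wb m (2 * M ^ 2) : ℕ) : ℝ) ≤ (⌈4 * ε * (Fintype.card V : ℝ)⌉₊ : ℝ) := by
        refine le_trans ?_ (Nat.le_ceil _)
        push_cast at hLw ⊢
        linarith
      exact_mod_cast h1)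
    (by
      have h1 : ((C1.card + LL.card * cb m (2 * M ^ 2) : ℕ) : ℝ) ≤ (Fintype.card C : ℝ) := by
        have h2 : (C1.card : ℝ) + ((C1ᶜ : Finset C).card : ℝ) = Fintype.card C := by
          exact_mod_cast Finset.card_add_card_compl C1
        push_cast at hLc ⊢
        linarith
      exact_mod_cast h1)
  refine ⟨R, hR.trans (Nat.mul_le_mul_right _ hLL), ?_, ?_, ?_⟩
  · intro e he
    refine ⟨hS.hG e he, ?_⟩
    have h1 := hS.hnew _ he
    simp only [In] at h1
    push Not at h1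
    exact h1
  · intro p hp
    have h1 := hS.hnew _ hp
    simp only [In] at h1
    by_cases h2 : p.1 ∈ U1
    · exact Or.inr (fun h3 => h1 ⟨h2, h3⟩)
    · exact Or.inl h2
  · intro L hL1 hL2 hL3
    apply hD
    refine mem_filter.2 ⟨mem_powerset.2 (fun i hi => mem_filter.2 ⟨mem_univ _, hL1 i hi⟩), hL2, hL3⟩

end TFA
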